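import Pool.Agent.Lib.MP_bae66e_nt.TL.Defs

/-!
# N0: lower bounds for `rho`
-/

set_option autoImplicit false

open Finset Nat

namespace Pool.Agent.Lib.MP_bae66e_nt.TL

/-- N0a. The prime factors of `primProd v` are the primes up to `v`. -/
lemma primeFactors_primProd (v : ℕ) : (primProd v).primeFactors = prms v := by
  ext p
  rw [mem_prms, Nat.mem_primeFactors]
  constructor
  · rintro ⟨hp, hdvd, _⟩
    refine ⟨?_, hp⟩
    unfold primProd at hdvd
    obtain ⟨q, hq, hpq⟩ := (Prime.dvd_finset_prod_iff hp.prime _).mp hdvd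
    have hqp := (mem_prms.mp hq)
    have := (Nat.prime_dvd_prime_iff_eq hp hqp.2).mp hpq
    rw [this]
    exact hqp.1
  · rintro ⟨hpv, hp⟩
    refine ⟨hp, ?_, (primProd_pos v).ne'⟩
    unfold primProd
    exact Finset.dvd_prod_of_mem _ (mem_prms.mpr ⟨hpv, hp⟩)

private lemma N0_factor_pos {n p : ℕ} (hp : p ∈ n.primeFactors) : 0 < 1 - 1 / (p : ℝ) := by
  have h : (1 : ℝ) < p := by exact_mod_cast (Nat.prime_of_mem_primeFactors hp).one_lt
  rw [sub_pos, div_lt_one (by linarith)]
  exact h

private lemma N0_factor_le {p : ℕ} : 1 - 1 / (p : ℝ) ≤ 1 := by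
  have : (0 : ℝ) ≤ 1 / (p : ℝ) := by positivity
  linarith

/-- N0b. `rho (primProd v) = KT v` (`primeFactors_primProd`; `prI 0 v = prms v`), then
`exists_KT_ge` of `AP3/Mert.lean` (the lemma is in the namespace of that file). -/
lemma exists_rho_primProd_ge :
    ∃ c : ℝ, 0 < c ∧ ∀ v : ℕ, 2 ≤ v → c / Real.log v ≤ rho (primProd v) := by
  obtain ⟨c, hc, h⟩ := AP3.exists_KT_ge
  refine ⟨c, hc, fun v hv => ?_⟩
  have h1 := h v hv
  unfold AP3.KT at h1
  unfold rho
  rw [primeFactors_primProd]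
  have : AP3.prI 0 v = prms v := by
    ext p
    rw [AP3.mem_prI, mem_prms]
    exact ⟨fun h => ⟨h.1.2, h.2⟩, fun h => ⟨⟨h.2.pos, h.1⟩, h.2⟩⟩
  rw [← this]
  exact h1

/-- N0c. `rho` is a product of factors in `(0, 1]` over the prime factors. -/
lemma rho_le_of_primeFactors_subset {a b : ℕ} (h : a.primeFactors ⊆ b.primeFactors) :
    rho b ≤ rho a := by
  unfold rho
  rw [← Finset.prod_sdiff h]
  have h1 : ∏ p ∈ b.primeFactors \ a.primeFactors, (1 - 1 / (p : ℝ)) ≤ 1 := by
    apply Finset.prod_le_one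
    · intro p hp
      exact (N0_factor_pos (Finset.mem_sdiff.mp hp).1).le
    · intro p _
      exact N0_factor_le
  have h2 : 0 ≤ ∏ p ∈ a.primeFactors, (1 - 1 / (p : ℝ)) :=
    Finset.prod_nonneg fun p hp => (N0_factor_pos hp).le
  calc _ ≤ 1 * ∏ p ∈ a.primeFactors, (1 - 1 / (p : ℝ)) := mul_le_mul_of_nonneg_right h1 h2
    _ = _ := one_mul _

private lemma N0_prod_ge (S : Finset ℕ) (hS : ∀ p ∈ S, p.Prime) :
    1 - ∑ p ∈ S, 1 / (p : ℝ) ≤ ∏ p ∈ S, (1 - 1 / (p : ℝ)) := by
  classical
  induction S using Finset.induction_on with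
  | empty => simp
  | insert q S hq ih =>
    rw [Finset.sum_insert hq, Finset.prod_insert hq]
    have h1 := ih fun p hp => hS p (Finset.mem_insert_of_mem hp)
    have hq1 : (1 : ℝ) < q := by exact_mod_cast (hS q (Finset.mem_insert_self _ _)).one_lt
    have h2 : 0 < 1 - 1 / (q : ℝ) := by
      rw [sub_pos, div_lt_one (by linarith)]; exact hq1
    have h3 : 0 ≤ 1 / (q : ℝ) := by positivity
    have h4 : 0 ≤ ∑ p ∈ S, 1 / (p : ℝ) := Finset.sum_nonneg fun p _ => by positivity
    have h5 := mul_le_mul_of_nonneg_left h1 h2.le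
    nlinarith

/-- N0d. `rho (primProd v * Δ) = rho (primProd v) * ∏_{p ∣ Δ, p > v} (1 - 1/p)` (or `≥`), and
`∏ (1 - 1/p) ≥ 1 - ∑ 1/p ≥ 1 - #{p ∣ Δ, p > v} / v`, `#{p ∣ Δ, p > v} * log v ≤ log Δ`
(`sum_log_primeFactors_le` in `Mertens.lean`). -/
lemma rho_primProd_mul_ge (v Δ : ℕ) (hv : 2 ≤ v) (hΔ : Δ ≠ 0) :
    rho (primProd v) * (1 - Real.log Δ / (v * Real.log v)) ≤ rho (primProd v * Δ) := by
  have hv1 : (1 : ℝ) < v := by exact_mod_cast hv
  have hlv : 0 < Real.log v := Real.log_pos hv1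
  set S := Δ.primeFactors.filter (fun p => v < p) with hSdef
  have hSp : ∀ p ∈ S, p.Prime := fun p hp => Nat.prime_of_mem_primeFactors (Finset.mem_filter.mp hp).1
  have hfac : (primProd v * Δ).primeFactors = S ∪ (primProd v).primeFactors := by
    rw [Nat.primeFactors_mul (primProd_pos v).ne' hΔ]
    ext p
    rw [Finset.mem_union, Finset.mem_union, hSdef, Finset.mem_filter]
    constructor
    · rintro (h | h)
      · exact Or.inr h
      · by_cases hpv : v < p
        · exact Or.inl ⟨h, hpv⟩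
        · right
          rw [primeFactors_primProd, mem_prms]
          exact ⟨by omega, Nat.prime_of_mem_primeFactors h⟩
    · rintro (h | h)
      · exact Or.inr h.1
      · exact Or.inl h
  have hdisj : Disjoint S (primProd v).primeFactors := by
    rw [Finset.disjoint_left]
    intro p hp hp2
    rw [primeFactors_primProd, mem_prms] at hp2
    rw [hSdef, Finset.mem_filter] at hp
    omega
  have hrho : rho (primProd v * Δ) = (∏ p ∈ S, (1 - 1 / (p : ℝ))) * rho (primProd v) := by
    unfold rho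
    rw [hfac, Finset.prod_union hdisj]
  have hpos : 0 ≤ rho (primProd v) := by
    unfold rho
    exact Finset.prod_nonneg fun p hp => (N0_factor_pos hp).le
  have hcard : (#S : ℝ) * Real.log v ≤ Real.log Δ := by
    calc (#S : ℝ) * Real.log v = ∑ p ∈ S, Real.log v := by rw [Finset.sum_const, nsmul_eq_mul]
      _ ≤ ∑ p ∈ S, Real.log p := by
          apply Finset.sum_le_sum
          intro p hp
          apply Real.log_le_log (by linarith)
          have := (Finset.mem_filter.mp hp).2
          exact_mod_cast this.le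
      _ ≤ ∑ p ∈ Δ.primeFactors, Real.log p := by
          apply Finset.sum_le_sum_of_subset_of_nonneg (Finset.filter_subset _ _)
          intro p hp _
          exact Real.log_nonneg (by exact_mod_cast (Nat.prime_of_mem_primeFactors hp).one_lt.le)
      _ ≤ Real.log Δ := sum_log_primeFactors_le Δ hΔ
  have hsum : ∑ p ∈ S, 1 / (p : ℝ) ≤ Real.log Δ / (v * Real.log v) := by
    calc ∑ p ∈ S, 1 / (p : ℝ) ≤ ∑ p ∈ S, 1 / (v : ℝ) := by
          apply Finset.sum_le_sum
          intro p hp
          have := (Finset.mem_filter.mp hp).2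
          apply one_div_le_one_div_of_le (by linarith)
          exact_mod_cast this.le
      _ = #S / (v : ℝ) := by rw [Finset.sum_const, nsmul_eq_mul]; ring
      _ ≤ Real.log Δ / (v * Real.log v) := by
          rw [div_le_div_iff₀ (by linarith) (by positivity)]
          nlinarith
  rw [hrho, mul_comm (∏ p ∈ S, (1 - 1 / (p : ℝ)))]
  apply mul_le_mul_of_nonneg_left _ hpos
  linarith [N0_prod_ge S hSp]

end Pool.Agent.Lib.MP_bae66e_nt.TL
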