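import Pool.Agent.Lib.MP_bae66e_nt.TL.N1c
import Pool.Agent.Lib.MP_bae66e_nt.TL.N0

/-!
# N1: sieve bound for `n` with `u - n` prime for all `u ∈ S`
-/

set_option autoImplicit false

open Finset Nat

namespace Pool.Agent.Lib.MP_bae66e_nt.TL

private lemma N1_exp_one_lt (l : ℝ) (hl : 1000 ≤ l) : Real.exp 1 ≤ l := by
  have := Real.exp_one_lt_d9
  linarith

/-- the numerical facts used for `l = log y ≥ 1000` -/
private lemma N1_num1 (l : ℝ) (hl : 1000 ≤ l) : Real.exp (l / 17) + 1 ≤ Real.exp (l / 16) := by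
  have h1 : Real.exp (l / 16) = Real.exp (l / 17) * Real.exp (l / 272) := by
    rw [← Real.exp_add]
    congr 1
    ring
  have h2 : 1 + l / 272 ≤ Real.exp (l / 272) := by
    have := Real.add_one_le_exp (l / 272)
    linarith
  have h3 : 1 ≤ Real.exp (l / 17) := Real.one_le_exp (by linarith)
  rw [h1]
  nlinarith

private lemma N1_sq (x : ℝ) (hx : 0 ≤ x) : x ^ 2 / 2 ≤ Real.exp x := by
  have := Real.quadratic_le_exp_of_nonneg hx
  nlinarith

private lemma N1_num2 (l : ℝ) (hl : 1000 ≤ l) :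
    Real.exp (l / 4) + l * (Real.exp (l / 16) + 1) ≤ Real.exp l / 2 * Real.exp (-(l / 8)) := by
  have e0 : Real.exp l / 2 * Real.exp (-(l / 8)) = Real.exp (7 * l / 8) / 2 := by
    rw [div_mul_eq_mul_div, ← Real.exp_add]
    congr 2
    ring
  have e1 : Real.exp (7 * l / 8) = Real.exp (l / 4) * Real.exp (5 * l / 8) := by
    rw [← Real.exp_add]
    congr 1
    ring
  have e2 : Real.exp (7 * l / 8) = Real.exp (l / 16) * Real.exp (13 * l / 16) := by
    rw [← Real.exp_add]
    congr 1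
    ring
  have h1 : 8 ≤ Real.exp (5 * l / 8) := by
    have := Real.add_one_le_exp (5 * l / 8)
    linarith
  have h2 : 8 * l ≤ Real.exp (13 * l / 16) := by
    have := N1_sq (13 * l / 16) (by linarith)
    nlinarith
  have h3 : 8 * l ≤ Real.exp (7 * l / 8) := by
    have := N1_sq (7 * l / 8) (by linarith)
    nlinarith
  have p1 := Real.exp_pos (l / 4)
  have p2 := Real.exp_pos (l / 16)
  have q1 : 8 * Real.exp (l / 4) ≤ Real.exp (7 * l / 8) := by
    rw [e1]
    nlinarith
  have q2 : 8 * (l * Real.exp (l / 16)) ≤ Real.exp (7 * l / 8) := by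
    rw [e2]
    nlinarith
  rw [e0]
  nlinarith

/-- N1. `small_sieve_aux` with `v = ⌊(log y)^3⌋`, `R = ⌊y^(1/16)⌋`, `D = ⌊R^(1/r)⌋`, `r = #S`:
`r ≤ log y / loglog y` (as `C₁ ≥ 1`), `log (diffProd S) / (v log v) ≤ r² log y / (v log v) ≤ 1/2`,
`rho (…) ≥ c₀ / (2 log v) ≥ c₀ / (6 loglog y)` (`rho_primProd_mul_ge`, `exists_rho_primProd_ge`),
`log (D + 1) ≥ log R / r ≥ log y / (17 r)`, so the main term is
`≤ 2y (102 r / (c₀ L))^r ≤ (y / 2) (C₁ r / L)^r` for `C₁ ≥ 408 / c₀`, `C₁ ≥ 8`.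
The error `R^4 + r (R + 1) ≤ y^(1/4) + 3 y^(1/16) log y ≤ (y / 2) * exp (-L / C₁)` for large `y`,
and `(C₁ r / L)^r ≥ exp (-L / C₁)` by `exp_neg_le_pow` with `x = C₁ r / L ≤ 1`, `A = L / C₁`. -/
theorem small_sieve : ∃ C₁ : ℝ, 1 ≤ C₁ ∧ ∃ y₁ : ℕ, ∀ y : ℕ, y₁ ≤ y → ∀ S : Finset ℕ,
    S ⊆ Finset.Ioc y (2 * y) → 1 ≤ #S →
    C₁ * #S * Real.log (Real.log y) ≤ Real.log y →
    ((#{n ∈ Finset.Ioc 0 (2 * y) | ∀ u ∈ S, n < u ∧ (u - n).Prime} : ℕ) : ℝ)
      ≤ y * (C₁ * #S / LL y) ^ #S := by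
  obtain ⟨c₀, hc₀, hrho⟩ := exists_rho_primProd_ge
  refine ⟨max 8 (408 / c₀), le_trans (by norm_num) (le_max_left _ _), ⌈Real.exp 1000⌉₊, ?_⟩
  intro y hy S hS hr hC
  set C₁ : ℝ := max 8 (408 / c₀) with hC₁
  have hC8 : 8 ≤ C₁ := le_max_left _ _
  have hC408 : 408 / c₀ ≤ C₁ := le_max_right _ _
  have hy0 : Real.exp 1000 ≤ (y : ℝ) := Nat.ceil_le.1 hy
  have hypos : 0 < (y : ℝ) := lt_of_lt_of_le (Real.exp_pos _) hy0
  set l : ℝ := Real.log y with hl
  have hl1000 : 1000 ≤ l := (Real.le_log_iff_exp_le hypos).2 hy0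
  have hyl : Real.exp l = (y : ℝ) := Real.exp_log hypos
  have hlpos : 0 < l := by linarith
  set l2 : ℝ := Real.log l with hl2
  have hl21 : 1 ≤ l2 := (Real.le_log_iff_exp_le hlpos).2 (N1_exp_one_lt l hl1000)
  set r : ℝ := (#S : ℝ) with hrr
  have hr1 : 1 ≤ r := by rw [hrr]; exact_mod_cast hr
  have hrl : r * 8 ≤ l := by
    have h1 : 8 * r * 1 ≤ C₁ * r * l2 := by
      apply mul_le_mul _ hl21 zero_le_one (by positivity)
      exact mul_le_mul_of_nonneg_right hC8 (by linarith)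
    linarith
  -- the parameter v
  set v : ℕ := ⌊l ^ 3⌋₊ with hv
  have hl3 : l ≤ l ^ 3 := by nlinarith [sq_nonneg (l - 1), mul_pos hlpos hlpos]
  have hvle : (v : ℝ) ≤ l ^ 3 := Nat.floor_le (by positivity)
  have hvge : l ^ 3 / 2 ≤ (v : ℝ) := by
    have := Nat.lt_floor_add_one (l ^ 3)
    rw [← hv] at this
    linarith
  have hSv : #S ≤ v := by
    refine Nat.le_floor ?_
    rw [← hrr]
    linarith
  have hv2 : 2 ≤ v := by
    have : (2 : ℝ) ≤ (v : ℝ) := by linarith
    exact_mod_cast this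
  have hvpos : 0 < (v : ℝ) := by linarith
  have hl32 : 2000 ≤ l ^ 3 := by
    have h1 : 1000 * 1000 ≤ l * l := by nlinarith
    have h2 : l ^ 3 = l * l * l := by ring
    rw [h2]
    nlinarith
  have hlogv1 : 1 ≤ Real.log v :=
    (Real.le_log_iff_exp_le hvpos).2 (le_trans (N1_exp_one_lt 1000 le_rfl) (by linarith))
  have hlogv : Real.log v ≤ 3 * l2 := by
    have h1 := Real.log_le_log hvpos hvle
    rw [Real.log_pow] at h1
    push_cast at h1
    exact h1
  -- the parameter R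
  set R : ℕ := ⌊Real.exp (l / 16)⌋₊ with hR
  have hRle : (R : ℝ) ≤ Real.exp (l / 16) := Nat.floor_le (Real.exp_pos _).le
  have hRge : Real.exp (l / 17) ≤ (R : ℝ) := by
    have := Nat.lt_floor_add_one (Real.exp (l / 16))
    rw [← hR] at this
    have h2 := N1_num1 l hl1000
    linarith
  have hRpos : 0 < (R : ℝ) := lt_of_lt_of_le (Real.exp_pos _) hRge
  have hlogR : l / 17 ≤ Real.log R := (Real.le_log_iff_exp_le hRpos).2 hRge
  -- the parameter D
  set D : ℕ := ⌊Real.exp (Real.log R / r)⌋₊ with hD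
  have hDle : (D : ℝ) ≤ Real.exp (Real.log R / r) := Nat.floor_le (Real.exp_pos _).le
  have hlogR0 : 0 ≤ Real.log R / r := by
    apply div_nonneg _ (by linarith)
    linarith
  have hD1 : 1 ≤ D := by
    refine Nat.le_floor ?_
    rw [Nat.cast_one]
    exact Real.one_le_exp hlogR0
  have hDR : D ^ #S ≤ R := by
    have h1 : (D : ℝ) ^ #S ≤ (R : ℝ) := by
      calc (D : ℝ) ^ #S ≤ (Real.exp (Real.log R / r)) ^ #S :=
            pow_le_pow_left₀ (Nat.cast_nonneg _) hDle _
        _ = R := by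
          rw [← Real.exp_nat_mul, ← hrr, mul_div_cancel₀ _ (by linarith : r ≠ 0),
            Real.exp_log hRpos]
    exact_mod_cast h1
  have hlogD : l / (17 * r) ≤ Real.log ((D : ℝ) + 1) := by
    have h1 : Real.exp (Real.log R / r) ≤ (D : ℝ) + 1 := by
      have := Nat.lt_floor_add_one (Real.exp (Real.log R / r))
      rw [← hD] at this
      exact this.le
    have h2 : Real.log R / r ≤ Real.log ((D : ℝ) + 1) :=
      (Real.le_log_iff_exp_le (by positivity)).2 h1
    have h3 : l / (17 * r) = l / 17 / r := by rw [div_div]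
    rw [h3]
    exact le_trans (div_le_div_of_nonneg_right hlogR (by linarith)) h2
  have hmain := small_sieve_aux y v R D S hS hr hSv hD1 hDR
  -- lower bound for rho
  have hρ : c₀ / (6 * l2) ≤ rho (primProd v * diffProd S) := by
    have h1 := rho_primProd_mul_ge v (diffProd S) hv2 (diffProd_pos S).ne'
    have hy1 : 1 ≤ y := by
      have : (1 : ℝ) ≤ (y : ℝ) := le_trans (Real.one_le_exp (by norm_num)) hy0
      exact_mod_cast this
    have h2 := log_diffProd_le y hy1 S hS
    rw [← hrr, ← hl] at h2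
    have h3 : Real.log (diffProd S) / (v * Real.log v) ≤ 1 / 2 := by
      rw [div_le_iff₀ (by positivity)]
      have h4 : r ^ 2 * l ≤ l ^ 3 / 64 := by
        have h5 : (r * 8) ^ 2 ≤ l ^ 2 := pow_le_pow_left₀ (by linarith) hrl 2
        nlinarith
      have h6 : (v : ℝ) ≤ v * Real.log v := le_mul_of_one_le_right hvpos.le hlogv1
      nlinarith [pow_pos hlpos 3]
    have h4 := hrho v hv2
    have h5 : c₀ / (3 * l2) ≤ rho (primProd v) := by
      refine le_trans ?_ h4
      exact div_le_div_of_nonneg_left hc₀.le (by linarith) hlogv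
    have h6 : 0 ≤ rho (primProd v) := le_trans (by positivity) h5
    have h7 : rho (primProd v) * (1 / 2) ≤
        rho (primProd v) * (1 - Real.log (diffProd S) / (v * Real.log v)) :=
      mul_le_mul_of_nonneg_left (by linarith) h6
    have h8 : c₀ / (6 * l2) = c₀ / (3 * l2) * (1 / 2) := by
      field_simp
      norm_num
    rw [h8]
    have h9 : c₀ / (3 * l2) * (1 / 2) ≤ rho (primProd v) * (1 / 2) :=
      mul_le_mul_of_nonneg_right h5 (by norm_num)
    linarith
  have hLL : LL y = l / l2 := rfl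
  have hl2pos : 0 < l2 := by linarith
  have hrpos : 0 < r := by linarith
  set x : ℝ := C₁ * r / LL y with hx
  have hxeq : x = C₁ * r * l2 / l := by
    rw [hx, hLL]
    field_simp
  have hxpos : 0 < x := by
    rw [hxeq]
    have : 0 < C₁ := by linarith
    positivity
  have hx1 : x ≤ 1 := by
    rw [hxeq, div_le_one hlpos]
    exact hC
  -- main term
  have hprod : 4 / x ≤ rho (primProd v * diffProd S) * Real.log ((D : ℝ) + 1) := by
    have h1 : c₀ / (6 * l2) * (l / (17 * r)) ≤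
        rho (primProd v * diffProd S) * Real.log ((D : ℝ) + 1) :=
      mul_le_mul hρ hlogD (by positivity) (le_trans (by positivity) hρ)
    refine le_trans ?_ h1
    rw [hxeq]
    have h2 : 408 ≤ C₁ * c₀ := by
      rw [div_le_iff₀ hc₀] at hC408
      exact hC408
    have hCpos : 0 < C₁ := by linarith
    have h3 : 4 / (C₁ * r * l2 / l) = 4 * l / (C₁ * r * l2) := by
      field_simp
    have h4 : c₀ / (6 * l2) * (l / (17 * r)) = c₀ * l / (102 * (r * l2)) := by
      field_simp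
      norm_num
    rw [h3, h4, div_le_div_iff₀ (by positivity) (by positivity)]
    have h5 : 0 < l * (r * l2) := by positivity
    nlinarith
  have hterm : 2 * (y : ℝ) / (rho (primProd v * diffProd S) * Real.log ((D : ℝ) + 1)) ^ #S
      ≤ (y : ℝ) / 2 * x ^ #S := by
    have h4x : 0 < 4 / x := by positivity
    have h1 : (4 / x) ^ #S ≤
        (rho (primProd v * diffProd S) * Real.log ((D : ℝ) + 1)) ^ #S :=
      pow_le_pow_left₀ h4x.le hprod _
    have h2 : 2 * (y : ℝ) / (rho (primProd v * diffProd S) * Real.log ((D : ℝ) + 1)) ^ #S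
        ≤ 2 * (y : ℝ) / (4 / x) ^ #S :=
      div_le_div_of_nonneg_left (by positivity) (by positivity) h1
    refine le_trans h2 ?_
    have h3 : (4 : ℝ) ≤ 4 ^ #S := by
      calc (4 : ℝ) = 4 ^ 1 := by norm_num
        _ ≤ 4 ^ #S := pow_le_pow_right₀ (by norm_num) hr
    have h4 : 2 * (y : ℝ) / (4 / x) ^ #S = (y : ℝ) / 2 * x ^ #S * (4 / 4 ^ #S) := by
      rw [div_pow]
      field_simp
      norm_num
    rw [h4]
    have h5 : (4 : ℝ) / 4 ^ #S ≤ 1 := by
      rw [div_le_one (by positivity)]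
      exact h3
    exact mul_le_of_le_one_right (by positivity) h5
  -- error term
  have herr : (R : ℝ) ^ 4 + #S * ((R : ℝ) + 1) ≤ (y : ℝ) / 2 * x ^ #S := by
    have hA0 : 0 ≤ LL y / C₁ := by
      rw [hLL]
      positivity
    have h1 := exp_neg_le_pow x (LL y / C₁) #S hxpos hx1 hA0 (by
      rw [hx, ← hrr]
      have hCpos : C₁ ≠ 0 := by linarith
      have hLpos : LL y ≠ 0 := by
        rw [hLL]
        positivity
      apply le_of_eq
      field_simp)
    have h2 : LL y / C₁ ≤ l / 8 := by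
      rw [hLL]
      have h3 : l / l2 ≤ l := div_le_self hlpos.le hl21
      calc l / l2 / C₁ ≤ l / C₁ := div_le_div_of_nonneg_right h3 (by linarith)
        _ ≤ l / 8 := div_le_div_of_nonneg_left hlpos.le (by norm_num) hC8
    have h3 : Real.exp (-(l / 8)) ≤ x ^ #S :=
      le_trans (Real.exp_le_exp.2 (neg_le_neg h2)) h1
    have h4 := N1_num2 l hl1000
    rw [hyl] at h4
    have h5 : (R : ℝ) ^ 4 ≤ Real.exp (l / 4) := by
      calc (R : ℝ) ^ 4 ≤ (Real.exp (l / 16)) ^ 4 := pow_le_pow_left₀ hRpos.le hRle 4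
        _ = Real.exp (l / 4) := by
          rw [← Real.exp_nat_mul]
          congr 1
          push_cast
          ring
    have h6 : r * ((R : ℝ) + 1) ≤ l * (Real.exp (l / 16) + 1) :=
      mul_le_mul (by linarith) (by linarith) (by linarith) hlpos.le
    have h7 : (y : ℝ) / 2 * Real.exp (-(l / 8)) ≤ (y : ℝ) / 2 * x ^ #S :=
      mul_le_mul_of_nonneg_left h3 (by positivity)
    rw [← hrr]
    linarith
  calc _ ≤ _ := hmain
    _ ≤ (y : ℝ) * x ^ #S := by linarith

end Pool.Agent.Lib.MP_bae66e_nt.TL
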