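import Pool.Agent.Lib.MP_bae66e_nt.TL.B1a
import Pool.Agent.Lib.MP_bae66e_nt.TL.N1

/-!
# B1: no `n` hits a given set too often
-/

set_option autoImplicit false

open Finset Nat

namespace Pool.Agent.Lib.MP_bae66e_nt.TL

/-- B1. With `C₁, y₁` of `small_sieve`, `C₃ = 2 e C₁`, `C₄ = 2 e`, `r = ⌊τ L / C₃⌋`.
`r = 0`: the left side is at most `2y` and `τ L / C₃ < 1`. `r ≥ 1`: if `τ > 1` the left side is `0`;
otherwise `card_heavy_le` with `h = τ`, `X = y (C₁ r / L)^r`, the condition `2 r ≤ τ #V` holds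
as `2 L / C₃ ≤ #V` (`hV`, `y` large), and `X (2/τ)^r = y (2 C₁ r / (τ L))^r ≤ y e^{-r}`,
`r > τ L / C₃ - 1`. -/
theorem tail_bound : ∃ C₃ C₄ : ℝ, 1 ≤ C₃ ∧ 1 ≤ C₄ ∧ ∃ y₃ : ℕ, ∀ y : ℕ, y₃ ≤ y →
    ∀ w : ℕ, ∀ V : Finset ℕ, V ⊆ Finset.Ioc y (2 * y) → 2 * LL y ≤ #V → 0 < #V →
    ∀ τ : ℝ, 0 ≤ τ →
    ((#{n ∈ Finset.Ioc 0 (2 * y) | τ * (#V : ℝ) ≤ (#(V ∩ hitS y w n) : ℝ)} : ℕ) : ℝ)
      ≤ C₄ * y * Real.exp (-(τ * LL y / C₃)) := by
  obtain ⟨C₁, hC₁, y₁, hsieve⟩ := small_sieve
  have he1 := Real.exp_one_gt_d9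
  have hepos := Real.exp_pos 1
  refine ⟨2 * Real.exp 1 * C₁, 2 * Real.exp 1, by nlinarith, by linarith,
    max y₁ ⌈Real.exp 3⌉₊, ?_⟩
  intro y hy w V hV hVL hVpos τ hτ
  have hy₁ : y₁ ≤ y := le_trans (le_max_left _ _) hy
  have hy3 : Real.exp 3 ≤ (y : ℝ) := Nat.ceil_le.1 (le_trans (le_max_right _ _) hy)
  have hypos : 0 < (y : ℝ) := lt_of_lt_of_le (Real.exp_pos _) hy3
  have hl3 : 3 ≤ Real.log y := (Real.le_log_iff_exp_le hypos).2 hy3
  have hl2 : 1 ≤ Real.log (Real.log y) := by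
    rw [Real.le_log_iff_exp_le (by linarith)]
    have := Real.exp_one_lt_d9
    linarith
  have hLdef : LL y = Real.log y / Real.log (Real.log y) := rfl
  have hLpos : 0 < LL y := by
    rw [hLdef]
    exact div_pos (by linarith) (by linarith)
  have hLmul : LL y * Real.log (Real.log y) = Real.log y := by
    rw [hLdef]
    exact div_mul_cancel₀ _ (by linarith)
  have hC₁pos : 0 < C₁ := by linarith
  set C₃ : ℝ := 2 * Real.exp 1 * C₁ with hC₃
  have hC₃pos : 0 < C₃ := by positivity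
  have hC₃1 : 1 ≤ C₃ := by
    rw [hC₃]
    nlinarith
  set z : ℝ := τ * LL y / C₃ with hz
  have hz0 : 0 ≤ z := by positivity
  have hVr : (0 : ℝ) < #V := by exact_mod_cast hVpos
  set r : ℕ := ⌊z⌋₊ with hr
  have hrz : (r : ℝ) ≤ z := Nat.floor_le hz0
  have hzr : z < r + 1 := Nat.lt_floor_add_one z
  rcases Nat.eq_zero_or_pos r with hr0 | hr0
  · rw [hr0, Nat.cast_zero, zero_add] at hzr
    have h1 : ((#{n ∈ Finset.Ioc 0 (2 * y) | τ * (#V : ℝ) ≤ (#(V ∩ hitS y w n) : ℝ)} : ℕ) : ℝ)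
        ≤ 2 * y := by
      have h2 : #{n ∈ Finset.Ioc 0 (2 * y) | τ * (#V : ℝ) ≤ (#(V ∩ hitS y w n) : ℝ)} ≤ 2 * y := by
        refine le_trans (Finset.card_filter_le _ _) ?_
        rw [Nat.card_Ioc]
        omega
      exact_mod_cast h2
    have h3 : Real.exp (-1) ≤ Real.exp (-z) := Real.exp_le_exp.2 (by linarith)
    have h4 : Real.exp 1 * Real.exp (-1) = 1 := by
      rw [← Real.exp_add]
      norm_num
    calc _ ≤ 2 * (y : ℝ) := h1
      _ = 2 * Real.exp 1 * y * Real.exp (-1) := by linear_combination (-(2 * (y : ℝ))) * h4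
      _ ≤ 2 * Real.exp 1 * y * Real.exp (-z) := mul_le_mul_of_nonneg_left h3 (by positivity)
  · have hr1 : (1 : ℝ) ≤ r := by exact_mod_cast hr0
    have hτpos : 0 < τ := by
      rcases hτ.lt_or_eq with h | h
      · exact h
      · exfalso
        rw [hz, ← h, zero_mul, zero_div] at hrz
        linarith
    rcases le_or_gt τ 1 with hτ1 | hτ1
    · have hrL : C₃ * r ≤ τ * LL y := by
        rw [hz, le_div_iff₀ hC₃pos] at hrz
        linarith
      have hrL1 : C₃ * r ≤ LL y := le_trans hrL (mul_le_of_le_one_left hLpos.le hτ1)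
      set X : ℝ := y * (C₁ * r / LL y) ^ r with hX
      have hX0 : 0 ≤ X := by positivity
      have hcond : 2 * (r : ℝ) ≤ τ * #V := by
        have h1 : (r : ℝ) ≤ τ * LL y := by nlinarith
        nlinarith
      have hS : ∀ S ⊆ V, #S = r →
          ((#{n ∈ Finset.Ioc 0 (2 * y) | S ⊆ hitS y w n} : ℕ) : ℝ) ≤ X := by
        intro S hSV hSr
        have h1 := hsieve y hy₁ S (hSV.trans hV) (by omega) (by
          rw [hSr]
          have h2 : C₁ * r ≤ LL y := by
            refine le_trans ?_ hrL1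
            rw [hC₃]
            have h7 : 0 < C₁ * r := by positivity
            nlinarith
          exact (mul_le_mul_of_nonneg_right h2 (zero_le_one.trans hl2)).trans_eq hLmul)
        rw [hSr] at h1
        refine le_trans ?_ h1
        have h2 : #{n ∈ Finset.Ioc 0 (2 * y) | S ⊆ hitS y w n} ≤
            #{n ∈ Finset.Ioc 0 (2 * y) | ∀ u ∈ S, n < u ∧ (u - n).Prime} := by
          refine Finset.card_le_card fun n hn => ?_
          rw [Finset.mem_filter] at hn ⊢
          refine ⟨hn.1, fun u hu => ?_⟩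
          have h3 := mem_hitS.1 (hn.2 hu)
          exact ⟨h3.2.1, h3.2.2.1⟩
        exact_mod_cast h2
      have h1 := card_heavy_le (hitS y w) (Finset.Ioc 0 (2 * y)) V r X τ hX0 hτpos hVpos hcond hS
      refine le_trans h1 ?_
      have h2 : X * (2 / τ) ^ r = y * (2 * C₁ * r / (τ * LL y)) ^ r := by
        rw [hX, mul_assoc, ← mul_pow]
        congr 2
        field_simp
      have h3 : 2 * C₁ * r / (τ * LL y) ≤ Real.exp (-1) := by
        rw [div_le_iff₀ (by positivity)]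
        have h4 : Real.exp 1 * Real.exp (-1) = 1 := by
          rw [← Real.exp_add]
          norm_num
        have h5 : Real.exp (-1) * (C₃ * r) ≤ Real.exp (-1) * (τ * LL y) :=
          mul_le_mul_of_nonneg_left hrL (Real.exp_pos _).le
        have h6 : Real.exp (-1) * (C₃ * r) = 2 * C₁ * r := by
          rw [hC₃]
          linear_combination (2 * C₁ * (r : ℝ)) * h4
        linarith
      rw [h2]
      have h4 : (2 * C₁ * r / (τ * LL y)) ^ r ≤ Real.exp (-(r : ℝ)) := by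
        calc (2 * C₁ * r / (τ * LL y)) ^ r ≤ Real.exp (-1) ^ r :=
              pow_le_pow_left₀ (by positivity) h3 r
          _ = Real.exp (-(r : ℝ)) := by
              rw [← Real.exp_nat_mul]
              congr 1
              ring
      have h5 : Real.exp (-(r : ℝ)) ≤ Real.exp 1 * Real.exp (-z) := by
        rw [← Real.exp_add, Real.exp_le_exp]
        linarith
      have h6 : 0 ≤ Real.exp 1 * Real.exp (-z) := by positivity
      calc (y : ℝ) * (2 * C₁ * r / (τ * LL y)) ^ r ≤ y * (Real.exp 1 * Real.exp (-z)) :=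
            mul_le_mul_of_nonneg_left (h4.trans h5) hypos.le
        _ ≤ 2 * Real.exp 1 * y * Real.exp (-z) := by nlinarith
    · have h1 : #{n ∈ Finset.Ioc 0 (2 * y) | τ * (#V : ℝ) ≤ (#(V ∩ hitS y w n) : ℝ)} = 0 := by
        rw [Finset.card_eq_zero, Finset.filter_eq_empty_iff]
        intro n _ hn
        have h2 : (#(V ∩ hitS y w n) : ℝ) ≤ #V := by
          exact_mod_cast Finset.card_le_card Finset.inter_subset_left
        nlinarith
      rw [h1, Nat.cast_zero]
      positivity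

end Pool.Agent.Lib.MP_bae66e_nt.TL
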