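import Pool.Agent.Lib.MP_bae66e_nt.TL.Defs

/-!
# B1a: double counting
-/

set_option autoImplicit false

open Finset Nat

namespace Pool.Agent.Lib.MP_bae66e_nt.TL

/-- B1a. If `1 ≤ r`, `2 r ≤ h`: `C(h, r) ≥ (h/2)^r / r!` (`Nat.pow_sub_le_descFactorial` or
`Nat.pow_le_choose`-type lemmas; `h.descFactorial r = r! * h.choose r` and
`h.descFactorial r ≥ (h + 1 - r)^r ≥ (h/2)^r`). -/
lemma half_pow_le_choose (h r : ℕ) (hr : 2 * r ≤ h) :
    ((h : ℝ) / 2) ^ r ≤ (r.factorial : ℝ) * (h.choose r : ℝ) := by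
  have h1 := Nat.pow_sub_le_descFactorial h r
  rw [Nat.descFactorial_eq_factorial_mul_choose] at h1
  have h2 : ((h : ℝ) / 2) ≤ ((h + 1 - r : ℕ) : ℝ) := by
    have h3 : h ≤ 2 * (h + 1 - r) := by omega
    have h4 : (h : ℝ) ≤ 2 * ((h + 1 - r : ℕ) : ℝ) := by exact_mod_cast h3
    linarith
  calc ((h : ℝ) / 2) ^ r ≤ ((h + 1 - r : ℕ) : ℝ) ^ r :=
        pow_le_pow_left₀ (by positivity) h2 r
    _ ≤ (r.factorial : ℝ) * (h.choose r : ℝ) := by exact_mod_cast h1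

/-- B1b. Double counting of the pairs `(n, S)`, `S ⊆ V ∩ H n`, `#S = r`: if every `r`-subset `S` of
`V` is contained in at most `X` of the sets `H n`, `n ∈ N`, and `h * #V ≤ #(V ∩ H n)` for the
`n` in question (real `h > 0`, `2 r ≤ h * #V`), then
`#{…} * (h #V / 2)^r / r! ≤ #{…} * C(#(V ∩ H n), r) ≤ C(#V, r) * X ≤ (#V)^r / r! * X`. -/
lemma card_heavy_le (H : ℕ → Finset ℕ) (N V : Finset ℕ) (r : ℕ) (X h : ℝ) (hX : 0 ≤ X)
    (hh : 0 < h) (hV : 0 < #V) (hr : 2 * (r : ℝ) ≤ h * #V)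
    (hS : ∀ S ⊆ V, #S = r → ((#{n ∈ N | S ⊆ H n} : ℕ) : ℝ) ≤ X) :
    ((#{n ∈ N | h * (#V : ℝ) ≤ (#(V ∩ H n) : ℝ)} : ℕ) : ℝ) ≤ X * (2 / h) ^ r := by
  classical
  set T : Finset ℕ := {n ∈ N | h * (#V : ℝ) ≤ (#(V ∩ H n) : ℝ)} with hT
  have hVR : (0 : ℝ) < #V := by exact_mod_cast hV
  have hfac : (0 : ℝ) < r.factorial := by exact_mod_cast r.factorial_pos
  have hcount : ∀ n ∈ T, (h * #V / 2) ^ r ≤ (r.factorial : ℝ) * ((#(V ∩ H n)).choose r : ℝ) := by
    intro n hn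
    have h1 : h * (#V : ℝ) ≤ (#(V ∩ H n) : ℝ) := (Finset.mem_filter.1 hn).2
    have h2 : 2 * r ≤ #(V ∩ H n) := by
      have h3 : 2 * (r : ℝ) ≤ (#(V ∩ H n) : ℝ) := hr.trans h1
      exact_mod_cast h3
    refine le_trans ?_ (half_pow_le_choose _ r h2)
    exact pow_le_pow_left₀ (by positivity) (by linarith) r
  have hpow : ∀ n, (#(V ∩ H n)).choose r =
      ∑ S ∈ Finset.powersetCard r V, if S ⊆ H n then 1 else 0 := by
    intro n
    rw [← Finset.card_powersetCard, ← Finset.card_filter]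
    congr 1
    ext S
    simp only [Finset.mem_powersetCard, Finset.mem_filter, Finset.subset_inter_iff]
    tauto
  have hswap : ∑ n ∈ T, (#(V ∩ H n)).choose r =
      ∑ S ∈ Finset.powersetCard r V, #{n ∈ T | S ⊆ H n} := by
    rw [Finset.sum_congr rfl (fun n _ => hpow n), Finset.sum_comm]
    refine Finset.sum_congr rfl fun S _ => ?_
    rw [Finset.card_filter]
  have hS' : ∀ S ∈ Finset.powersetCard r V, ((#{n ∈ T | S ⊆ H n} : ℕ) : ℝ) ≤ X := by
    intro S hSm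
    obtain ⟨h1, h2⟩ := Finset.mem_powersetCard.1 hSm
    refine le_trans ?_ (hS S h1 h2)
    have h3 : #{n ∈ T | S ⊆ H n} ≤ #{n ∈ N | S ⊆ H n} := by
      refine Finset.card_le_card fun n hn => ?_
      rw [Finset.mem_filter] at hn ⊢
      exact ⟨(Finset.mem_filter.1 hn.1).1, hn.2⟩
    exact_mod_cast h3
  have hchoose : (r.factorial : ℝ) * ((#V).choose r : ℝ) ≤ (#V : ℝ) ^ r := by
    have h1 := Nat.descFactorial_le_pow (#V) r
    rw [Nat.descFactorial_eq_factorial_mul_choose] at h1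
    exact_mod_cast h1
  have hmain : (#T : ℝ) * (h * #V / 2) ^ r ≤ (#V : ℝ) ^ r * X := by
    calc (#T : ℝ) * (h * #V / 2) ^ r = ∑ n ∈ T, (h * #V / 2) ^ r := by
          rw [Finset.sum_const, nsmul_eq_mul]
      _ ≤ ∑ n ∈ T, (r.factorial : ℝ) * ((#(V ∩ H n)).choose r : ℝ) := Finset.sum_le_sum hcount
      _ = (r.factorial : ℝ) * ((∑ n ∈ T, (#(V ∩ H n)).choose r : ℕ) : ℝ) := by
          rw [← Finset.mul_sum]
          push_cast
          rfl
      _ = (r.factorial : ℝ) * ∑ S ∈ Finset.powersetCard r V, ((#{n ∈ T | S ⊆ H n} : ℕ) : ℝ) := by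
          rw [hswap]
          push_cast
          rfl
      _ ≤ (r.factorial : ℝ) * ∑ S ∈ Finset.powersetCard r V, X :=
          mul_le_mul_of_nonneg_left (Finset.sum_le_sum hS') hfac.le
      _ = (r.factorial : ℝ) * ((#V).choose r : ℝ) * X := by
          rw [Finset.sum_const, nsmul_eq_mul, Finset.card_powersetCard]
          ring
      _ ≤ (#V : ℝ) ^ r * X := mul_le_mul_of_nonneg_right hchoose hX
  have hpos : 0 < (h * #V / 2) ^ r := by positivity
  have hfin : (#T : ℝ) ≤ (#V : ℝ) ^ r * X / (h * #V / 2) ^ r := by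
    rw [le_div_iff₀ hpos]
    exact hmain
  refine hfin.trans (le_of_eq ?_)
  have h5 : (2 / h) ^ r * (h * #V / 2) ^ r = (#V : ℝ) ^ r := by
    rw [← mul_pow]
    congr 1
    field_simp
  rw [← h5]
  field_simp

end Pool.Agent.Lib.MP_bae66e_nt.TL
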