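import Pool.Agent.Lib.MP_bae66e_nt.TL.Defs

/-!
# B2: moment bound
-/

set_option autoImplicit false

open Finset Nat

namespace Pool.Agent.Lib.MP_bae66e_nt.TL

/-- B2a. For `0 ≤ θ ≤ 1/2`, `σ ≥ 0`: `(1 - θ)^(-σ) ≤ exp (2 σ θ)`, because
`-log (1 - θ) ≤ θ / (1 - θ) ≤ 2 θ`. -/
lemma rpow_neg_le_exp (θ σ : ℝ) (h0 : 0 ≤ θ) (h1 : θ ≤ 1 / 2) (hσ : 0 ≤ σ) :
    (1 - θ) ^ (-σ) ≤ Real.exp (2 * σ * θ) := by
  have hpos : 0 < 1 - θ := by linarith
  rw [Real.rpow_def_of_pos hpos, Real.exp_le_exp]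
  have h2 := Real.one_sub_inv_le_log_of_pos hpos
  have h3 : (1 - θ)⁻¹ ≤ 1 + 2 * θ := by
    rw [inv_le_iff_one_le_mul₀ hpos]
    nlinarith
  have h4 : -Real.log (1 - θ) ≤ 2 * θ := by linarith
  nlinarith

/-- B2b. Layer cake: if `#{n ∈ N | τ ≤ f n} ≤ A e^{-τ s}` for all `τ ≥ 0` (`f ≥ 0`, `s > 0`) then
`∑ exp (s f n / 2) ≤ 5 A`. With `j = ⌊s f n⌋`: `exp (s f n / 2) ≤ exp ((j + 1)/2)` and
`exp ((j+1)/2) = exp(1/2) * (1 + ∑_{i < j} (exp((i+1)/2) - exp(i/2)))`, or: split by the value of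
`j ∈ {0, 1, …, J}`, `#{n : j ≤ s f n} ≤ A e^{-j}`, `∑_j e^{(j+1)/2} e^{-j} ≤ e^{1/2} / (1 - e^{-1/2}) < 5`. -/
lemma sum_exp_le (N : Finset ℕ) (f : ℕ → ℝ) (A s : ℝ) (hf : ∀ n ∈ N, 0 ≤ f n) (hs : 0 < s)
    (h : ∀ τ : ℝ, 0 ≤ τ → ((#{n ∈ N | τ ≤ f n} : ℕ) : ℝ) ≤ A * Real.exp (-(τ * s))) :
    ∑ n ∈ N, Real.exp (s * f n / 2) ≤ 5 * A := by
  have hA : 0 ≤ A := by
    have h0 := h 0 le_rfl
    rw [zero_mul, neg_zero, Real.exp_zero, mul_one] at h0
    exact le_trans (Nat.cast_nonneg _) h0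
  set J : ℕ := N.sup (fun n => ⌊s * f n⌋₊) with hJ
  have h1 : ∀ n ∈ N, Real.exp (s * f n / 2) ≤
      ∑ i ∈ Finset.range (J + 1), if (i : ℝ) ≤ s * f n then Real.exp (((i : ℝ) + 1) / 2) else 0 := by
    intro n hn
    have hsf : 0 ≤ s * f n := mul_nonneg hs.le (hf n hn)
    have hj : ⌊s * f n⌋₊ ≤ J := Finset.le_sup (f := fun n => ⌊s * f n⌋₊) hn
    have h2 : (if ((⌊s * f n⌋₊ : ℕ) : ℝ) ≤ s * f n then
        Real.exp ((((⌊s * f n⌋₊ : ℕ) : ℝ) + 1) / 2) else 0) ≤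
        ∑ i ∈ Finset.range (J + 1),
          if (i : ℝ) ≤ s * f n then Real.exp (((i : ℝ) + 1) / 2) else 0 := by
      refine Finset.single_le_sum (f := fun i : ℕ =>
        if (i : ℝ) ≤ s * f n then Real.exp (((i : ℝ) + 1) / 2) else 0) ?_
        (Finset.mem_range.2 (Nat.lt_succ_of_le hj))
      intro i _
      split_ifs
      · exact (Real.exp_pos _).le
      · exact le_rfl
    rw [if_pos (Nat.floor_le hsf)] at h2
    refine le_trans ?_ h2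
    rw [Real.exp_le_exp]
    have := Nat.lt_floor_add_one (s * f n)
    linarith
  refine le_trans (Finset.sum_le_sum h1) ?_
  rw [Finset.sum_comm]
  have h2 : ∀ i ∈ Finset.range (J + 1),
      (∑ n ∈ N, if (i : ℝ) ≤ s * f n then Real.exp (((i : ℝ) + 1) / 2) else 0) ≤
        A * (Real.exp (1 / 2) * Real.exp (-(1 / 2)) ^ i) := by
    intro i _
    rw [← Finset.sum_filter, Finset.sum_const, nsmul_eq_mul]
    have h3 := h ((i : ℝ) / s) (by positivity)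
    have h4 : (N.filter (fun n => (i : ℝ) / s ≤ f n)) =
        (N.filter (fun n => (i : ℝ) ≤ s * f n)) := by
      refine Finset.filter_congr fun n _ => ?_
      rw [div_le_iff₀ hs, mul_comm]
    rw [h4, div_mul_cancel₀ _ hs.ne'] at h3
    calc ((N.filter (fun n => (i : ℝ) ≤ s * f n)).card : ℝ) * Real.exp (((i : ℝ) + 1) / 2)
        ≤ A * Real.exp (-(i : ℝ)) * Real.exp (((i : ℝ) + 1) / 2) :=
          mul_le_mul_of_nonneg_right h3 (Real.exp_pos _).le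
      _ = A * (Real.exp (1 / 2) * Real.exp (-(1 / 2)) ^ i) := by
          rw [← Real.exp_nat_mul, mul_assoc, ← Real.exp_add, ← Real.exp_add]
          congr 2
          ring
  refine le_trans (Finset.sum_le_sum h2) ?_
  rw [← Finset.mul_sum, ← Finset.mul_sum, mul_comm 5 A]
  refine mul_le_mul_of_nonneg_left ?_ hA
  set t : ℝ := Real.exp (1 / 2) with ht
  have htt : t * t = Real.exp 1 := by
    rw [ht, ← Real.exp_add]
    norm_num
  have ht0 : 0 < t := Real.exp_pos _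
  have he1 := Real.exp_one_gt_d9
  have he2 := Real.exp_one_lt_d9
  have ht1 : 1.6 ≤ t := by
    by_contra hc
    push Not at hc
    nlinarith
  have hti : Real.exp (-(1 / 2)) = t⁻¹ := by rw [ht, ← Real.exp_neg]
  rw [hti]
  have hg := geom_sum_mul_neg (t⁻¹) (J + 1)
  have hx1 : 0 < 1 - t⁻¹ := by
    rw [sub_pos]
    exact inv_lt_one_of_one_lt₀ (by linarith)
  have h5 : ∑ i ∈ Finset.range (J + 1), t⁻¹ ^ i ≤ 1 / (1 - t⁻¹) := by
    rw [le_div_iff₀ hx1, hg]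
    have : 0 ≤ t⁻¹ ^ (J + 1) := by positivity
    linarith
  have h6 : 1 / (1 - t⁻¹) = t / (t - 1) := by
    have : t - 1 ≠ 0 := by
      have : 0 < t - 1 := by linarith
      exact this.ne'
    field_simp
  rw [h6] at h5
  calc t * ∑ i ∈ Finset.range (J + 1), t⁻¹ ^ i ≤ t * (t / (t - 1)) :=
        mul_le_mul_of_nonneg_left h5 ht0.le
    _ ≤ 5 := by
      rw [← mul_div_assoc, htt, div_le_iff₀ (by linarith)]
      linarith

/-- B2. `tail_bound`, `rpow_neg_le_exp`, `sum_exp_le` with `f n = #(V ∩ H n) / #V`, `s = L / C₃`,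
`σ = L / (4 C₃)`, `C₅ = 5 C₄` (constants `C₃, C₄` as given). -/
theorem moment_bound (C₃ C₄ : ℝ) (hC₃ : 1 ≤ C₃) (y w : ℕ) (hL : 0 < LL y) (V : Finset ℕ)
    (hV : 0 < #V)
    (ht : ∀ τ : ℝ, 0 ≤ τ →
      ((#{n ∈ Finset.Ioc 0 (2 * y) | τ * (#V : ℝ) ≤ (#(V ∩ hitS y w n) : ℝ)} : ℕ) : ℝ)
        ≤ C₄ * y * Real.exp (-(τ * LL y / C₃))) :
    ∑ n ∈ Finset.Ioc 0 (2 * y) with 2 * #(V ∩ hitS y w n) ≤ #V,
        (1 - (#(V ∩ hitS y w n) : ℝ) / #V) ^ (-(LL y / (4 * C₃))) ≤ 5 * C₄ * y := by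
  have hVpos : (0 : ℝ) < #V := by exact_mod_cast hV
  have hCpos : 0 < C₃ := by linarith
  have h1 := sum_exp_le (Finset.Ioc 0 (2 * y)) (fun n => (#(V ∩ hitS y w n) : ℝ) / #V)
    (C₄ * y) (LL y / C₃) (fun n _ => by positivity) (by positivity) (by
      intro τ hτ
      have h2 := ht τ hτ
      have h3 : (Finset.Ioc 0 (2 * y)).filter
          (fun n => τ ≤ (#(V ∩ hitS y w n) : ℝ) / #V) =
          (Finset.Ioc 0 (2 * y)).filter
          (fun n => τ * (#V : ℝ) ≤ (#(V ∩ hitS y w n) : ℝ)) := by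
        refine Finset.filter_congr fun n _ => ?_
        rw [le_div_iff₀ hVpos]
      rw [h3, ← mul_div_assoc]
      exact h2)
  rw [mul_assoc]
  refine le_trans ?_ h1
  refine le_trans (Finset.sum_le_sum (g := fun n =>
    Real.exp (LL y / C₃ * ((#(V ∩ hitS y w n) : ℝ) / #V) / 2)) ?_) ?_
  · intro n hn
    rw [Finset.mem_filter] at hn
    have hn2 : 2 * (#(V ∩ hitS y w n) : ℝ) ≤ #V := by exact_mod_cast hn.2
    have h4 := rpow_neg_le_exp ((#(V ∩ hitS y w n) : ℝ) / #V) (LL y / (4 * C₃)) (by positivity)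
      (by
        rw [div_le_iff₀ hVpos]
        linarith) (by positivity)
    refine le_trans h4 (le_of_eq ?_)
    congr 1
    field_simp
    ring
  · exact Finset.sum_le_sum_of_subset_of_nonneg (Finset.filter_subset _ _)
      (fun n _ _ => (Real.exp_pos _).le)

end Pool.Agent.Lib.MP_bae66e_nt.TL
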