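import Pool.Agent.Lib.MP_bae66e_nt.TL.Defs

/-!
# B3: lists without giant steps
-/

set_option autoImplicit false

open Finset Nat

namespace Pool.Agent.Lib.MP_bae66e_nt.TL

open Classical in
/-- B3. Induction on `k`, for all nonempty `V ⊆ U`. If `#V < B` then `(B / #V)^σ ≥ 1` and the left
side is at most `#(Lst N k) = (#N)^k ≤ M^k`. Let `B ≤ #V`. `k = 0`: the left side is `0`
(`NB H B V [] ↔ #V < B`). `k + 1`: `NB H B V (n :: l)` means `2 #(V ∩ H n) ≤ #V` and
`NB H B (V \ H n) l`; the set `V \ H n` is nonempty with `#V (1 - θ)` elements,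
`θ = #(V ∩ H n) / #V ≤ 1/2`, so the left side is at most
`∑_n M^k (B / (#V (1 - θ)))^σ = M^k (B / #V)^σ ∑_n (1 - θ)^(-σ) ≤ M^(k+1) (B / #V)^σ`. -/
theorem normal_bound (H : ℕ → Finset ℕ) (N U : Finset ℕ) (B : ℕ) (hB : 1 ≤ B) (M σ : ℝ)
    (hσ : 0 ≤ σ) (hNM : (#N : ℝ) ≤ M)
    (hM : ∀ V ⊆ U, B ≤ #V →
      ∑ n ∈ N with 2 * #(V ∩ H n) ≤ #V, (1 - (#(V ∩ H n) : ℝ) / #V) ^ (-σ) ≤ M)
    (k : ℕ) (V : Finset ℕ) (hVU : V ⊆ U) (hV : V.Nonempty) :
    ((#{l ∈ Lst N k | NB H B V l} : ℕ) : ℝ) ≤ M ^ k * ((B : ℝ) / #V) ^ σ := by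
  have hM0 : 0 ≤ M := (Nat.cast_nonneg _).trans hNM
  have hBpos : (0 : ℝ) < B := by exact_mod_cast hB
  induction k generalizing V with
  | zero =>
    have hVpos : (0 : ℝ) < #V := by exact_mod_cast hV.card_pos
    by_cases h : #V < B
    · have h1 : (1 : ℝ) ≤ (B : ℝ) / #V := by
        rw [one_le_div hVpos]
        exact_mod_cast h.le
      have h2 : (1 : ℝ) ≤ ((B : ℝ) / #V) ^ σ := Real.one_le_rpow h1 hσ
      have h3 : #{l ∈ Lst N 0 | NB H B V l} ≤ 1 := by
        have := Finset.card_filter_le (Lst N 0) (fun l => NB H B V l)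
        rw [card_Lst, pow_zero] at this
        exact this
      have h4 : ((#{l ∈ Lst N 0 | NB H B V l} : ℕ) : ℝ) ≤ 1 := by exact_mod_cast h3
      rw [pow_zero, one_mul]
      exact h4.trans h2
    · have h1 : {l ∈ Lst N 0 | NB H B V l} = ∅ := by
        rw [Finset.filter_eq_empty_iff]
        intro l hl
        have h2 : l = [] := by simpa [Lst] using hl
        rw [h2]
        simpa [NB] using h
      rw [h1, Finset.card_empty, Nat.cast_zero]
      positivity
  | succ k ih =>
    have hVpos : (0 : ℝ) < #V := by exact_mod_cast hV.card_pos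
    by_cases h : #V < B
    · have h1 : (1 : ℝ) ≤ (B : ℝ) / #V := by
        rw [one_le_div hVpos]
        exact_mod_cast h.le
      have h2 : (1 : ℝ) ≤ ((B : ℝ) / #V) ^ σ := Real.one_le_rpow h1 hσ
      have h3 : #{l ∈ Lst N (k + 1) | NB H B V l} ≤ #N ^ (k + 1) := by
        have := Finset.card_filter_le (Lst N (k + 1)) (fun l => NB H B V l)
        rwa [card_Lst] at this
      have h4 : ((#{l ∈ Lst N (k + 1) | NB H B V l} : ℕ) : ℝ) ≤ M ^ (k + 1) := by
        calc ((#{l ∈ Lst N (k + 1) | NB H B V l} : ℕ) : ℝ) ≤ ((#N ^ (k + 1) : ℕ) : ℝ) := by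
              exact_mod_cast h3
          _ = (#N : ℝ) ^ (k + 1) := by push_cast; rfl
          _ ≤ M ^ (k + 1) := pow_le_pow_left₀ (Nat.cast_nonneg _) hNM _
      calc ((#{l ∈ Lst N (k + 1) | NB H B V l} : ℕ) : ℝ) ≤ M ^ (k + 1) * 1 := by linarith
        _ ≤ M ^ (k + 1) * ((B : ℝ) / #V) ^ σ :=
          mul_le_mul_of_nonneg_left h2 (pow_nonneg hM0 _)
    · have hBV : B ≤ #V := not_lt.mp h
      have h1 : ((#{l ∈ Lst N (k + 1) | NB H B V l} : ℕ) : ℝ)
          = ∑ n ∈ N with 2 * #(V ∩ H n) ≤ #V,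
            ((#{l ∈ Lst N k | NB H B (V \ H n) l} : ℕ) : ℝ) := by
        rw [Finset.card_filter]
        push_cast
        rw [sum_Lst_succ N k (fun l => if NB H B V l then (1 : ℝ) else 0), Finset.sum_filter]
        apply Finset.sum_congr rfl
        intro n _
        split_ifs with h2
        · rw [Finset.card_filter]
          push_cast
          apply Finset.sum_congr rfl
          intro l _
          have : NB H B V (n :: l) ↔ NB H B (V \ H n) l := by
            simp only [NB]
            constructor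
            · rintro (h3 | h3)
              · exact absurd h3 h
              · exact h3.2
            · intro h3
              exact Or.inr ⟨h2, h3⟩
          simp only [this]
        · apply Finset.sum_eq_zero
          intro l _
          rw [if_neg]
          simp only [NB]
          rintro (h3 | h3)
          · exact h h3
          · exact h2 h3.1
      rw [h1]
      have h2 : ∀ n ∈ ({n ∈ N | 2 * #(V ∩ H n) ≤ #V} : Finset ℕ),
          ((#{l ∈ Lst N k | NB H B (V \ H n) l} : ℕ) : ℝ)
            ≤ M ^ k * ((B : ℝ) / #V) ^ σ * (1 - (#(V ∩ H n) : ℝ) / #V) ^ (-σ) := by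
        intro n hn
        rw [Finset.mem_filter] at hn
        have h3 : #(V \ H n) + #(V ∩ H n) = #V := Finset.card_sdiff_add_card_inter V (H n)
        have h4 : (#(V \ H n) : ℝ) = #V * (1 - (#(V ∩ H n) : ℝ) / #V) := by
          have h5 : (#(V \ H n) : ℝ) + #(V ∩ H n) = #V := by exact_mod_cast h3
          rw [mul_sub, mul_one, mul_div_cancel₀ _ hVpos.ne']
          linarith
        have hne : (V \ H n).Nonempty := by
          rw [← Finset.card_pos]
          have := hV.card_pos
          omega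
        have h6 : (0 : ℝ) < #(V \ H n) := by exact_mod_cast hne.card_pos
        have h7 : 0 < 1 - (#(V ∩ H n) : ℝ) / #V := by
          rw [h4] at h6
          exact (mul_pos_iff_of_pos_left hVpos).mp h6
        have h8 := ih (V \ H n) ((Finset.sdiff_subset).trans hVU) hne
        refine h8.trans (le_of_eq ?_)
        rw [h4, ← div_div, Real.div_rpow (by positivity) h7.le, Real.rpow_neg h7.le, div_eq_mul_inv]
        ring
      calc ∑ n ∈ N with 2 * #(V ∩ H n) ≤ #V, ((#{l ∈ Lst N k | NB H B (V \ H n) l} : ℕ) : ℝ)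
          ≤ ∑ n ∈ N with 2 * #(V ∩ H n) ≤ #V,
            M ^ k * ((B : ℝ) / #V) ^ σ * (1 - (#(V ∩ H n) : ℝ) / #V) ^ (-σ) :=
            Finset.sum_le_sum h2
        _ = M ^ k * ((B : ℝ) / #V) ^ σ * ∑ n ∈ N with 2 * #(V ∩ H n) ≤ #V,
            (1 - (#(V ∩ H n) : ℝ) / #V) ^ (-σ) := by rw [Finset.mul_sum]
        _ ≤ M ^ k * ((B : ℝ) / #V) ^ σ * M :=
            mul_le_mul_of_nonneg_left (hM V hVU hBV) (by positivity)
        _ = M ^ (k + 1) * ((B : ℝ) / #V) ^ σ := by ring

/-- B3'. Induction on `l` for all `V`. -/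
lemma nb_or_giant (H : ℕ → Finset ℕ) (B : ℕ) (V : Finset ℕ) (l : List ℕ)
    (h : #(rest H V l) < B) : NB H B V l ∨ ∃ i, GE H B V l i := by
  induction l generalizing V with
  | nil =>
    left
    rw [rest_nil] at h
    exact h
  | cons n l ih =>
    by_cases h1 : #V < B
    · left
      exact Or.inl h1
    · by_cases h2 : 2 * #(V ∩ H n) ≤ #V
      · rw [rest_cons] at h
        rcases ih (V \ H n) h with h3 | ⟨i, hi, h4, h5⟩
        · left
          exact Or.inr ⟨h2, h3⟩
        · right
          refine ⟨i + 1, by simpa using hi, ?_, ?_⟩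
          · rw [List.take_succ_cons, rest_cons]
            exact h4
          · rw [List.take_succ_cons, rest_cons]
            exact h5
      · right
        refine ⟨0, by simp, ?_, ?_⟩
        · rw [List.take_zero, rest_nil]
          exact not_lt.mp h1
        · rw [List.take_zero, rest_nil]
          exact not_le.mp h2

end Pool.Agent.Lib.MP_bae66e_nt.TL
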