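import Pool.Agent.Lib.MP_bae66e_nt.TL.Defs

/-!
# B4a: lists with a giant step at `i`
-/

set_option autoImplicit false

open Finset Nat

namespace Pool.Agent.Lib.MP_bae66e_nt.TL

/-- the number of lists of length `k` that reduce `U` below size `B` -/
def badN (H : ℕ → Finset ℕ) (N : Finset ℕ) (B : ℕ) (U : Finset ℕ) (k : ℕ) : ℕ :=
  #{l ∈ Lst N k | #(rest H U l) < B}

/-- B4a. If the entry `l[i]` hits nothing in `U'` then removing it does not change the rest. -/
lemma rest_eraseIdx (H : ℕ → Finset ℕ) (U' : Finset ℕ) (l : List ℕ) (i : ℕ) (h : i < l.length)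
    (hd : Disjoint U' (H l[i])) : rest H U' (l.eraseIdx i) = rest H U' l := by
  have hl : l = l.take i ++ (l[i] :: l.drop (i + 1)) := by
    rw [← List.drop_eq_getElem_cons h, List.take_append_drop]
  ext u
  rw [mem_rest, mem_rest, List.eraseIdx_eq_take_drop_succ]
  constructor
  · rintro ⟨h1, h2⟩
    refine ⟨h1, fun n hn => ?_⟩
    rw [hl, List.mem_append, List.mem_cons] at hn
    rcases hn with hn | hn | hn
    · exact h2 n (List.mem_append.mpr (Or.inl hn))
    · rw [hn]
      exact Finset.disjoint_left.mp hd h1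
    · exact h2 n (List.mem_append.mpr (Or.inr hn))
  · rintro ⟨h1, h2⟩
    refine ⟨h1, fun n hn => h2 n ?_⟩
    rw [hl, List.mem_append, List.mem_cons]
    rcases List.mem_append.mp hn with hn | hn
    · exact Or.inl hn
    · exact Or.inr (Or.inr hn)

open Classical in
/-- B4b. The lists `l` of length `k + 1` with a giant step at `i`, `col l[i] = c` and
`#(rest H (Us c) l) < B`. The map `l ↦ (l.eraseIdx i, l[i])` is injective for fixed `i`
(`l = (l.eraseIdx i).insertIdx i l[i]`), `(l.eraseIdx i).take i = l.take i`, the list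
`l.eraseIdx i` is counted by `badN H N B (Us c) k` (`rest_eraseIdx`), and for a given
`l' = l.eraseIdx i` the number of possible `l[i]` is at most `G` (`hG` with `V = rest H U (l'.take i)`). -/
lemma card_giant_le (H : ℕ → Finset ℕ) (N : Finset ℕ) (B : ℕ) (U : Finset ℕ)
    (G : ℝ) (hG0 : 0 ≤ G)
    (hG : ∀ V ⊆ U, B ≤ #V → ((#{n ∈ N | #V < 2 * #(V ∩ H n)} : ℕ) : ℝ) ≤ G)
    (col : ℕ → ℕ) (U' : Finset ℕ) (c : ℕ) (hU' : ∀ n ∈ N, col n = c → Disjoint U' (H n))
    (k i : ℕ) (hi : i < k + 1) :
    ((#{l ∈ Lst N (k + 1) | GE H B U l i ∧ (∃ h : i < l.length, col l[i] = c) ∧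
        #(rest H U' l) < B} : ℕ) : ℝ) ≤ G * badN H N B U' k := by
  set S : Finset (List ℕ) := {l ∈ Lst N (k + 1) | GE H B U l i ∧ (∃ h : i < l.length, col l[i] = c) ∧
        #(rest H U' l) < B} with hS
  set T : Finset (List ℕ) := {l ∈ Lst N k | #(rest H U' l) < B} with hT
  have hmaps : ∀ l ∈ S, l.eraseIdx i ∈ T := by
    intro l hl
    rw [hS, Finset.mem_filter, mem_Lst] at hl
    obtain ⟨⟨hlen, hmem⟩, _, ⟨hil, hcol⟩, hrest⟩ := hl
    rw [hT, Finset.mem_filter, mem_Lst]
    refine ⟨⟨?_, fun n hn => hmem n (List.eraseIdx_subset hn)⟩, ?_⟩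
    · rw [List.length_eraseIdx_of_lt hil, hlen, Nat.add_sub_cancel]
    · rw [rest_eraseIdx H U' l i hil (hU' _ (hmem _ (List.getElem_mem hil)) hcol)]
      exact hrest
  have h1 : (#S : ℝ) = ∑ l' ∈ T, (#{l ∈ S | l.eraseIdx i = l'} : ℝ) := by
    exact_mod_cast Finset.card_eq_sum_card_fiberwise hmaps
  have h2 : ∀ l' ∈ T, (#{l ∈ S | l.eraseIdx i = l'} : ℝ) ≤ G := by
    intro l' _
    rcases Finset.eq_empty_or_nonempty {l ∈ S | l.eraseIdx i = l'} with he | ⟨l0, hl0⟩
    · rw [he, Finset.card_empty, Nat.cast_zero]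
      exact hG0
    · have htake : ∀ l ∈ S, l.eraseIdx i = l' → l.take i = l'.take i := by
        intro l _ hl
        rw [← hl, List.take_eraseIdx_eq_take_of_le _ _ _ le_rfl]
      rw [Finset.mem_filter] at hl0
      have hV := hG (rest H U (l'.take i)) (rest_subset _ _ _) (by
        have h3 := hl0.1
        rw [hS, Finset.mem_filter] at h3
        obtain ⟨h4, h5, _⟩ := h3.2.1
        rw [htake l0 hl0.1 hl0.2] at h5
        exact h5)
      refine le_trans ?_ hV
      have hle : #{l ∈ S | l.eraseIdx i = l'} ≤ #{n ∈ N | #(rest H U (l'.take i)) <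
          2 * #(rest H U (l'.take i) ∩ H n)} := by
        apply Finset.card_le_card_of_injOn (fun l => l.getD i 0)
        · intro l hl
          rw [Finset.mem_coe, Finset.mem_filter] at hl
          have h3 := hl.1
          rw [hS, Finset.mem_filter, mem_Lst] at h3
          obtain ⟨⟨_, hmem⟩, ⟨hil, _, h6⟩, _, _⟩ := h3
          rw [Finset.mem_coe, Finset.mem_filter]
          simp only
          rw [List.getD_eq_getElem _ _ hil]
          rw [htake l hl.1 hl.2] at h6
          exact ⟨hmem _ (List.getElem_mem hil), h6⟩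
        · intro l hl l2 hl2 heq
          rw [Finset.mem_coe, Finset.mem_filter] at hl hl2
          have h3 := hl.1
          have h4 := hl2.1
          rw [hS, Finset.mem_filter] at h3 h4
          obtain ⟨hil, _, _⟩ := h3.2.1
          obtain ⟨hil2, _, _⟩ := h4.2.1
          simp only at heq
          rw [List.getD_eq_getElem _ _ hil, List.getD_eq_getElem _ _ hil2] at heq
          have e1 := List.insertIdx_eraseIdx_getElem hil
          have e2 := List.insertIdx_eraseIdx_getElem hil2
          rw [hl.2, heq] at e1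
          rw [hl2.2] at e2
          exact e1.symm.trans e2
      exact_mod_cast hle
  rw [h1]
  calc ∑ l' ∈ T, (#{l ∈ S | l.eraseIdx i = l'} : ℝ) ≤ ∑ l' ∈ T, G := Finset.sum_le_sum h2
    _ = G * badN H N B U' k := by
      rw [Finset.sum_const, nsmul_eq_mul, mul_comm]
      rfl

end Pool.Agent.Lib.MP_bae66e_nt.TL
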