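import Pool.Agent.Lib.MP_bae66e_nt.TL.B3
import Pool.Agent.Lib.MP_bae66e_nt.TL.B4a

/-!
# B4: the stage bound (abstract form)
-/

set_option autoImplicit false

open Finset Nat

namespace Pool.Agent.Lib.MP_bae66e_nt.TL

open Classical in
/-- B4. Induction on `g`. `g = 0`: `badN ≤ (#N)^k ≤ M^k`. Step `g → g + 1`, `level (g+1) U`:
`k = 0`: a list counted by `badN` is `[]`, which is `NB` (`nb_or_giant`, no `i < 0`), so
`h1` gives `≤ ε`. `k + 1`: by `nb_or_giant` a list counted by `badN` is `NB` (at most `ε M^(k+1)` by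
`h1`) or has `GE … i` for some `i < k + 1`; then with `c = col l[i] < w` and `U' = Us c ⊆ U` also
`#(rest H U' l) < B` (`rest_mono_left`), so `card_giant_le` and the induction hypothesis give
`≤ ∑_{i < k+1} ∑_{c < w} G * M^k (2 ε + δ^g) ≤ K w G M^k (2 ε + δ^g) = δ M^(k+1) (2ε + δ^g)`, where
`G = M η` and `δ = K w η`. Total `≤ M^(k+1) (ε + δ (2 ε + δ^g)) ≤ M^(k+1) (2 ε + δ^(g+1))`. -/
theorem stage_bound (H : ℕ → Finset ℕ) (N : Finset ℕ) (B K w : ℕ) (M ε η : ℝ)
    (hNM : (#N : ℝ) ≤ M) (hε : 0 ≤ ε) (hη : 0 ≤ η) (hδ : (K : ℝ) * w * η ≤ 1 / 2)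
    (level : ℕ → Finset ℕ → Prop)
    (h1 : ∀ g U, level g U → ∀ k ≤ K, ((#{l ∈ Lst N k | NB H B U l} : ℕ) : ℝ) ≤ ε * M ^ k)
    (h2 : ∀ g U, level (g + 1) U → ∃ (col : ℕ → ℕ) (Us : ℕ → Finset ℕ),
      (∀ n ∈ N, col n < w) ∧ (∀ c, level g (Us c) ∧ Us c ⊆ U) ∧
      ∀ n ∈ N, Disjoint (Us (col n)) (H n))
    (h3 : ∀ g U, level g U → ∀ V ⊆ U, B ≤ #V →
      ((#{n ∈ N | #V < 2 * #(V ∩ H n)} : ℕ) : ℝ) ≤ M * η)
    (g : ℕ) (U : Finset ℕ) (hU : level g U) (k : ℕ) (hk : k ≤ K) :
    (badN H N B U k : ℝ) ≤ M ^ k * (2 * ε + ((K : ℝ) * w * η) ^ g) := by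
  have hM0 : 0 ≤ M := (Nat.cast_nonneg _).trans hNM
  set δ : ℝ := (K : ℝ) * w * η with hδdef
  have hδ0 : 0 ≤ δ := by positivity
  induction g generalizing U k with
  | zero =>
    have h4 : badN H N B U k ≤ #N ^ k := by
      unfold badN
      have := Finset.card_filter_le (Lst N k) (fun l => #(rest H U l) < B)
      rwa [card_Lst] at this
    have h5 : (badN H N B U k : ℝ) ≤ M ^ k := by
      calc (badN H N B U k : ℝ) ≤ ((#N ^ k : ℕ) : ℝ) := by exact_mod_cast h4
        _ = (#N : ℝ) ^ k := by push_cast; rfl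
        _ ≤ M ^ k := pow_le_pow_left₀ (Nat.cast_nonneg _) hNM _
    rw [pow_zero]
    nlinarith [pow_nonneg hM0 k]
  | succ g ih =>
    have hMk : 0 ≤ M ^ k := pow_nonneg hM0 k
    cases k with
    | zero =>
      have h4 : badN H N B U 0 ≤ #{l ∈ Lst N 0 | NB H B U l} := by
        unfold badN
        apply Finset.card_le_card
        intro l hl
        rw [Finset.mem_filter] at hl ⊢
        refine ⟨hl.1, ?_⟩
        rcases nb_or_giant H B U l hl.2 with h5 | ⟨i, hi, _⟩
        · exact h5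
        · have h6 : l = [] := by simpa [Lst] using hl.1
          rw [h6] at hi
          simp at hi
      have h5 := h1 (g + 1) U hU 0 (Nat.zero_le _)
      have h6 : (badN H N B U 0 : ℝ) ≤ ε * M ^ 0 := by
        refine le_trans ?_ h5
        exact_mod_cast h4
      have h7 : 0 ≤ δ ^ (g + 1) := pow_nonneg hδ0 _
      rw [pow_zero] at h6 ⊢
      linarith
    | succ k =>
      obtain ⟨col, Us, hcol, hUs, hdis⟩ := h2 g U hU
      have hkK : k ≤ K := (Nat.le_succ k).trans hk
      have hcover : {l ∈ Lst N (k + 1) | #(rest H U l) < B}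
          ⊆ {l ∈ Lst N (k + 1) | NB H B U l} ∪
            (Finset.range (k + 1) ×ˢ Finset.range w).biUnion (fun ic =>
              {l ∈ Lst N (k + 1) | GE H B U l ic.1 ∧
                (∃ h : ic.1 < l.length, col l[ic.1] = ic.2) ∧ #(rest H (Us ic.2) l) < B}) := by
        intro l hl
        rw [Finset.mem_filter] at hl
        rw [Finset.mem_union]
        rcases nb_or_giant H B U l hl.2 with h5 | ⟨i, hi⟩
        · left
          rw [Finset.mem_filter]
          exact ⟨hl.1, h5⟩
        · right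
          obtain ⟨hil, _, _⟩ := id hi
          have hlen := (mem_Lst.mp hl.1).1
          rw [Finset.mem_biUnion]
          refine ⟨(i, col l[i]), ?_, ?_⟩
          · rw [Finset.mem_product, Finset.mem_range, Finset.mem_range]
            exact ⟨by rw [← hlen]; exact hil, hcol _ ((mem_Lst.mp hl.1).2 _ (List.getElem_mem hil))⟩
          · rw [Finset.mem_filter]
            refine ⟨hl.1, hi, ⟨hil, rfl⟩, ?_⟩
            exact (Finset.card_le_card (rest_mono_left H (hUs (col l[i])).2 l)).trans_lt hl.2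
      have h4 : (badN H N B U (k + 1) : ℝ) ≤ ε * M ^ (k + 1)
          + ∑ ic ∈ Finset.range (k + 1) ×ˢ Finset.range w,
            M * η * (M ^ k * (2 * ε + δ ^ g)) := by
        have h5 := (Finset.card_le_card hcover).trans (Finset.card_union_le _ _)
        have h6 := h5.trans (Nat.add_le_add_left Finset.card_biUnion_le _)
        have h7 : (badN H N B U (k + 1) : ℝ) ≤ ((#{l ∈ Lst N (k + 1) | NB H B U l} : ℕ) : ℝ)
            + ∑ ic ∈ Finset.range (k + 1) ×ˢ Finset.range w,
              ((#{l ∈ Lst N (k + 1) | GE H B U l ic.1 ∧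
                (∃ h : ic.1 < l.length, col l[ic.1] = ic.2) ∧
                #(rest H (Us ic.2) l) < B} : ℕ) : ℝ) := by
          unfold badN
          exact_mod_cast h6
        refine h7.trans (add_le_add (h1 (g + 1) U hU (k + 1) hk) (Finset.sum_le_sum ?_))
        rintro ⟨i, c⟩ hic
        rw [Finset.mem_product, Finset.mem_range, Finset.mem_range] at hic
        have h8 := card_giant_le H N B U (M * η) (by positivity) (h3 (g + 1) U hU) col (Us c) c
          (fun n hn hc => by rw [← hc]; exact hdis n hn) k i hic.1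
        refine h8.trans ?_
        apply mul_le_mul_of_nonneg_left _ (by positivity)
        exact ih (Us c) (hUs c).1 k hkK
      rw [Finset.sum_const, Finset.card_product, Finset.card_range, Finset.card_range,
        nsmul_eq_mul] at h4
      have h5 : (((k + 1) * w : ℕ) : ℝ) * (M * η * (M ^ k * (2 * ε + δ ^ g)))
          ≤ δ * (M ^ (k + 1) * (2 * ε + δ ^ g)) := by
        have h6 : (((k + 1) * w : ℕ) : ℝ) ≤ (K : ℝ) * w := by
          push_cast
          have : ((k : ℝ) + 1) ≤ K := by exact_mod_cast hk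
          exact mul_le_mul_of_nonneg_right this (Nat.cast_nonneg w)
        have h7 : 0 ≤ M * η * (M ^ k * (2 * ε + δ ^ g)) := by positivity
        calc (((k + 1) * w : ℕ) : ℝ) * (M * η * (M ^ k * (2 * ε + δ ^ g)))
            ≤ (K : ℝ) * w * (M * η * (M ^ k * (2 * ε + δ ^ g))) :=
              mul_le_mul_of_nonneg_right h6 h7
          _ = δ * (M ^ (k + 1) * (2 * ε + δ ^ g)) := by rw [hδdef]; ring
      have h6 : δ * (M ^ (k + 1) * (2 * ε + δ ^ g)) ≤ M ^ (k + 1) * (ε + δ ^ (g + 1)) := by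
        have h7 : δ * (2 * ε) ≤ ε := by nlinarith
        calc δ * (M ^ (k + 1) * (2 * ε + δ ^ g))
            = M ^ (k + 1) * (δ * (2 * ε) + δ ^ (g + 1)) := by ring
          _ ≤ M ^ (k + 1) * (ε + δ ^ (g + 1)) :=
            mul_le_mul_of_nonneg_left (by linarith) (pow_nonneg hM0 _)
      calc (badN H N B U (k + 1) : ℝ) ≤ ε * M ^ (k + 1) + M ^ (k + 1) * (ε + δ ^ (g + 1)) := by
            linarith
        _ = M ^ (k + 1) * (2 * ε + δ ^ (g + 1)) := by ring

end Pool.Agent.Lib.MP_bae66e_nt.TL
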