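import Pool.Agent.Lib.MP_bae66e_nt.TL.P1

/-!
# B5a: the levels
-/

set_option autoImplicit false

open Finset Nat Filter

namespace Pool.Agent.Lib.MP_bae66e_nt.TL

/-- the sets of level `g` -/
def Level (θ : ℝ) (y g : ℕ) (U : Finset ℕ) : Prop :=
  ∃ W b : ℕ, 1 ≤ W ∧ (W : ℝ) * (w2 y : ℝ) ^ g ≤ (y : ℝ) ^ (θ / 4) ∧
    g ≤ #{ℓ ∈ Finset.Ioc (w1 θ y) (w2 y) | ℓ.Prime ∧ ¬ ℓ ∣ W} ∧ U = apU y (Zt θ y) W b

/-- B5a. Hypothesis `h2` of `stage_bound`, `w = w2 y`. Take a prime `ℓ ∈ (w1, w2]`, `ℓ ∤ W`,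
`col n = n % ℓ`, `Us c = apU y Z (W * ℓ) b'` with `b' ≡ b [MOD W]`, `b' ≡ c [MOD ℓ]`
(`Nat.chineseRemainder`). If `u ∈ Us (n % ℓ) ∩ hitS y (w2 y) n` then `ℓ ∣ u - n`, so `u - n = ℓ ≤ w2`,
a contradiction. -/
lemma level_step (θ : ℝ) (y g : ℕ) (U : Finset ℕ) (hU : Level θ y (g + 1) U) :
    ∃ (col : ℕ → ℕ) (Us : ℕ → Finset ℕ),
      (∀ n, col n < w2 y) ∧ (∀ c, Level θ y g (Us c) ∧ Us c ⊆ U) ∧
      ∀ n, Disjoint (Us (col n)) (hitS y (w2 y) n) := by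
  obtain ⟨W, b, hW, hWs, hcard, rfl⟩ := hU
  have hne : ({ℓ ∈ Finset.Ioc (w1 θ y) (w2 y) | ℓ.Prime ∧ ¬ ℓ ∣ W} : Finset ℕ).Nonempty := by
    rw [← Finset.card_pos]
    omega
  obtain ⟨ℓ, hℓ⟩ := hne
  obtain ⟨hℓI, hℓp, hℓW⟩ := Finset.mem_filter.1 hℓ
  obtain ⟨hℓ1, hℓ2⟩ := Finset.mem_Ioc.1 hℓI
  have hcop : Nat.Coprime W ℓ := ((Nat.Prime.coprime_iff_not_dvd hℓp).2 hℓW).symm
  refine ⟨fun n => n % ℓ, fun c => apU y (Zt θ y) (W * ℓ) (Nat.chineseRemainder hcop b c : ℕ),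
    fun n => (Nat.mod_lt n hℓp.pos).trans_le hℓ2, fun c => ⟨?_, ?_⟩, fun n => ?_⟩
  · refine ⟨W * ℓ, _, Nat.mul_pos hW hℓp.pos, ?_, ?_, rfl⟩
    · refine le_trans ?_ hWs
      have h1 : (ℓ : ℝ) ≤ (w2 y : ℝ) := by exact_mod_cast hℓ2
      have h2 : (0 : ℝ) ≤ W := Nat.cast_nonneg _
      have h3 : (0 : ℝ) ≤ (w2 y : ℝ) := Nat.cast_nonneg _
      push_cast
      calc (W : ℝ) * ℓ * (w2 y : ℝ) ^ g ≤ (W : ℝ) * (w2 y : ℝ) * (w2 y : ℝ) ^ g := by gcongr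
        _ = (W : ℝ) * (w2 y : ℝ) ^ (g + 1) := by ring
    · have hsub : ({ℓ' ∈ Finset.Ioc (w1 θ y) (w2 y) | ℓ'.Prime ∧ ¬ ℓ' ∣ W} : Finset ℕ).erase ℓ ⊆
          {ℓ' ∈ Finset.Ioc (w1 θ y) (w2 y) | ℓ'.Prime ∧ ¬ ℓ' ∣ W * ℓ} := by
        intro p hp
        obtain ⟨hpl, hp⟩ := Finset.mem_erase.1 hp
        obtain ⟨hpI, hpp, hpW⟩ := Finset.mem_filter.1 hp
        refine Finset.mem_filter.2 ⟨hpI, hpp, ?_⟩
        intro hd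
        rcases hpp.dvd_mul.1 hd with h1 | h1
        · exact hpW h1
        · exact hpl ((Nat.prime_dvd_prime_iff_eq hpp hℓp).1 h1)
      have h1 := Finset.card_le_card hsub
      rw [Finset.card_erase_of_mem hℓ] at h1
      omega
  · intro u hu
    rw [mem_apU] at hu ⊢
    refine ⟨hu.1, ?_⟩
    have h1 : u ≡ (Nat.chineseRemainder hcop b c : ℕ) [MOD W] := hu.2.of_dvd (Dvd.intro _ rfl)
    exact h1.trans (Nat.chineseRemainder hcop b c).2.1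
  · rw [Finset.disjoint_left]
    intro u hu hu'
    rw [mem_apU] at hu
    rw [mem_hitS] at hu'
    obtain ⟨-, hnu, hprime, hw⟩ := hu'
    have h1 : u ≡ (Nat.chineseRemainder hcop b (n % ℓ) : ℕ) [MOD ℓ] :=
      hu.2.of_dvd (Dvd.intro_left _ rfl)
    have h2 : u ≡ n [MOD ℓ] :=
      (h1.trans (Nat.chineseRemainder hcop b (n % ℓ)).2.2).trans (Nat.mod_modEq n ℓ)
    have h3 : ℓ ∣ u - n := (Nat.modEq_iff_dvd' hnu.le).1 h2.symm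
    have h4 : ℓ = u - n := (Nat.prime_dvd_prime_iff_eq hℓp hprime).1 h3
    omega

/-- B5b. For a set of level `g`: `y^(θ/4) * Bt ≤ #U` (`window_params`, `card_apU_ge`,
`1 ≤ w2 y`). -/
lemma level_card_ge (θ : ℝ) (hθ : 0 < θ) (hθ1 : θ ≤ 1) : ∃ y₀ : ℕ, ∀ y : ℕ, y₀ ≤ y →
    ∀ (g : ℕ) (U : Finset ℕ), Level θ y g U →
      U ⊆ Finset.Ioc y (2 * y) ∧ (y : ℝ) ^ (θ / 4) * Bt θ y ≤ #U ∧ U.Nonempty := by
  obtain ⟨y₁, hy₁⟩ := window_params θ hθ hθ1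
  have h1 : ∀ᶠ y : ℕ in atTop, 1 ≤ Real.log (y : ℝ) := tendsto_log_nat.eventually_ge_atTop 1
  obtain ⟨y₂, hy₂⟩ := eventually_atTop.1 h1
  refine ⟨max (max y₁ y₂) 1, fun y hy g U hU => ?_⟩
  obtain ⟨e1, e2, e3, e4⟩ := hy₁ y (le_trans (le_trans (le_max_left _ _) (le_max_left _ _)) hy)
  have e5 := hy₂ y (le_trans (le_trans (le_max_right _ _) (le_max_left _ _)) hy)
  have hy1 : 1 ≤ y := le_trans (le_max_right _ _) hy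
  have hyR : (0 : ℝ) < y := by exact_mod_cast hy1
  obtain ⟨W, b, hW, hWs, -, rfl⟩ := hU
  have hw2 : (1 : ℝ) ≤ (w2 y : ℝ) := by
    have : 1 ≤ w2 y := Nat.le_floor (by push_cast; linarith)
    exact_mod_cast this
  have hWR : (0 : ℝ) ≤ W := Nat.cast_nonneg _
  have hWy : (W : ℝ) ≤ (y : ℝ) ^ (θ / 4) := by
    refine le_trans ?_ hWs
    have h2 : (1 : ℝ) ≤ (w2 y : ℝ) ^ g := one_le_pow₀ hw2
    nlinarith
  have h3 := e4 W hW hWy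
  have h4 := card_apU_ge y (Zt θ y) W b hW
  have h5 : (y : ℝ) ^ (θ / 4) * Bt θ y ≤ (#(apU y (Zt θ y) W b) : ℝ) := h3.trans h4
  refine ⟨?_, h5, ?_⟩
  · intro u hu
    have h6 := apU_subset y (Zt θ y) W b hu
    rw [Finset.mem_Ioc] at h6 ⊢
    omega
  · rw [← Finset.card_pos]
    have h6 : (0 : ℝ) < (y : ℝ) ^ (θ / 4) * Bt θ y := by
      have h7 : (1 : ℝ) ≤ (Bt θ y : ℝ) := by exact_mod_cast e3
      have h8 : 0 < (y : ℝ) ^ (θ / 4) := by positivity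
      nlinarith
    have h9 : (0 : ℝ) < (#(apU y (Zt θ y) W b) : ℝ) := h6.trans_le h5
    exact_mod_cast h9

end Pool.Agent.Lib.MP_bae66e_nt.TL
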