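import Pool.Agent.Lib.MP_bae66e_nt.TL.P1

/-!
# P2: the number of immunity primes
-/

set_option autoImplicit false

open Finset Nat Filter

namespace Pool.Agent.Lib.MP_bae66e_nt.TL

private lemma P2_pi_eq (n : ℕ) : Nat.primeCounting n = #{p ∈ Finset.range (n + 1) | p.Prime} := by
  rw [Nat.primeCounting, Nat.primeCounting', Nat.count_eq_card_filter_range]

private lemma P2_pi_le (a b : ℕ) :
    Nat.primeCounting b ≤ Nat.primeCounting a + #{l ∈ Finset.Ioc a b | l.Prime} := by
  rw [P2_pi_eq, P2_pi_eq]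
  refine le_trans (Finset.card_le_card ?_) (Finset.card_union_le _ _)
  intro p hp
  rw [Finset.mem_filter, Finset.mem_range] at hp
  rw [Finset.mem_union, Finset.mem_filter, Finset.mem_filter, Finset.mem_range, Finset.mem_Ioc]
  by_cases h : p ≤ a
  · left; exact ⟨by omega, hp.2⟩
  · right; exact ⟨by omega, hp.2⟩

/-- P2. `#{ℓ ∈ (w1, w2] prime} = π(w2) - π(w1) ≥ w2 / (4 log w2) - 5 w1 / log w1`
(`pi_lower`, `pi_upper`; if `w1 ≤ 1` simply `π(w1) = 0`; for `w1 < √(log y)` use `π(w1) ≤ w1`);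
since `w1 ≤ log y / 16`, `w2 ≥ 8 log y - 1` and `π` is monotone it suffices to bound
`π(⌊log y / 16⌋) ≤ 5 (log y / 16) / log ⌊log y / 16⌋ ≤ (5/15) LL y` and
`π(w2) ≥ (7/4) LL y`, for large `y`. -/
lemma card_primes_ge : ∃ y₀ : ℕ, ∀ y : ℕ, y₀ ≤ y → ∀ θ : ℝ, θ ≤ 1 →
    LL y ≤ (#{ℓ ∈ Finset.Ioc (w1 θ y) (w2 y) | ℓ.Prime} : ℝ) := by
  have e1 := tendsto_log_nat.eventually_ge_atTop 64
  have e2 := tendsto_loglog_nat.eventually_ge_atTop (7 * Real.log 8 + 12 * Real.log 32 + 1)
  obtain ⟨y₀, hy₀⟩ := Filter.eventually_atTop.mp (e1.and e2)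
  refine ⟨y₀, fun y hy θ hθ => ?_⟩
  obtain ⟨h1, h2⟩ := hy₀ y hy
  set X := Real.log y with hX
  set l := Real.log X with hl
  have hl8 : 0 < Real.log 8 := Real.log_pos (by norm_num)
  have hl32 : 0 < Real.log 32 := Real.log_pos (by norm_num)
  have hl0 : 1 ≤ l := by linarith
  have hX0 : 0 < X := by linarith
  have hlX : l ≤ X := by
    have := Real.log_le_sub_one_of_pos hX0
    linarith
  -- upper bound for the small part
  set u1 : ℕ := ⌊X / 16⌋₊ with hu1
  have hu1le : (u1 : ℝ) ≤ X / 16 := Nat.floor_le (by positivity)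
  have hu1ge : X / 32 ≤ u1 := by
    have := Nat.lt_floor_add_one (X / 16)
    rw [← hu1] at this
    linarith
  have hu12 : 2 ≤ u1 := by
    have : (2 : ℝ) ≤ u1 := by linarith
    exact_mod_cast this
  have hw1u1 : w1 θ y ≤ u1 := by
    unfold w1
    apply Nat.floor_le_floor
    have : θ * X ≤ 1 * X := mul_le_mul_of_nonneg_right hθ hX0.le
    rw [← hX]
    linarith
  have hpi1 : (Nat.primeCounting (w1 θ y) : ℝ) ≤ 3 / 4 * (X / l) := by
    have h3 : (Nat.primeCounting (w1 θ y) : ℝ) ≤ Nat.primeCounting u1 := by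
      exact_mod_cast Nat.monotone_primeCounting hw1u1
    have h4 := pi_upper u1 hu12
    have h5 : 5 / 12 * l ≤ Real.log u1 := by
      have h6 : Real.log (X / 32) ≤ Real.log u1 := Real.log_le_log (by positivity) hu1ge
      rw [Real.log_div hX0.ne' (by norm_num), ← hl] at h6
      linarith
    have h7 : 0 < Real.log u1 := by linarith
    have h8 : 5 * (u1 : ℝ) / Real.log u1 ≤ 3 / 4 * (X / l) := by
      rw [← mul_div_assoc, div_le_div_iff₀ h7 (by linarith)]
      have h9 : 5 * (u1 : ℝ) * l ≤ 5 * (X / 16) * l := by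
        apply mul_le_mul_of_nonneg_right _ (by linarith)
        linarith
      have h10 : 3 / 4 * X * (5 / 12 * l) ≤ 3 / 4 * X * Real.log u1 :=
        mul_le_mul_of_nonneg_left h5 (by positivity)
      nlinarith
    linarith
  -- lower bound for the large part
  have hw2le : (w2 y : ℝ) ≤ 8 * X := by
    unfold w2
    exact Nat.floor_le (by positivity)
  have hw2ge : 8 * X - 1 ≤ w2 y := by
    unfold w2
    have := Nat.lt_floor_add_one (8 * Real.log y)
    rw [← hX] at this ⊢
    linarith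
  have hw216 : 16 ≤ w2 y := by
    have : (16 : ℝ) ≤ w2 y := by linarith
    exact_mod_cast this
  have hpi2 : 7 / 4 * (X / l) ≤ Nat.primeCounting (w2 y) := by
    have h3 := pi_lower (w2 y) hw216
    refine le_trans ?_ h3
    have h4 : Real.log (w2 y) ≤ l + Real.log 8 := by
      have h5 : Real.log (w2 y) ≤ Real.log (8 * X) := Real.log_le_log (by linarith) hw2le
      rw [Real.log_mul (by norm_num) hX0.ne'] at h5
      linarith
    have h5 : 0 < Real.log (w2 y) := Real.log_pos (by linarith)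
    rw [← mul_div_assoc, div_le_div_iff₀ (by linarith) (by linarith)]
    have h6 : 7 / 4 * X * (4 * Real.log (w2 y)) ≤ 7 / 4 * X * (4 * (l + Real.log 8)) :=
      mul_le_mul_of_nonneg_left (by linarith) (by positivity)
    have h7 : (8 * X - 1) * l ≤ (w2 y : ℝ) * l := mul_le_mul_of_nonneg_right hw2ge (by linarith)
    have h8 : 7 * Real.log 8 + 1 ≤ l := by linarith
    have h9 : X * (7 * Real.log 8 + 1) ≤ X * l := mul_le_mul_of_nonneg_left h8 hX0.le
    nlinarith
  have h3 : (Nat.primeCounting (w2 y) : ℝ) ≤ Nat.primeCounting (w1 θ y) +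
      (#{ℓ ∈ Finset.Ioc (w1 θ y) (w2 y) | ℓ.Prime} : ℝ) := by
    exact_mod_cast P2_pi_le (w1 θ y) (w2 y)
  unfold LL
  rw [← hX, ← hl]
  linarith

end Pool.Agent.Lib.MP_bae66e_nt.TL
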