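import Pool.Agent.Lib.MP_bae66e_nt.TL.P1

/-!
# P3: the size of the modulus
-/

set_option autoImplicit false

open Finset Nat Filter

namespace Pool.Agent.Lib.MP_bae66e_nt.TL

/-- P3. `primProd (w1 θ y) ≤ 4 ^ (w1 θ y) ≤ exp (1.39 θ log y / 16)` (`primProd_le`,
`log_four_le`), `(w2 y) ^ ⌊θ LL y / 16⌋ ≤ exp (θ LL y / 16 * log (8 log y))` and
`log (8 log y) ≤ (3/2) loglog y` for large `y`; `1.39/16 + 3/32 ≤ 1/4`. -/
lemma modulus_le : ∃ y₀ : ℕ, ∀ y : ℕ, y₀ ≤ y → ∀ θ : ℝ, 0 < θ → θ ≤ 1 →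
    (primProd (w1 θ y) : ℝ) * (w2 y : ℝ) ^ ⌊θ * LL y / 16⌋₊ ≤ (y : ℝ) ^ (θ / 4) := by
  have e1 := tendsto_log_nat.eventually_ge_atTop 64
  have e2 := tendsto_loglog_nat.eventually_ge_atTop (2 * Real.log 8 + 1)
  obtain ⟨y₀, hy₀⟩ := Filter.eventually_atTop.mp (e1.and e2)
  refine ⟨y₀, fun y hy θ hθ hθ1 => ?_⟩
  obtain ⟨h1, h2⟩ := hy₀ y hy
  have hy0 : (0 : ℝ) < y := by
    rcases Nat.eq_zero_or_pos y with h | h
    · exfalso
      rw [h, Nat.cast_zero, Real.log_zero] at h1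
      linarith
    · exact_mod_cast h
  set X := Real.log y with hX
  set l := Real.log X with hl
  have hl8 : 0 < Real.log 8 := Real.log_pos (by norm_num)
  have hl0 : 1 ≤ l := by linarith
  have hX0 : 0 < X := by linarith
  have hL : LL y = X / l := rfl
  have hL0 : 0 ≤ LL y := by rw [hL]; positivity
  have hLl : LL y * l = X := by rw [hL]; field_simp
  have hw2le : (w2 y : ℝ) ≤ 8 * X := by
    unfold w2
    exact Nat.floor_le (by positivity)
  have hw2ge : 8 * X - 1 ≤ w2 y := by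
    unfold w2
    have := Nat.lt_floor_add_one (8 * Real.log y)
    rw [← hX] at this ⊢
    linarith
  have hw2pos : (1 : ℝ) ≤ w2 y := by linarith
  have hpp : (0 : ℝ) < primProd (w1 θ y) := by exact_mod_cast primProd_pos _
  rw [← Real.log_le_log_iff (by positivity) (by positivity), Real.log_mul hpp.ne' (by positivity),
    Real.log_pow, Real.log_rpow hy0, ← hX]
  have h3 : Real.log (primProd (w1 θ y)) ≤ 1.39 * (θ * X / 16) := by
    have h4 : Real.log (primProd (w1 θ y)) ≤ Real.log ((4 : ℝ) ^ (w1 θ y)) := by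
      apply Real.log_le_log hpp
      exact_mod_cast primProd_le (w1 θ y)
    rw [Real.log_pow] at h4
    have h5 : (w1 θ y : ℝ) ≤ θ * X / 16 := by
      unfold w1
      exact Nat.floor_le (by positivity)
    have h6 := log_four_le
    have h7 : (w1 θ y : ℝ) * Real.log 4 ≤ (w1 θ y : ℝ) * 1.39 :=
      mul_le_mul_of_nonneg_left h6 (Nat.cast_nonneg _)
    nlinarith
  have h4 : (⌊θ * LL y / 16⌋₊ : ℝ) * Real.log (w2 y) ≤ θ * X * (3 / 32) := by
    have h5 : (⌊θ * LL y / 16⌋₊ : ℝ) ≤ θ * LL y / 16 := Nat.floor_le (by positivity)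
    have h6 : Real.log (w2 y) ≤ 3 / 2 * l := by
      have h7 : Real.log (w2 y) ≤ Real.log (8 * X) := Real.log_le_log (by linarith) hw2le
      rw [Real.log_mul (by norm_num) hX0.ne'] at h7
      linarith
    have h7 : 0 ≤ Real.log (w2 y) := Real.log_nonneg hw2pos
    calc (⌊θ * LL y / 16⌋₊ : ℝ) * Real.log (w2 y) ≤ (θ * LL y / 16) * (3 / 2 * l) :=
          mul_le_mul h5 h6 h7 (by positivity)
      _ = θ * (LL y * l) * (3 / 32) := by ring
      _ = θ * X * (3 / 32) := by rw [hLl]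
  have h5 : 0 < θ * X := by positivity
  have e : 1.39 * (θ * X / 16) + θ * X * (3 / 32) ≤ θ / 4 * X := by
    have : 1.39 * (θ * X / 16) + θ * X * (3 / 32) = (θ * X) * (1.39 / 16 + 3 / 32) := by ring
    rw [this]
    have h6 : θ / 4 * X = (θ * X) * (1 / 4) := by ring
    rw [h6]
    apply mul_le_mul_of_nonneg_left _ h5.le
    norm_num
  linarith

end Pool.Agent.Lib.MP_bae66e_nt.TL
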