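import Pool.Agent.Lib.MP_bae66e_nt.TL.P1

/-!
# P5: the final estimate of the stage bound
-/

set_option autoImplicit false

open Finset Nat Filter

namespace Pool.Agent.Lib.MP_bae66e_nt.TL

/-- P5. For `C ≥ 1`: `(log y)^2 * (8 log y) * exp (-(L / (2C))) ≤ exp (-(L / (4C)))` for large `y`,
because `3 loglog y + log 8 ≤ L / (4C)` (`loglog y = o(L)`; `(loglog y)² = o(log y)`). -/
lemma delta_le (C : ℝ) (hC : 1 ≤ C) : ∃ y₀ : ℕ, ∀ y : ℕ, y₀ ≤ y →
    (Real.log y) ^ 2 * (8 * Real.log y) * Real.exp (-(LL y / (2 * C)))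
      ≤ Real.exp (-(LL y / (4 * C))) := by
  have hl8 : 0 < Real.log 8 := Real.log_pos (by norm_num)
  have hc : 0 < 1 / (4 * C * (3 + Real.log 8)) := by positivity
  have e0 := (Real.isLittleO_pow_log_id_atTop (n := 2)).bound hc
  have e0' := tendsto_log_nat.eventually e0
  have e1 := tendsto_log_nat.eventually_ge_atTop 1
  have e2 := tendsto_loglog_nat.eventually_ge_atTop 1
  obtain ⟨y₀, hy₀⟩ := Filter.eventually_atTop.mp (e0'.and (e1.and e2))
  refine ⟨y₀, fun y hy => ?_⟩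
  obtain ⟨h0, h1, h2⟩ := hy₀ y hy
  set X := Real.log y with hX
  set l := Real.log X with hl
  have hX0 : 0 < X := by linarith
  have hL : LL y = X / l := rfl
  rw [Real.norm_eq_abs, abs_of_nonneg (by positivity), id, Real.norm_eq_abs, abs_of_pos hX0] at h0
  have h3 : 3 * l + Real.log 8 ≤ LL y / (4 * C) := by
    rw [hL, div_div, le_div_iff₀ (by positivity)]
    have h4 : (3 * l + Real.log 8) * l ≤ (3 + Real.log 8) * l ^ 2 := by
      have h6 : Real.log 8 * l ≤ Real.log 8 * l ^ 2 := by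
        apply mul_le_mul_of_nonneg_left _ hl8.le
        nlinarith
      nlinarith
    have h5 : (3 + Real.log 8) * l ^ 2 * (4 * C) ≤ X := by
      rw [one_div, inv_mul_eq_div, le_div_iff₀ (by positivity)] at h0
      linarith
    nlinarith
  have h4 : X ^ 2 * (8 * X) = Real.exp (3 * l + Real.log 8) := by
    rw [Real.exp_add, Real.exp_log (by norm_num), show (3 : ℝ) * l = l + l + l by ring, Real.exp_add,
      Real.exp_add, hl, Real.exp_log hX0]
    ring
  rw [h4, ← Real.exp_add, Real.exp_le_exp]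
  have h5 : LL y / (2 * C) = LL y / (4 * C) + LL y / (4 * C) := by
    field_simp
    ring
  rw [h5]
  linarith

/-- P6. With `g = ⌊θ L / 16⌋ ≥ θ L / 32` (`θ L ≥ 32`), `log y ≥ L`, for fixed `θ` and large `y`:
`2 exp (-(θ log y L / (16 C))) + exp (-(L / (4 C)))^g ≤ 3 exp (-(θ L² / (128 C)))
≤ exp (-(θ L² / (256 C)))`. -/
lemma eps_delta_le (C θ : ℝ) (hC : 1 ≤ C) (hθ : 0 < θ) (hθ1 : θ ≤ 1) : ∃ y₀ : ℕ, ∀ y : ℕ, y₀ ≤ y →
    2 * Real.exp (-(θ * Real.log y * LL y / (16 * C)))
        + Real.exp (-(LL y / (4 * C))) ^ ⌊θ * LL y / 16⌋₊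
      ≤ Real.exp (-(1 / (256 * C) * θ * LL y ^ 2)) := by
  have e0 := tendsto_LL.eventually_ge_atTop (32 / θ + 256 * C * Real.log 3 / θ + 1)
  have e1 := tendsto_log_nat.eventually_ge_atTop 1
  have e2 := tendsto_loglog_nat.eventually_ge_atTop 1
  obtain ⟨y₀, hy₀⟩ := Filter.eventually_atTop.mp (e0.and (e1.and e2))
  refine ⟨y₀, fun y hy => ?_⟩
  obtain ⟨h0, h1, h2⟩ := hy₀ y hy
  set X := Real.log y with hX
  set l := Real.log X with hl
  set L := LL y with hLdef
  have hX0 : 0 < X := by linarith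
  have hL : L = X / l := rfl
  have hlog3 : 0 < Real.log 3 := Real.log_pos (by norm_num)
  have hL1 : 32 / θ ≤ L := by
    have : 0 ≤ 256 * C * Real.log 3 / θ := by positivity
    linarith
  have hL2 : 256 * C * Real.log 3 / θ ≤ L := by
    have : 0 ≤ 32 / θ := by positivity
    linarith
  have hL3 : 1 ≤ L := by
    have h3 : 0 ≤ 32 / θ := by positivity
    have h4 : 0 ≤ 256 * C * Real.log 3 / θ := by positivity
    linarith
  have hLX : L ≤ X := by
    rw [hL, div_le_iff₀ (by linarith)]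
    nlinarith
  rw [div_le_iff₀ hθ] at hL1 hL2
  set g := ⌊θ * L / 16⌋₊ with hg
  have hg1 : θ * L / 32 ≤ g := by
    have := Nat.lt_floor_add_one (θ * L / 16)
    rw [← hg] at this
    linarith
  have hC0 : 0 < C := by linarith
  have t1 : Real.exp (-(θ * X * L / (16 * C))) ≤ Real.exp (-(1 / (128 * C) * θ * L ^ 2)) := by
    rw [Real.exp_le_exp, neg_le_neg_iff, le_div_iff₀ (by positivity)]
    have : 1 / (128 * C) * θ * L ^ 2 * (16 * C) = θ * L ^ 2 / 8 := by
      field_simp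
      ring
    rw [this]
    have h5 : θ * L ^ 2 ≤ θ * X * L := by
      have : θ * L * L ≤ θ * L * X := mul_le_mul_of_nonneg_left hLX (by positivity)
      nlinarith
    have h6 : 0 ≤ θ * L ^ 2 := by positivity
    linarith
  have t2 : Real.exp (-(L / (4 * C))) ^ g ≤ Real.exp (-(1 / (128 * C) * θ * L ^ 2)) := by
    rw [← Real.exp_nat_mul, Real.exp_le_exp]
    have h5 : (θ * L / 32) * (L / (4 * C)) ≤ (g : ℝ) * (L / (4 * C)) :=
      mul_le_mul_of_nonneg_right hg1 (by positivity)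
    have h6 : (θ * L / 32) * (L / (4 * C)) = 1 / (128 * C) * θ * L ^ 2 := by
      field_simp
      ring
    rw [h6] at h5
    linarith
  have t3 : 3 * Real.exp (-(1 / (128 * C) * θ * L ^ 2)) ≤ Real.exp (-(1 / (256 * C) * θ * L ^ 2)) := by
    rw [← Real.exp_log (by norm_num : (0 : ℝ) < 3), ← Real.exp_add, Real.exp_le_exp]
    have h5 : 1 / (128 * C) * θ * L ^ 2 = 1 / (256 * C) * θ * L ^ 2 + 1 / (256 * C) * θ * L ^ 2 := by
      field_simp
      ring
    have h6 : Real.log 3 ≤ 1 / (256 * C) * θ * L ^ 2 := by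
      have h7 : Real.log 3 = 1 / (256 * C) * (256 * C * Real.log 3) := by field_simp
      have h8 : 1 / (256 * C) * θ * L ^ 2 = 1 / (256 * C) * (θ * L ^ 2) := by ring
      rw [h7, h8]
      apply mul_le_mul_of_nonneg_left _ (by positivity)
      have h9 : L * θ * 1 ≤ L * θ * L := mul_le_mul_of_nonneg_left hL3 (by positivity)
      nlinarith
    linarith
  linarith

end Pool.Agent.Lib.MP_bae66e_nt.TL
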