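import Pool.Agent.Lib.MP_bae66e_nt.TL.B1
import Pool.Agent.Lib.MP_bae66e_nt.TL.B2
import Pool.Agent.Lib.MP_bae66e_nt.TL.B4
import Pool.Agent.Lib.MP_bae66e_nt.TL.B5a
import Pool.Agent.Lib.MP_bae66e_nt.TL.P2
import Pool.Agent.Lib.MP_bae66e_nt.TL.P3
import Pool.Agent.Lib.MP_bae66e_nt.TL.P5

/-!
# B5: the number of bad lists
-/

set_option autoImplicit false

open Finset Nat Filter

namespace Pool.Agent.Lib.MP_bae66e_nt.TL

lemma B5_not_dvd (z ℓ : ℕ) (hℓ : ℓ.Prime) (hz : z < ℓ) : ¬ ℓ ∣ primProd z := by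
  intro h
  unfold primProd at h
  obtain ⟨q, hq, hd⟩ := (hℓ.prime.dvd_finsetProd_iff _).1 h
  have h1 := mem_prms.1 hq
  have h2 := (Nat.prime_dvd_prime_iff_eq hℓ h1.2).1 hd
  omega

/-- B5. `stage_bound` with `H = hitS y (w2 y)`, `N = (0, 2y]`, `B = Bt θ y`, `K = ⌊(log y)^2⌋`,
`w = w2 y`, `M = 5 C₄ y`, `η = exp (-(L / (2 C₃)))`, `ε = exp (-(θ log y L / (16 C₃)))`,
`level = Level θ y`, `g = ⌊θ L / 16⌋`. `h1`: `normal_bound` with `σ = L / (4 C₃)`, `(B / #U)^σ ≤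
(y^(-θ/4))^σ = ε` (`level_card_ge`), its `hM` is `moment_bound` with `tail_bound`. `h2`: `level_step`.
`h3`: `tail_bound` with `τ = 1/2`. `hδ`: `delta_le`. `Level θ y g (apU …)` for the given set:
`modulus_le`, `card_primes_ge` (a prime `ℓ > w1` does not divide `primProd w1`). Conclusion with
`eps_delta_le`, `(K w2 η)^g ≤ (exp (-(L / (4 C₃))))^g`. `C₅ = 5 C₄`, `c₂ = 1 / (256 C₃)`. -/
theorem bad_count : ∃ C₅ c₂ : ℝ, 1 ≤ C₅ ∧ 0 < c₂ ∧ ∀ θ : ℝ, 0 < θ → θ ≤ 1 →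
    ∃ y₀ : ℕ, ∀ y : ℕ, y₀ ≤ y → ∀ b k : ℕ, (k : ℝ) ≤ (Real.log y) ^ 2 →
    (badN (hitS y (w2 y)) (Finset.Ioc 0 (2 * y)) (Bt θ y)
        (apU y (Zt θ y) (primProd (w1 θ y)) b) k : ℝ)
      ≤ (C₅ * y) ^ k * Real.exp (-(c₂ * θ * LL y ^ 2)) := by
  classical
  obtain ⟨C₃, C₄, hC₃, hC₄, y₃, htail⟩ := tail_bound
  have hC₃0 : 0 < C₃ := by linarith
  refine ⟨5 * C₄, 1 / (256 * C₃), by linarith, by positivity, fun θ hθ hθ1 => ?_⟩
  obtain ⟨yw, hw⟩ := window_params θ hθ hθ1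
  obtain ⟨yl, hlev⟩ := level_card_ge θ hθ hθ1
  obtain ⟨yp, hpr⟩ := card_primes_ge
  obtain ⟨ym, hmod⟩ := modulus_le
  obtain ⟨yd, hdel⟩ := delta_le C₃ hC₃
  obtain ⟨ye, heps⟩ := eps_delta_le C₃ θ hC₃ hθ hθ1
  have hLbig : ∀ᶠ y : ℕ in atTop, 4 * C₃ ≤ LL y := tendsto_LL.eventually_ge_atTop _
  have hlog : ∀ᶠ y : ℕ in atTop, 1 ≤ Real.log (y : ℝ) := tendsto_log_nat.eventually_ge_atTop 1
  obtain ⟨y₀, hy₀⟩ := eventually_atTop.1 (hLbig.and (hlog.and ((eventually_ge_atTop y₃).and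
    ((eventually_ge_atTop yw).and ((eventually_ge_atTop yl).and ((eventually_ge_atTop yp).and
    ((eventually_ge_atTop ym).and ((eventually_ge_atTop yd).and ((eventually_ge_atTop ye).and
    (eventually_ge_atTop 1))))))))))
  refine ⟨y₀, fun y hy b k hk => ?_⟩
  obtain ⟨eL, elog, e3, ew, el, ep, em, ed, ee, e1⟩ := hy₀ y hy
  have hyR : (0 : ℝ) < y := by exact_mod_cast e1
  have hL0 : 0 < LL y := by linarith
  obtain ⟨hZy, hLB, hB1, -⟩ := hw y ew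
  have hC₄y : (0 : ℝ) ≤ C₄ * y := by positivity
  have hNM : ((#(Finset.Ioc 0 (2 * y)) : ℕ) : ℝ) ≤ 5 * C₄ * y := by
    rw [Nat.card_Ioc, Nat.sub_zero]
    push_cast
    nlinarith
  have htail' : ∀ V : Finset ℕ, V ⊆ Finset.Ioc y (2 * y) → Bt θ y ≤ #V → ∀ τ : ℝ, 0 ≤ τ →
      ((#{n ∈ Finset.Ioc 0 (2 * y) | τ * (#V : ℝ) ≤ (#(V ∩ hitS y (w2 y) n) : ℝ)} : ℕ) : ℝ)
        ≤ C₄ * y * Real.exp (-(τ * LL y / C₃)) := by
    intro V hV hBV τ hτ
    refine htail y e3 (w2 y) V hV ?_ (by omega) τ hτ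
    have h1 : (Bt θ y : ℝ) ≤ #V := by exact_mod_cast hBV
    linarith
  have hKw : (⌊(Real.log y) ^ 2⌋₊ : ℝ) * (w2 y : ℝ) * Real.exp (-(LL y / (2 * C₃))) ≤
      Real.exp (-(LL y / (4 * C₃))) := by
    refine le_trans ?_ (hdel y ed)
    have h1 : (⌊(Real.log y) ^ 2⌋₊ : ℝ) ≤ (Real.log y) ^ 2 := Nat.floor_le (by positivity)
    have h2 : (w2 y : ℝ) ≤ 8 * Real.log y := Nat.floor_le (by positivity)
    gcongr
  have hhalf : Real.exp (-(LL y / (4 * C₃))) ≤ 1 / 2 := by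
    have h1 : 1 ≤ LL y / (4 * C₃) := by
      rw [le_div_iff₀ (by positivity)]
      linarith
    calc Real.exp (-(LL y / (4 * C₃))) ≤ Real.exp (-1) := Real.exp_le_exp.2 (by linarith)
      _ ≤ 1 / 2 := by
          rw [Real.exp_neg, one_div]
          have h2 := Real.add_one_le_exp (1 : ℝ)
          exact inv_anti₀ (by norm_num) (by linarith)
  have hmain := stage_bound (hitS y (w2 y)) (Finset.Ioc 0 (2 * y)) (Bt θ y)
    ⌊(Real.log y) ^ 2⌋₊ (w2 y) (5 * C₄ * y)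
    (Real.exp (-(θ * Real.log y * LL y / (16 * C₃)))) (Real.exp (-(LL y / (2 * C₃))))
    hNM (Real.exp_pos _).le (Real.exp_pos _).le (hKw.trans hhalf) (Level θ y)
    (by
      intro g U hU k _
      obtain ⟨hUs, hUc, hUn⟩ := hlev y el g U hU
      have h1 := normal_bound (hitS y (w2 y)) (Finset.Ioc 0 (2 * y)) U (Bt θ y) hB1
        (5 * C₄ * y) (LL y / (4 * C₃)) (by positivity) hNM (by
          intro V hV hBV
          exact moment_bound C₃ C₄ hC₃ y (w2 y) hL0 V (by omega)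
            (htail' V (hV.trans hUs) hBV)) k U (Finset.Subset.refl U) hUn
      refine h1.trans ?_
      rw [mul_comm (Real.exp _)]
      refine mul_le_mul_of_nonneg_left ?_ (by positivity)
      have hUpos : (0 : ℝ) < #U := by exact_mod_cast hUn.card_pos
      have h2 : (Bt θ y : ℝ) / #U ≤ (y : ℝ) ^ (-(θ / 4)) := by
        rw [div_le_iff₀ hUpos, Real.rpow_neg hyR.le, inv_mul_eq_div,
          le_div_iff₀ (by positivity), mul_comm]
        exact hUc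
      calc ((Bt θ y : ℝ) / #U) ^ (LL y / (4 * C₃)) ≤
            ((y : ℝ) ^ (-(θ / 4))) ^ (LL y / (4 * C₃)) :=
            Real.rpow_le_rpow (by positivity) h2 (by positivity)
        _ = Real.exp (-(θ * Real.log y * LL y / (16 * C₃))) := by
            rw [← Real.rpow_mul hyR.le, Real.rpow_def_of_pos hyR]
            congr 1
            field_simp
            ring)
    (by
      intro g U hU
      obtain ⟨col, Us, h1, h2, h3⟩ := level_step θ y g U hU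
      exact ⟨col, Us, fun n _ => h1 n, h2, fun n _ => h3 n⟩)
    (by
      intro g U hU V hV hBV
      obtain ⟨hUs, -, -⟩ := hlev y el g U hU
      have h1 := htail' V (hV.trans hUs) hBV (1 / 2) (by norm_num)
      have h2 : ((#{n ∈ Finset.Ioc 0 (2 * y) | #V < 2 * #(V ∩ hitS y (w2 y) n)} : ℕ) : ℝ) ≤
          ((#{n ∈ Finset.Ioc 0 (2 * y) | (1 / 2 : ℝ) * (#V : ℝ) ≤
            (#(V ∩ hitS y (w2 y) n) : ℝ)} : ℕ) : ℝ) := by
        have h3 : #{n ∈ Finset.Ioc 0 (2 * y) | #V < 2 * #(V ∩ hitS y (w2 y) n)} ≤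
            #{n ∈ Finset.Ioc 0 (2 * y) | (1 / 2 : ℝ) * (#V : ℝ) ≤
            (#(V ∩ hitS y (w2 y) n) : ℝ)} := by
          refine Finset.card_le_card fun n hn => ?_
          rw [Finset.mem_filter] at hn ⊢
          refine ⟨hn.1, ?_⟩
          have h4 : (#V : ℝ) < 2 * (#(V ∩ hitS y (w2 y) n) : ℝ) := by exact_mod_cast hn.2
          linarith
        exact_mod_cast h3
      refine (h2.trans h1).trans ?_
      have h5 : (1 / 2 : ℝ) * LL y / C₃ = LL y / (2 * C₃) := by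
        field_simp
      rw [h5]
      refine mul_le_mul_of_nonneg_right ?_ (Real.exp_pos _).le
      linarith)
    ⌊θ * LL y / 16⌋₊ (apU y (Zt θ y) (primProd (w1 θ y)) b)
    (by
      refine ⟨primProd (w1 θ y), b, primProd_pos _, hmod y em θ hθ hθ1, ?_, rfl⟩
      have h1 := hpr y ep θ hθ1
      have h2 : ({ℓ ∈ Finset.Ioc (w1 θ y) (w2 y) | ℓ.Prime ∧ ¬ ℓ ∣ primProd (w1 θ y)} : Finset ℕ) =
          {ℓ ∈ Finset.Ioc (w1 θ y) (w2 y) | ℓ.Prime} := by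
        ext ℓ
        simp only [Finset.mem_filter, Finset.mem_Ioc]
        constructor
        · rintro ⟨h3, h4, -⟩
          exact ⟨h3, h4⟩
        · rintro ⟨h3, h4⟩
          exact ⟨h3, h4, B5_not_dvd _ ℓ h4 h3.1⟩
      rw [h2]
      have h3 : (⌊θ * LL y / 16⌋₊ : ℝ) ≤ θ * LL y / 16 := Nat.floor_le (by positivity)
      have h4 : θ * LL y / 16 ≤ LL y := by nlinarith
      have h5 : (⌊θ * LL y / 16⌋₊ : ℝ) ≤
          ((#({ℓ ∈ Finset.Ioc (w1 θ y) (w2 y) | ℓ.Prime} : Finset ℕ) : ℕ) : ℝ) := by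
        linarith
      exact_mod_cast h5)
    k (Nat.le_floor hk)
  refine hmain.trans ?_
  refine mul_le_mul_of_nonneg_left ?_ (by positivity)
  refine le_trans ?_ (heps y ee)
  have h6 : ((⌊(Real.log y) ^ 2⌋₊ : ℝ) * (w2 y : ℝ) * Real.exp (-(LL y / (2 * C₃)))) ^
      ⌊θ * LL y / 16⌋₊ ≤ Real.exp (-(LL y / (4 * C₃))) ^ ⌊θ * LL y / 16⌋₊ :=
    pow_le_pow_left₀ (by positivity) hKw _
  linarith

end Pool.Agent.Lib.MP_bae66e_nt.TL
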