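import Pool.Agent.Lib.MP_bae66e_nt.TL.N0

/-!
# C1: the exceptional `t`, first three sets
-/

set_option autoImplicit false

open Finset Nat Filter

namespace Pool.Agent.Lib.MP_bae66e_nt.TL

/-- the `n ≤ 2y` with `a + Q t + n` prime -/
def QQ (a Q y t : ℕ) : Finset ℕ := {n ∈ Finset.Ioc 0 (2 * y) | (a + Q * t + n).Prime}

/-- C1a. `brun_titchmarsh` with `D = Q`, `a + n`, summed over `n ∈ N` (exchange the sums). -/
lemma sum_card_inter_le (a Q y T : ℕ) (hQ : 1 ≤ Q) (hT : 2 ≤ T) (N : Finset ℕ)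
    (hN : N ⊆ Finset.Ioc 0 (2 * y)) :
    ∑ t ∈ Finset.Ioc 0 T, (#(QQ a Q y t ∩ N) : ℝ) ≤ #N * (8 * T / (rho Q * Real.log T)) := by
  have h1 : ∀ t : ℕ, QQ a Q y t ∩ N = {n ∈ N | (a + Q * t + n).Prime} := by
    intro t
    ext n
    unfold QQ
    rw [Finset.mem_inter, Finset.mem_filter, Finset.mem_filter]
    constructor
    · rintro ⟨⟨_, h2⟩, h3⟩
      exact ⟨h3, h2⟩
    · rintro ⟨h2, h3⟩
      exact ⟨⟨hN h2, h3⟩, h2⟩
  have h2 : ∑ t ∈ Finset.Ioc 0 T, (#(QQ a Q y t ∩ N) : ℝ)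
      = ∑ n ∈ N, ((#{t ∈ Finset.Ioc 0 T | (Q * t + (a + n)).Prime} : ℕ) : ℝ) := by
    have h3 : ∀ t ∈ Finset.Ioc 0 T, (#(QQ a Q y t ∩ N) : ℝ)
        = ∑ n ∈ N, if (Q * t + (a + n)).Prime then (1 : ℝ) else 0 := by
      intro t _
      rw [h1, Finset.card_filter]
      push_cast
      apply Finset.sum_congr rfl
      intro n _
      have : a + Q * t + n = Q * t + (a + n) := by ring
      rw [this]
    rw [Finset.sum_congr rfl h3, Finset.sum_comm]
    apply Finset.sum_congr rfl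
    intro n _
    rw [Finset.card_filter]
    push_cast
    rfl
  rw [h2]
  calc ∑ n ∈ N, ((#{t ∈ Finset.Ioc 0 T | (Q * t + (a + n)).Prime} : ℕ) : ℝ)
      ≤ ∑ n ∈ N, 8 * T / (rho Q * Real.log T) :=
        Finset.sum_le_sum (fun n _ => brun_titchmarsh Q (a + n) T hQ hT)
    _ = #N * (8 * T / (rho Q * Real.log T)) := by rw [Finset.sum_const, nsmul_eq_mul]

/-- Markov's inequality for counting functions -/
lemma C1_markov (S : Finset ℕ) (f : ℕ → ℝ) (hf : ∀ t ∈ S, 0 ≤ f t) (c : ℝ)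
    (P : ℕ → Prop) [DecidablePred P] (hP : ∀ t ∈ S, P t → c ≤ f t) :
    c * ((#{t ∈ S | P t} : ℕ) : ℝ) ≤ ∑ t ∈ S, f t := by
  calc c * ((#{t ∈ S | P t} : ℕ) : ℝ) = ∑ t ∈ S with P t, c := by
        rw [Finset.sum_const, nsmul_eq_mul, mul_comm]
    _ ≤ ∑ t ∈ S with P t, f t := by
        apply Finset.sum_le_sum
        intro t ht
        rw [Finset.mem_filter] at ht
        exact hP t ht.1 ht.2
    _ ≤ ∑ t ∈ S, f t :=
        Finset.sum_le_sum_of_subset_of_nonneg (Finset.filter_subset _ _)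
          (fun t ht _ => hf t ht)

/-- C1b. Markov: `k #{t : k < #(QQ ∩ N)} ≤ ∑_t #(QQ ∩ N) ≤ 8 #N T / (rho Q log T) ≤ δ k T`. -/
lemma card_F1_le (a Q y T k : ℕ) (hQ : 1 ≤ Q) (hT : 2 ≤ T) (hk : 1 ≤ k) (δ : ℝ) (N : Finset ℕ)
    (hN : N ⊆ Finset.Ioc 0 (2 * y)) (hcard : 8 * (#N : ℝ) ≤ δ * k * rho Q * Real.log T) :
    ((#{t ∈ Finset.Ioc 0 T | k < #(QQ a Q y t ∩ N)} : ℕ) : ℝ) ≤ δ * T := by
  have hkpos : (0 : ℝ) < k := by exact_mod_cast hk
  have hlogT : 0 < Real.log T := Real.log_pos (by exact_mod_cast hT)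
  have hrho := rho_pos Q
  have h1 := C1_markov (Finset.Ioc 0 T) (fun t => (#(QQ a Q y t ∩ N) : ℝ))
    (fun t _ => Nat.cast_nonneg _) (k : ℝ) (fun t => k < #(QQ a Q y t ∩ N))
    (fun t _ h => by exact_mod_cast h.le)
  have h2 := h1.trans (sum_card_inter_le a Q y T hQ hT N hN)
  have h3 : (#N : ℝ) * (8 * T / (rho Q * Real.log T)) ≤ k * (δ * T) := by
    rw [← mul_div_assoc, div_le_iff₀ (by positivity)]
    have hT0 : (0 : ℝ) ≤ T := Nat.cast_nonneg T
    calc (#N : ℝ) * (8 * T) = (8 * (#N : ℝ)) * T := by ring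
      _ ≤ (δ * k * rho Q * Real.log T) * T := mul_le_mul_of_nonneg_right hcard hT0
      _ = k * (δ * T) * (rho Q * Real.log T) := by ring
  exact le_of_mul_le_mul_left (h2.trans h3) hkpos

/-- C1c. As C1b with `k = 1`: `#{t : 1 ≤ #(QQ ∩ E)} ≤ ∑_t #(QQ ∩ E)`. -/
lemma card_F2_le (a Q y T : ℕ) (hQ : 1 ≤ Q) (hT : 2 ≤ T) (δ : ℝ) (E : Finset ℕ)
    (hE : E ⊆ Finset.Ioc 0 (2 * y)) (hcard : 8 * (#E : ℝ) ≤ δ * rho Q * Real.log T) :
    ((#{t ∈ Finset.Ioc 0 T | (QQ a Q y t ∩ E).Nonempty} : ℕ) : ℝ) ≤ δ * T := by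
  have hlogT : 0 < Real.log T := Real.log_pos (by exact_mod_cast hT)
  have hrho := rho_pos Q
  have h1 := C1_markov (Finset.Ioc 0 T) (fun t => (#(QQ a Q y t ∩ E) : ℝ))
    (fun t _ => Nat.cast_nonneg _) (1 : ℝ) (fun t => (QQ a Q y t ∩ E).Nonempty)
    (fun t _ h => by exact_mod_cast h.card_pos)
  have h2 := h1.trans (sum_card_inter_le a Q y T hQ hT E hE)
  rw [one_mul] at h2
  refine h2.trans ?_
  rw [← mul_div_assoc, div_le_iff₀ (by positivity)]
  have hT0 : (0 : ℝ) ≤ T := Nat.cast_nonneg T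
  calc (#E : ℝ) * (8 * T) = (8 * (#E : ℝ)) * T := by ring
    _ ≤ (δ * rho Q * Real.log T) * T := mul_le_mul_of_nonneg_right hcard hT0
    _ = δ * T * (rho Q * Real.log T) := by ring

/-- C1d. `sum_card_inter_le` with `N = (0, 2y]`: `(log y)^8 #{…} ≤ 2y * 8T / (rho Q log T)`, where
`rho Q ≥ rho (primProd (2y)) ≥ c₀ / log (2y)` (`rho_le_of_primeFactors_subset`,
`exists_rho_primProd_ge`) and `y ≤ (log y)^4 log T`; so `#{…} ≤ 16 log(2y) (log y)^(-4) T / c₀ ≤ T / log y`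
for large `y`. -/
lemma card_F3_le : ∃ y₀ : ℕ, ∀ y : ℕ, y₀ ≤ y → ∀ a Q T : ℕ, 1 ≤ Q → 2 ≤ T →
    (∀ p : ℕ, p.Prime → p ∣ Q → p ≤ 2 * y) → (y : ℝ) ≤ (Real.log y) ^ 4 * Real.log T →
    ((#{t ∈ Finset.Ioc 0 T | (Real.log y) ^ 8 < (#(QQ a Q y t) : ℝ)} : ℕ) : ℝ)
      ≤ 1 / Real.log y * T := by
  obtain ⟨c, hc, hrho⟩ := exists_rho_primProd_ge
  have hlim : Tendsto (fun y : ℕ => Real.log y) atTop atTop :=
    Real.tendsto_log_atTop.comp tendsto_natCast_atTop_atTop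
  obtain ⟨y₀, hy₀⟩ := Filter.eventually_atTop.mp
    ((hlim.eventually_ge_atTop (32 / c + 1)).and (eventually_ge_atTop 2))
  refine ⟨y₀, ?_⟩
  intro y hy a Q T hQ hT hQp hyT
  obtain ⟨hL, hy2⟩ := hy₀ y hy
  have hL1 : 1 ≤ Real.log y := by
    have : 0 < 32 / c := by positivity
    linarith
  have hLc : 32 ≤ c * Real.log y := by
    have : 32 / c ≤ Real.log y := by linarith
    rw [div_le_iff₀ hc] at this
    linarith
  set L : ℝ := Real.log y with hLdef
  have hLpos : 0 < L := by linarith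
  have hypos : (0 : ℝ) < y := by exact_mod_cast (by omega : 0 < y)
  have hlogT : 0 < Real.log T := Real.log_pos (by exact_mod_cast hT)
  have hT0 : (0 : ℝ) ≤ T := Nat.cast_nonneg T
  have hrQ := rho_pos Q
  -- lower bound for rho Q
  have hrQ2 : c / (2 * L) ≤ rho Q := by
    have h1 : rho (primProd (2 * y)) ≤ rho Q := by
      apply rho_le_of_primeFactors_subset
      intro p hp
      rw [primeFactors_primProd, mem_prms]
      have hp' := Nat.prime_of_mem_primeFactors hp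
      exact ⟨hQp p hp' (Nat.dvd_of_mem_primeFactors hp), hp'⟩
    have h2 := hrho (2 * y) (by omega)
    have h3 : Real.log ((2 * y : ℕ) : ℝ) ≤ 2 * L := by
      push_cast
      rw [Real.log_mul (by norm_num) hypos.ne']
      have h4 : Real.log 2 ≤ L := by
        apply Real.log_le_log (by norm_num)
        exact_mod_cast hy2
      linarith
    have h5 : 0 < Real.log ((2 * y : ℕ) : ℝ) := by
      apply Real.log_pos
      exact_mod_cast (by omega : 1 < 2 * y)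
    calc c / (2 * L) ≤ c / Real.log ((2 * y : ℕ) : ℝ) :=
          div_le_div_of_nonneg_left hc.le h5 h3
      _ ≤ rho (primProd (2 * y)) := h2
      _ ≤ rho Q := h1
  have h1 := C1_markov (Finset.Ioc 0 T)
    (fun t => (#(QQ a Q y t ∩ Finset.Ioc 0 (2 * y)) : ℝ)) (fun t _ => Nat.cast_nonneg _) (L ^ 8)
    (fun t => L ^ 8 < (#(QQ a Q y t) : ℝ)) (fun t _ h => by
      have : QQ a Q y t ∩ Finset.Ioc 0 (2 * y) = QQ a Q y t := by
        apply Finset.inter_eq_left.mpr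
        unfold QQ
        exact Finset.filter_subset _ _
      rw [this]
      exact h.le)
  have h2 := h1.trans (sum_card_inter_le a Q y T hQ hT _ (Finset.Subset.refl _))
  rw [Nat.card_Ioc, Nat.sub_zero] at h2
  push_cast at h2
  have h3 : (2 * (y : ℝ)) * (8 * T / (rho Q * Real.log T)) ≤ L ^ 8 * (1 / L * T) := by
    have h4 : (2 * (y : ℝ)) * (8 * T / (rho Q * Real.log T))
        ≤ (2 * (L ^ 4 * Real.log T)) * (8 * T / (c / (2 * L) * Real.log T)) := by
      apply mul_le_mul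
      · linarith
      · apply div_le_div_of_nonneg_left (by positivity) (by positivity)
        exact mul_le_mul_of_nonneg_right hrQ2 hlogT.le
      · positivity
      · positivity
    refine h4.trans ?_
    have h5 : (2 * (L ^ 4 * Real.log T)) * (8 * T / (c / (2 * L) * Real.log T))
        = 32 / c * L ^ 5 * T := by
      field_simp
      norm_num
    rw [h5]
    have h6 : L ^ 8 * (1 / L * T) = L ^ 7 * T := by
      field_simp
    rw [h6]
    apply mul_le_mul_of_nonneg_right _ hT0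
    have h7 : 32 / c ≤ L := by linarith
    calc 32 / c * L ^ 5 ≤ L * L ^ 5 := mul_le_mul_of_nonneg_right h7 (by positivity)
      _ = L ^ 6 := by ring
      _ ≤ L ^ 7 := pow_le_pow_right₀ hL1 (by norm_num)
  exact le_of_mul_le_mul_left (h2.trans h3) (by positivity)

end Pool.Agent.Lib.MP_bae66e_nt.TL
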