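import Pool.Agent.Lib.MP_bae66e_nt.TL.B4a

/-!
# C2a: union bound over the bad lists
-/

set_option autoImplicit false

open Finset Nat Filter

namespace Pool.Agent.Lib.MP_bae66e_nt.TL

/-- the elements of `U` not hit by the elements of `A` -/
def restF (H : ℕ → Finset ℕ) (U A : Finset ℕ) : Finset ℕ := {u ∈ U | ∀ n ∈ A, u ∉ H n}

/-- C2a. Union bound over the bad lists: a set `A ⊆ (0, 2y]` with `#A = j ≤ k`, all `a + Q t + n`
prime and `#(restF H U A) < B` gives the list `l = A.sort (· ≤ ·) ∈ Lst (0, 2y] j` with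
`#(rest H U l) < B`, `l.Nodup`, `l.toFinset = A`. For each such list the number of `t` is at most
`X j` (for `j = 0` at most `T = X 0`). -/
lemma card_union_bad_le (a Q y T k B : ℕ) (H : ℕ → Finset ℕ) (U : Finset ℕ) (X : ℕ → ℝ)
    (hX0 : ∀ j, 0 ≤ X j)
    (hX : ∀ A : Finset ℕ, A ⊆ Finset.Ioc 0 (2 * y) → #A ≤ k →
      ((#{t ∈ Finset.Ioc 0 T | ∀ n ∈ A, (a + Q * t + n).Prime} : ℕ) : ℝ) ≤ X (#A)) :
    ((#{t ∈ Finset.Ioc 0 T | ∃ A ∈ (Finset.Ioc 0 (2 * y)).powerset, #A ≤ k ∧
        (∀ n ∈ A, (a + Q * t + n).Prime) ∧ #(restF H U A) < B} : ℕ) : ℝ)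
      ≤ ∑ j ∈ Finset.range (k + 1), X j * badN H (Finset.Ioc 0 (2 * y)) B U j := by
  set N : Finset ℕ := Finset.Ioc 0 (2 * y) with hN
  set F : ℕ → Finset (List ℕ) := fun j => {l ∈ Lst N j | #(rest H U l) < B} with hF
  have hcover : {t ∈ Finset.Ioc 0 T | ∃ A ∈ N.powerset, #A ≤ k ∧
        (∀ n ∈ A, (a + Q * t + n).Prime) ∧ #(restF H U A) < B}
      ⊆ (Finset.range (k + 1)).biUnion (fun j => ((F j).filter List.Nodup).biUnion (fun l =>
        {t ∈ Finset.Ioc 0 T | ∀ n ∈ l.toFinset, (a + Q * t + n).Prime})) := by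
    intro t ht
    rw [Finset.mem_filter] at ht
    obtain ⟨htT, A, hA, hAk, hAp, hAr⟩ := ht
    rw [Finset.mem_powerset] at hA
    rw [Finset.mem_biUnion]
    refine ⟨#A, Finset.mem_range.mpr (by omega), ?_⟩
    rw [Finset.mem_biUnion]
    refine ⟨A.toList, ?_, ?_⟩
    · rw [Finset.mem_filter, hF]
      refine ⟨?_, Finset.nodup_toList A⟩
      simp only
      rw [Finset.mem_filter, mem_Lst]
      refine ⟨⟨Finset.length_toList A, fun n hn => hA (Finset.mem_toList.mp hn)⟩, ?_⟩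
      have : rest H U A.toList = restF H U A := by
        ext u
        rw [mem_rest]
        unfold restF
        rw [Finset.mem_filter]
        simp only [Finset.mem_toList]
      rw [this]
      exact hAr
    · rw [Finset.mem_filter]
      refine ⟨htT, fun n hn => hAp n ?_⟩
      rw [List.mem_toFinset, Finset.mem_toList] at hn
      exact hn
  have h1 := (Finset.card_le_card hcover).trans Finset.card_biUnion_le
  have h2 : ((#{t ∈ Finset.Ioc 0 T | ∃ A ∈ N.powerset, #A ≤ k ∧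
        (∀ n ∈ A, (a + Q * t + n).Prime) ∧ #(restF H U A) < B} : ℕ) : ℝ)
      ≤ ∑ j ∈ Finset.range (k + 1), ((#(((F j).filter List.Nodup).biUnion (fun l =>
        {t ∈ Finset.Ioc 0 T | ∀ n ∈ l.toFinset, (a + Q * t + n).Prime})) : ℕ) : ℝ) := by
    exact_mod_cast h1
  refine h2.trans (Finset.sum_le_sum ?_)
  intro j hj
  rw [Finset.mem_range] at hj
  have h3 : ((#(((F j).filter List.Nodup).biUnion (fun l =>
        {t ∈ Finset.Ioc 0 T | ∀ n ∈ l.toFinset, (a + Q * t + n).Prime})) : ℕ) : ℝ)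
      ≤ ∑ l ∈ (F j).filter List.Nodup,
        ((#{t ∈ Finset.Ioc 0 T | ∀ n ∈ l.toFinset, (a + Q * t + n).Prime} : ℕ) : ℝ) := by
    exact_mod_cast Finset.card_biUnion_le
  refine h3.trans ?_
  calc ∑ l ∈ (F j).filter List.Nodup,
        ((#{t ∈ Finset.Ioc 0 T | ∀ n ∈ l.toFinset, (a + Q * t + n).Prime} : ℕ) : ℝ)
      ≤ ∑ l ∈ (F j).filter List.Nodup, X j := by
        apply Finset.sum_le_sum
        intro l hl
        rw [Finset.mem_filter, hF] at hl
        simp only at hl
        rw [Finset.mem_filter, mem_Lst] at hl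
        obtain ⟨⟨⟨hlen, hmem⟩, _⟩, hnd⟩ := hl
        have h4 : #(l.toFinset) = j := by
          rw [List.toFinset_card_of_nodup hnd, hlen]
        have h5 := hX l.toFinset (fun n hn => hmem n (List.mem_toFinset.mp hn)) (by omega)
        rw [h4] at h5
        exact h5
    _ = (#((F j).filter List.Nodup) : ℝ) * X j := by rw [Finset.sum_const, nsmul_eq_mul]
    _ ≤ (badN H N B U j : ℝ) * X j := by
        apply mul_le_mul_of_nonneg_right _ (hX0 j)
        have : #((F j).filter List.Nodup) ≤ badN H N B U j := Finset.card_filter_le _ _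
        exact_mod_cast this
    _ = X j * badN H N B U j := mul_comm _ _

end Pool.Agent.Lib.MP_bae66e_nt.TL
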