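import Pool.Agent.Lib.MP_bae66e_nt.TL.P1

/-!
# C2b: arithmetic for the fourth set
-/

set_option autoImplicit false

open Finset Nat Filter

namespace Pool.Agent.Lib.MP_bae66e_nt.TL

/-- C2b. The arithmetic: `(C₅ y)^j (C₂ j log y / log T)^j ≤ ((log y)^8)^j` for `j ≤ k ≤ (log y)^2`
(`y ≤ (log y)^4 log T`, `C₂ C₅ ≤ log y`), `≤ exp (8 k loglog y) ≤ exp (8 c₃ θ L²)` as
`k (loglog y)^3 ≤ c₃ θ (log y)^2`; with `c₃ ≤ c₂ / 16` the sum over `j ≤ k` is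
`≤ (k + 1) exp (-(c₂ θ L² / 2)) ≤ 1 / log y` for `y ≥ y₀(θ)` (`L² / log log y → ∞`). -/
lemma arith_F4 (C₂ C₅ c₂ : ℝ) (hC₂ : 1 ≤ C₂) (hC₅ : 1 ≤ C₅) (hc₂ : 0 < c₂) (θ : ℝ) (hθ : 0 < θ)
    (hθ1 : θ ≤ 1) : ∃ y₀ : ℕ, ∀ y : ℕ, y₀ ≤ y → ∀ k : ℕ, ∀ lT : ℝ, 0 < lT →
    (y : ℝ) ≤ (Real.log y) ^ 4 * lT →
    (k : ℝ) * Real.log (Real.log y) ^ 3 ≤ c₂ / 16 * θ * (Real.log y) ^ 2 →
    ∑ j ∈ Finset.range (k + 1), (C₂ * j * Real.log y / lT) ^ j *
        ((C₅ * y) ^ j * Real.exp (-(c₂ * θ * LL y ^ 2))) ≤ 1 / Real.log y := by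
  have hlog3 : ∀ᶠ x : ℝ in atTop, Real.log x ^ 3 ≤ c₂ * θ / 8 * x := by
    have h := (Real.isLittleO_pow_log_id_atTop (n := 3)).bound
      (show (0 : ℝ) < c₂ * θ / 8 by positivity)
    filter_upwards [h, eventually_ge_atTop (1 : ℝ)] with x hx hx1
    rw [id, Real.norm_of_nonneg (pow_nonneg (Real.log_nonneg hx1) 3),
      Real.norm_of_nonneg (by linarith)] at hx
    exact hx
  have h1 := tendsto_log_nat.eventually hlog3
  have h2 := tendsto_log_nat.eventually (eventually_ge_atTop (max 2 (C₂ * C₅)))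
  have h3 := tendsto_loglog_nat.eventually (eventually_ge_atTop (max 1 c₂))
  obtain ⟨y₀, hy₀⟩ := (h1.and (h2.and h3)).exists_forall_of_atTop
  refine ⟨y₀, fun y hy k lT hlT hyT hk => ?_⟩
  obtain ⟨a1, a2, a3⟩ := hy₀ y hy
  unfold LL
  have hy0 : (0 : ℝ) ≤ (y : ℝ) := Nat.cast_nonneg y
  generalize (y : ℝ) = yy at *
  generalize hYdef : Real.log yy = Y at *
  generalize hMdef : Real.log Y = M at *
  have hY2 : 2 ≤ Y := (le_max_left _ _).trans a2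
  have hYC : C₂ * C₅ ≤ Y := (le_max_right _ _).trans a2
  have hM1 : 1 ≤ M := (le_max_left _ _).trans a3
  have hMc : c₂ ≤ M := (le_max_right _ _).trans a3
  have hY0 : 0 < Y := by linarith
  have hM0 : 0 < M := by linarith
  have hM3 : M ≤ M ^ 3 := by nlinarith [sq_nonneg (M - 1)]
  have hcθ : c₂ * θ ≤ M ^ 3 := by nlinarith
  have hk0 : (0 : ℝ) ≤ (k : ℝ) := Nat.cast_nonneg k
  have hM30 : 0 < M ^ 3 := by positivity
  have hkY : (k : ℝ) ≤ Y ^ 2 := by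
    have h4 : (k : ℝ) * M ^ 3 ≤ Y ^ 2 * M ^ 3 := by
      calc (k : ℝ) * M ^ 3 ≤ c₂ / 16 * θ * Y ^ 2 := hk
        _ = (c₂ * θ) / 16 * Y ^ 2 := by ring
        _ ≤ (c₂ * θ) * Y ^ 2 := by
            apply mul_le_mul_of_nonneg_right _ (by positivity)
            have : 0 < c₂ * θ := by positivity
            linarith
        _ ≤ M ^ 3 * Y ^ 2 := mul_le_mul_of_nonneg_right hcθ (by positivity)
        _ = Y ^ 2 * M ^ 3 := by ring
    exact le_of_mul_le_mul_right h4 hM30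
  have hE0 : 0 < Real.exp (-(c₂ * θ * (Y / M) ^ 2)) := Real.exp_pos _
  have hY8 : (1 : ℝ) ≤ Y ^ 8 := one_le_pow₀ (by linarith)
  have hterm : ∀ j ∈ Finset.range (k + 1), (C₂ * j * Y / lT) ^ j *
        ((C₅ * yy) ^ j * Real.exp (-(c₂ * θ * (Y / M) ^ 2)))
        ≤ (Y ^ 8) ^ k * Real.exp (-(c₂ * θ * (Y / M) ^ 2)) := by
    intro j hj
    have hjk : j ≤ k := Nat.lt_succ_iff.mp (Finset.mem_range.mp hj)
    have hjkR : (j : ℝ) ≤ (k : ℝ) := by exact_mod_cast hjk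
    have hj0 : (0 : ℝ) ≤ (j : ℝ) := Nat.cast_nonneg j
    rw [← mul_assoc, ← mul_pow]
    apply mul_le_mul_of_nonneg_right _ hE0.le
    have hbase0 : 0 ≤ C₂ * j * Y / lT * (C₅ * yy) := by positivity
    have hbase : C₂ * j * Y / lT * (C₅ * yy) ≤ Y ^ 8 := by
      have h5 : yy / lT ≤ Y ^ 4 := by
        rw [div_le_iff₀ hlT]
        exact hyT
      calc C₂ * j * Y / lT * (C₅ * yy) = (C₂ * C₅) * (j * Y) * (yy / lT) := by ring
        _ ≤ Y * (Y ^ 2 * Y) * Y ^ 4 := by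
            apply mul_le_mul _ h5 (by positivity) (by positivity)
            apply mul_le_mul hYC _ (by positivity) hY0.le
            exact mul_le_mul_of_nonneg_right (hjkR.trans hkY) hY0.le
        _ = Y ^ 8 := by ring
    calc (C₂ * j * Y / lT * (C₅ * yy)) ^ j ≤ (Y ^ 8) ^ j := pow_le_pow_left₀ hbase0 hbase j
      _ ≤ (Y ^ 8) ^ k := pow_le_pow_right₀ hY8 hjk
  have hsum := Finset.sum_le_sum hterm
  rw [Finset.sum_const, Finset.card_range, nsmul_eq_mul] at hsum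
  refine hsum.trans ?_
  have hexpM : Real.exp M = Y := by
    rw [← hMdef]
    exact Real.exp_log hY0
  have hpow : (Y ^ 8) ^ k = Real.exp (8 * k * M) := by
    rw [← pow_mul, ← hexpM, ← Real.exp_nat_mul]
    congr 1
    push_cast
    ring
  have hexp1 : 8 * k * M ≤ c₂ * θ / 2 * (Y / M) ^ 2 := by
    have h6 : (Y / M) ^ 2 = Y ^ 2 / M ^ 2 := div_pow _ _ _
    rw [h6, ← mul_div_assoc, le_div_iff₀ (by positivity)]
    calc 8 * k * M * M ^ 2 = 8 * (k * M ^ 3) := by ring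
      _ ≤ 8 * (c₂ / 16 * θ * Y ^ 2) := by linarith
      _ = c₂ * θ / 2 * Y ^ 2 := by ring
  have hexp2 : 4 * M ≤ c₂ * θ / 2 * (Y / M) ^ 2 := by
    have h6 : (Y / M) ^ 2 = Y ^ 2 / M ^ 2 := div_pow _ _ _
    rw [h6, ← mul_div_assoc, le_div_iff₀ (by positivity)]
    have h7 : Y ≤ Y ^ 2 := by nlinarith
    have h8 : 0 < c₂ * θ := by positivity
    calc 4 * M * M ^ 2 = 4 * M ^ 3 := by ring
      _ ≤ 4 * (c₂ * θ / 8 * Y) := by linarith
      _ = c₂ * θ / 2 * Y := by ring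
      _ ≤ c₂ * θ / 2 * Y ^ 2 := mul_le_mul_of_nonneg_left h7 (by positivity)
  have hfin : Real.exp (8 * k * M) * Real.exp (-(c₂ * θ * (Y / M) ^ 2)) ≤ 1 / Y ^ 4 := by
    rw [← Real.exp_add]
    have h9 : (1 : ℝ) / Y ^ 4 = Real.exp (-(4 * M)) := by
      rw [Real.exp_neg, one_div]
      congr 1
      rw [← hexpM, ← Real.exp_nat_mul]
      congr 1
    rw [h9]
    apply Real.exp_le_exp.mpr
    linarith
  rw [hpow]
  have hk1 : ((k + 1 : ℕ) : ℝ) ≤ Y ^ 3 := by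
    push_cast
    nlinarith
  have hk10 : (0 : ℝ) ≤ ((k + 1 : ℕ) : ℝ) := Nat.cast_nonneg _
  calc ((k + 1 : ℕ) : ℝ) * (Real.exp (8 * k * M) * Real.exp (-(c₂ * θ * (Y / M) ^ 2)))
      ≤ Y ^ 3 * (1 / Y ^ 4) := mul_le_mul hk1 hfin (by positivity) (by positivity)
    _ = 1 / Y := by field_simp

end Pool.Agent.Lib.MP_bae66e_nt.TL
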