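import Pool.Agent.Lib.MP_bae66e_nt.TL.N2
import Pool.Agent.Lib.MP_bae66e_nt.TL.B5
import Pool.Agent.Lib.MP_bae66e_nt.TL.C2a
import Pool.Agent.Lib.MP_bae66e_nt.TL.C2b

/-!
# C2: the fourth exceptional set
-/

set_option autoImplicit false

open Finset Nat Filter

namespace Pool.Agent.Lib.MP_bae66e_nt.TL

/-- C2. `card_union_bad_le` with `X j = T (C₂ j log y / log T)^j` (`large_sieve` for `j ≥ 1`; the
hypothesis `C₂ j log y ≤ log T` holds as `j ≤ k ≤ (log y)^2` (for `c₃ ≤ 1`) and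
`log T ≥ y / (log y)^4`), `bad_count`, `arith_F4`. `c₃ = min 1 (c₂ / 16)`. -/
theorem card_F4_le : ∃ c₃ : ℝ, 0 < c₃ ∧ c₃ ≤ 1 ∧ ∀ θ : ℝ, 0 < θ → θ ≤ 1 →
    ∃ y₀ : ℕ, ∀ y : ℕ, y₀ ≤ y → ∀ a Q T k b : ℕ, 1 ≤ Q →
    (∀ p : ℕ, p.Prime → p ∣ Q → p ≤ 2 * y) → (y : ℝ) ≤ (Real.log y) ^ 4 * Real.log T →
    (k : ℝ) * Real.log (Real.log y) ^ 3 ≤ c₃ * θ * (Real.log y) ^ 2 →
    ((#{t ∈ Finset.Ioc 0 T | ∃ A ∈ (Finset.Ioc 0 (2 * y)).powerset, #A ≤ k ∧
        (∀ n ∈ A, (a + Q * t + n).Prime) ∧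
        #(restF (hitS y (w2 y)) (apU y (Zt θ y) (primProd (w1 θ y)) b) A) < Bt θ y} : ℕ) : ℝ)
      ≤ 1 / Real.log y * T := by
  obtain ⟨C₂, hC₂, y₂, hlarge⟩ := large_sieve
  obtain ⟨C₅, c₂, hC₅, hc₂, hbad⟩ := bad_count
  refine ⟨min 1 (c₂ / 16), lt_min one_pos (by positivity), min_le_left _ _, ?_⟩
  intro θ hθ hθ1
  obtain ⟨y₅, hbad'⟩ := hbad θ hθ hθ1
  obtain ⟨y₆, harith⟩ := arith_F4 C₂ C₅ c₂ hC₂ hC₅ hc₂ θ hθ hθ1
  have hlim : ∀ᶠ y : ℕ in atTop, C₂ * Real.log (y : ℝ) ^ (7 : ℝ) ≤ (y : ℝ) := by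
    have hpos : (0 : ℝ) < 1 / C₂ := by positivity
    have h := (isLittleO_log_rpow_rpow_atTop 7 one_pos).def hpos
    have h' : ∀ᶠ x : ℝ in atTop, C₂ * Real.log x ^ (7 : ℝ) ≤ x := by
      filter_upwards [h, eventually_ge_atTop 1] with x hx hx1
      rw [Real.rpow_one, Real.norm_eq_abs, Real.norm_eq_abs,
        abs_of_nonneg (by linarith : (0 : ℝ) ≤ x)] at hx
      have h2 := (le_abs_self _).trans hx
      calc C₂ * Real.log x ^ (7 : ℝ) ≤ C₂ * (1 / C₂ * x) :=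
            mul_le_mul_of_nonneg_left h2 (by linarith)
        _ = x := by field_simp
    exact tendsto_natCast_atTop_atTop.eventually h'
  obtain ⟨y₇, hy₇⟩ := eventually_atTop.1 (hlim.and
    ((tendsto_log_nat.eventually_ge_atTop 1).and
      ((tendsto_loglog_nat.eventually_ge_atTop 1).and (eventually_ge_atTop 2))))
  refine ⟨max (max y₂ y₅) (max y₆ y₇), ?_⟩
  intro y hy a Q T k b hQ hQp hyT hk
  have hy2 : y₂ ≤ y := (le_max_left _ _).trans ((le_max_left _ _).trans hy)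
  have hy5 : y₅ ≤ y := (le_max_right _ _).trans ((le_max_left _ _).trans hy)
  have hy6 : y₆ ≤ y := (le_max_left _ _).trans ((le_max_right _ _).trans hy)
  have hy7 : y₇ ≤ y := (le_max_right _ _).trans ((le_max_right _ _).trans hy)
  obtain ⟨e1, e2, e3, e4⟩ := hy₇ y hy7
  have hypos : (0 : ℝ) < y := by exact_mod_cast (by omega : 0 < y)
  have hL4 : 0 < Real.log (y : ℝ) ^ 4 := by positivity
  have hlT : 0 < Real.log T := by
    by_contra hcon
    push Not at hcon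
    have : Real.log (y : ℝ) ^ 4 * Real.log T ≤ 0 :=
      mul_nonpos_of_nonneg_of_nonpos hL4.le hcon
    linarith
  have hT0 : (0 : ℝ) ≤ T := Nat.cast_nonneg T
  -- `k ≤ (log y)^2`
  have hk2 : (k : ℝ) ≤ Real.log (y : ℝ) ^ 2 := by
    have h1 : (k : ℝ) ≤ k * Real.log (Real.log y) ^ 3 := by
      have : (1 : ℝ) ≤ Real.log (Real.log y) ^ 3 := one_le_pow₀ e3
      nlinarith [Nat.cast_nonneg (α := ℝ) k]
    have h2 : min 1 (c₂ / 16) * θ * Real.log (y : ℝ) ^ 2 ≤ Real.log (y : ℝ) ^ 2 := by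
      have h3 : min 1 (c₂ / 16) * θ ≤ 1 := by
        calc min 1 (c₂ / 16) * θ ≤ 1 * 1 :=
              mul_le_mul (min_le_left _ _) hθ1 hθ.le (by norm_num)
          _ = 1 := one_mul 1
      nlinarith [sq_nonneg (Real.log (y : ℝ))]
    linarith
  have hk3 : (k : ℝ) * Real.log (Real.log y) ^ 3 ≤ c₂ / 16 * θ * Real.log (y : ℝ) ^ 2 := by
    refine hk.trans ?_
    apply mul_le_mul_of_nonneg_right _ (sq_nonneg _)
    exact mul_le_mul_of_nonneg_right (min_le_right _ _) hθ.le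
  -- `C₂ (log y)^3 ≤ log T`
  have hbig : C₂ * Real.log (y : ℝ) ^ 2 * Real.log y ≤ Real.log T := by
    have h7 : Real.log (y : ℝ) ^ (7 : ℝ) = Real.log (y : ℝ) ^ 7 := by
      rw [← Real.rpow_natCast]
      norm_num
    rw [h7] at e1
    have h1 : Real.log (y : ℝ) ^ 4 * (C₂ * Real.log (y : ℝ) ^ 2 * Real.log y)
        ≤ Real.log (y : ℝ) ^ 4 * Real.log T := by
      have h2 : Real.log (y : ℝ) ^ 4 * (C₂ * Real.log (y : ℝ) ^ 2 * Real.log y)
          = C₂ * Real.log (y : ℝ) ^ 7 := by ring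
      rw [h2]
      exact e1.trans hyT
    exact le_of_mul_le_mul_left h1 hL4
  set X : ℕ → ℝ := fun j => T * (C₂ * j * Real.log y / Real.log T) ^ j with hXdef
  have hX0 : ∀ j, 0 ≤ X j := by
    intro j
    simp only [hXdef]
    positivity
  have hX : ∀ A : Finset ℕ, A ⊆ Finset.Ioc 0 (2 * y) → #A ≤ k →
      ((#{t ∈ Finset.Ioc 0 T | ∀ n ∈ A, (a + Q * t + n).Prime} : ℕ) : ℝ) ≤ X (#A) := by
    intro A hA hAk
    rcases Nat.eq_zero_or_pos (#A) with h0 | h1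
    · simp only [hXdef]
      rw [h0, pow_zero, mul_one]
      have := Finset.card_filter_le (Finset.Ioc 0 T) (fun t => ∀ n ∈ A, (a + Q * t + n).Prime)
      rw [Nat.card_Ioc, Nat.sub_zero] at this
      exact_mod_cast this
    · refine hlarge y hy2 a Q T hQ hQp A hA h1 ?_
      have h2 : (#A : ℝ) ≤ Real.log (y : ℝ) ^ 2 := by
        refine le_trans ?_ hk2
        exact_mod_cast hAk
      calc C₂ * #A * Real.log y ≤ C₂ * Real.log (y : ℝ) ^ 2 * Real.log y := by gcongr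
        _ ≤ Real.log T := hbig
  refine (card_union_bad_le a Q y T k (Bt θ y) (hitS y (w2 y))
    (apU y (Zt θ y) (primProd (w1 θ y)) b) X hX0 hX).trans ?_
  have h1 : ∀ j ∈ Finset.range (k + 1), X j * badN (hitS y (w2 y)) (Finset.Ioc 0 (2 * y)) (Bt θ y)
        (apU y (Zt θ y) (primProd (w1 θ y)) b) j
      ≤ T * ((C₂ * j * Real.log y / Real.log T) ^ j *
        ((C₅ * y) ^ j * Real.exp (-(c₂ * θ * LL y ^ 2)))) := by
    intro j hj
    rw [Finset.mem_range] at hj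
    have h2 : (j : ℝ) ≤ Real.log (y : ℝ) ^ 2 := by
      refine le_trans ?_ hk2
      exact_mod_cast (by omega : j ≤ k)
    have h3 := hbad' y hy5 b j h2
    calc X j * badN (hitS y (w2 y)) (Finset.Ioc 0 (2 * y)) (Bt θ y)
          (apU y (Zt θ y) (primProd (w1 θ y)) b) j
        ≤ X j * ((C₅ * y) ^ j * Real.exp (-(c₂ * θ * LL y ^ 2))) :=
          mul_le_mul_of_nonneg_left h3 (hX0 j)
      _ = _ := by simp only [hXdef]; ring
  refine (Finset.sum_le_sum h1).trans ?_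
  rw [← Finset.mul_sum]
  have h2 := harith y hy6 k (Real.log T) hlT hyT hk3
  calc (T : ℝ) * ∑ j ∈ Finset.range (k + 1), (C₂ * j * Real.log y / Real.log T) ^ j *
        ((C₅ * y) ^ j * Real.exp (-(c₂ * θ * LL y ^ 2)))
      ≤ T * (1 / Real.log y) := mul_le_mul_of_nonneg_left h2 hT0
    _ = 1 / Real.log y * T := mul_comm _ _

end Pool.Agent.Lib.MP_bae66e_nt.TL
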