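import Pool.Agent.Lib.MP_bae66e_nt.TL.Defs

/-!
# P1: parameters
-/

set_option autoImplicit false

open Finset Nat Filter

namespace Pool.Agent.Lib.MP_bae66e_nt.TL

/-- P0. `log y → ∞`, `log log y → ∞`, `LL y → ∞` along the naturals (`Real.isLittleO_log_id_atTop`
composed with `Real.log`). -/
lemma tendsto_log_nat : Tendsto (fun y : ℕ => Real.log y) atTop atTop :=
  Real.tendsto_log_atTop.comp tendsto_natCast_atTop_atTop

lemma tendsto_loglog_nat : Tendsto (fun y : ℕ => Real.log (Real.log y)) atTop atTop :=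
  Real.tendsto_log_atTop.comp tendsto_log_nat

lemma tendsto_LL : Tendsto LL atTop atTop := by
  have h : Tendsto (fun x : ℝ => Real.log x / x) atTop (nhds 0) :=
    Real.isLittleO_log_id_atTop.tendsto_div_nhds_zero
  have hpos : ∀ᶠ x : ℝ in atTop, Real.log x / x ∈ Set.Ioi (0 : ℝ) := by
    filter_upwards [eventually_gt_atTop 1] with x hx
    exact div_pos (Real.log_pos hx) (by linarith)
  have h2 : Tendsto (fun x : ℝ => Real.log x / x) atTop (nhdsWithin 0 (Set.Ioi 0)) :=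
    tendsto_nhdsWithin_iff.2 ⟨h, hpos⟩
  have h3 : Tendsto (fun x : ℝ => x / Real.log x) atTop atTop := by
    refine h2.inv_tendsto_nhdsGT_zero.congr fun x => ?_
    rw [Pi.inv_apply, inv_div]
  exact h3.comp tendsto_log_nat

/-- P1. From `card_modEq_ge` (in `Final.lean`). -/
lemma card_apU_ge (y Z W b : ℕ) (hW : 0 < W) : (Z : ℝ) / W - 1 ≤ (#(apU y Z W b) : ℝ) := by
  have h := card_modEq_ge y (y + Z) W b hW (Nat.le_add_right _ _)
  have h2 : (((y + Z : ℕ) : ℝ) - y) / W - 1 = (Z : ℝ) / W - 1 := by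
    push_cast
    ring
  rw [h2] at h
  exact h

/-- P4. For fixed `θ ∈ (0, 1]` and large `y`: `Zt θ y ≤ y`, `2 LL y ≤ Bt θ y`, `1 ≤ Bt θ y`, and
`y^(θ/4) * Bt θ y ≤ Zt θ y / W - 1` for all `1 ≤ W ≤ y^(θ/4)`
(`Zt / W ≥ (y^θ - 1) / y^(θ/4) ≥ y^(3θ/4) - 1`, and `y^(θ/4) * Bt ≤ y^(θ/2) ≤ y^(3θ/4) - 2`). -/
lemma window_params (θ : ℝ) (hθ : 0 < θ) (hθ1 : θ ≤ 1) : ∃ y₀ : ℕ, ∀ y : ℕ, y₀ ≤ y →
    Zt θ y ≤ y ∧ 2 * LL y ≤ Bt θ y ∧ 1 ≤ Bt θ y ∧
    ∀ W : ℕ, 1 ≤ W → (W : ℝ) ≤ (y : ℝ) ^ (θ / 4) →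
      (y : ℝ) ^ (θ / 4) * Bt θ y ≤ (Zt θ y : ℝ) / W - 1 := by
  have hθ4 : 0 < θ / 4 := by positivity
  have h1 : ∀ᶠ y : ℕ in atTop, 1 ≤ Real.log (Real.log y) := tendsto_loglog_nat.eventually_ge_atTop 1
  have h2 : ∀ᶠ y : ℕ in atTop, 0 ≤ Real.log (y : ℝ) := tendsto_log_nat.eventually_ge_atTop 0
  have h3 : ∀ᶠ x : ℝ in atTop, Real.log x ≤ (1 / 4) * x ^ (θ / 4) := by
    have h := (isLittleO_log_rpow_atTop hθ4).def (show (0 : ℝ) < 1 / 4 by norm_num)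
    filter_upwards [h, eventually_ge_atTop 0] with x hx hx0
    rw [Real.norm_eq_abs, Real.norm_eq_abs, abs_of_nonneg (Real.rpow_nonneg hx0 _)] at hx
    exact (le_abs_self _).trans hx
  have h3' : ∀ᶠ y : ℕ in atTop, Real.log (y : ℝ) ≤ (1 / 4) * (y : ℝ) ^ (θ / 4) :=
    tendsto_natCast_atTop_atTop.eventually h3
  have h4 : ∀ᶠ y : ℕ in atTop, (2 : ℝ) ≤ (y : ℝ) ^ (θ / 4) :=
    ((tendsto_rpow_atTop hθ4).comp tendsto_natCast_atTop_atTop).eventually_ge_atTop 2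
  obtain ⟨y₀, hy₀⟩ := eventually_atTop.1 (h1.and (h2.and (h3'.and (h4.and
    (eventually_ge_atTop 1)))))
  refine ⟨y₀, fun y hy => ?_⟩
  obtain ⟨e1, e2, e3, e4, e5⟩ := hy₀ y hy
  have hy1 : (1 : ℝ) ≤ y := by exact_mod_cast e5
  have hy0 : (0 : ℝ) ≤ y := by linarith
  set t := (y : ℝ) ^ (θ / 4) with ht
  have ht4 : (y : ℝ) ^ θ = t ^ 4 := by
    rw [ht, ← Real.rpow_natCast, ← Real.rpow_mul hy0]
    congr 1
    push_cast
    ring
  have hB : (Bt θ y : ℝ) ≤ t := Nat.floor_le (by positivity)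
  have hB2 : t - 1 < (Bt θ y : ℝ) := by
    have := Nat.lt_floor_add_one t
    unfold Bt
    rw [← ht]
    linarith
  refine ⟨?_, ?_, ?_, ?_⟩
  · have h5 : (y : ℝ) ^ θ ≤ y := by
      calc (y : ℝ) ^ θ ≤ (y : ℝ) ^ (1 : ℝ) := Real.rpow_le_rpow_of_exponent_le hy1 hθ1
        _ = y := Real.rpow_one _
    exact Nat.floor_le_of_le h5
  · have h5 : LL y ≤ Real.log y := by
      unfold LL
      exact div_le_self e2 e1
    linarith
  · have h5 : 1 ≤ ⌊t⌋₊ := Nat.le_floor (by push_cast; linarith)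
    exact h5
  · intro W hW hWt
    have hW0 : (0 : ℝ) < W := by exact_mod_cast hW
    have hZ : t ^ 4 - 1 < (Zt θ y : ℝ) := by
      have := Nat.lt_floor_add_one (t ^ 4)
      unfold Zt
      rw [ht4]
      linarith
    have h5 : t ^ 2 + 1 ≤ (Zt θ y : ℝ) / W := by
      rw [le_div_iff₀ hW0]
      have h6 : (t ^ 2 + 1) * (W : ℝ) ≤ (t ^ 2 + 1) * t :=
        mul_le_mul_of_nonneg_left hWt (by positivity)
      nlinarith [mul_nonneg (sub_nonneg.2 e4) (sub_nonneg.2 e4), pow_pos (show (0 : ℝ) < t by linarith) 3]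
    have h7 : t * (Bt θ y : ℝ) ≤ t ^ 2 := by
      rw [pow_two]
      exact mul_le_mul_of_nonneg_left hB (by linarith)
    linarith

end Pool.Agent.Lib.MP_bae66e_nt.TL
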