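import Pool.Agent.Lib.MP_bae66e_nt.TL.C1
import Pool.Agent.Lib.MP_bae66e_nt.TL.C2a
import Pool.Agent.Lib.MP_bae66e_nt.TL.P1

/-!
# C3a: a good `t` gives a good `u`
-/

set_option autoImplicit false

open Finset Nat Filter

namespace Pool.Agent.Lib.MP_bae66e_nt.TL

/-- C3a. The set `restF …` minus the `u` with `0 < u - n ≤ w2` for some `n ∈ QQ` is nonempty: at
most `(log y)^8 (w2 y) < Bt θ y` elements are removed (`y ≥ y₀(θ)`). -/
lemma few_removed (θ : ℝ) (hθ : 0 < θ) (hθ1 : θ ≤ 1) : ∃ y₀ : ℕ, ∀ y : ℕ, y₀ ≤ y →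
    ∀ (P R : Finset ℕ), (#P : ℝ) ≤ (Real.log y) ^ 8 → Bt θ y ≤ #R →
    ∃ u ∈ R, ∀ n ∈ P, n < u → w2 y < u - n := by
  have hθ4 : 0 < θ / 4 := by positivity
  -- `8 (log y)^9 + 1 < y^(θ/4)` eventually
  have hlim : ∀ᶠ y : ℕ in atTop,
      Real.log (y : ℝ) ^ (9 : ℝ) ≤ (1 / 16) * (y : ℝ) ^ (θ / 4) := by
    have h := (isLittleO_log_rpow_rpow_atTop 9 hθ4).def (show (0 : ℝ) < 1 / 16 by norm_num)
    have h' : ∀ᶠ x : ℝ in atTop, Real.log x ^ (9 : ℝ) ≤ (1 / 16) * x ^ (θ / 4) := by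
      filter_upwards [h, eventually_ge_atTop 1] with x hx hx1
      rw [Real.norm_eq_abs, Real.norm_eq_abs,
        abs_of_nonneg (Real.rpow_nonneg (by linarith) (θ / 4) : 0 ≤ x ^ (θ / 4))] at hx
      exact (le_abs_self _).trans hx
    exact tendsto_natCast_atTop_atTop.eventually h'
  have h4 : ∀ᶠ y : ℕ in atTop, (4 : ℝ) ≤ (y : ℝ) ^ (θ / 4) :=
    ((tendsto_rpow_atTop hθ4).comp tendsto_natCast_atTop_atTop).eventually_ge_atTop 4
  obtain ⟨y₀, hy₀⟩ := eventually_atTop.1 (hlim.and (h4.and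
    (tendsto_log_nat.eventually_ge_atTop 1)))
  refine ⟨y₀, fun y hy P R hP hR => ?_⟩
  obtain ⟨e1, e2, e3⟩ := hy₀ y hy
  by_contra hcon
  push Not at hcon
  -- every `u ∈ R` lies in one of the intervals `(n, n + w2]`
  have hsub : R ⊆ P.biUnion (fun n => Finset.Ioc n (n + w2 y)) := by
    intro u hu
    obtain ⟨n, hn, hnu, hle⟩ := hcon u hu
    rw [Finset.mem_biUnion]
    refine ⟨n, hn, ?_⟩
    rw [Finset.mem_Ioc]
    omega
  have h5 : #R ≤ #P * w2 y := by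
    refine (Finset.card_le_card hsub).trans (Finset.card_biUnion_le_card_mul _ _ _ ?_)
    intro n _
    rw [Nat.card_Ioc]
    omega
  have h6 : (Bt θ y : ℝ) ≤ (#P : ℝ) * w2 y := by exact_mod_cast hR.trans h5
  have h7 : (w2 y : ℝ) ≤ 8 * Real.log y := Nat.floor_le (by positivity)
  have h8 : (#P : ℝ) * w2 y ≤ Real.log y ^ 8 * (8 * Real.log y) :=
    mul_le_mul hP h7 (Nat.cast_nonneg _) (by positivity)
  have h9 : (y : ℝ) ^ (θ / 4) - 1 < (Bt θ y : ℝ) := by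
    have := Nat.lt_floor_add_one ((y : ℝ) ^ (θ / 4))
    unfold Bt
    linarith
  have h10 : Real.log (y : ℝ) ^ (9 : ℝ) = Real.log y ^ 9 := by
    rw [← Real.rpow_natCast]
    norm_num
  rw [h10] at e1
  have h11 : Real.log (y : ℝ) ^ 8 * (8 * Real.log y) = 8 * Real.log y ^ 9 := by ring
  rw [h11] at h8
  linarith

/-- C3b. A `t` outside the four exceptional sets has a `u` as wanted. Let `u ∈ apU` be as in
`few_removed` with `P = QQ a Q y t`, `R = restF … (QQ ∩ N)`. If `p ≤ y` is a prime with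
`a + Q t + u - p` prime, then `n = u - p ∈ (0, 2y]` lies in `QQ`, and `p = u - n > w2`. By `hcov`: `n ∈ N`
contradicts `u ∉ hitS y (w2 y) n`; `n ∈ E` contradicts `hF2`; the third case is excluded by
`n ∈ QQ`; if `n ≡ b [MOD ℓ]` for a prime `ℓ ≤ w1` then `ℓ ∣ u - n = p`, so `p = ℓ ≤ w1 ≤ w2`. -/
lemma good_t (θ : ℝ) (hθ1 : θ ≤ 1) (y a Q t b : ℕ) (ht : 1 ≤ t) (N E : Finset ℕ)
    (hcov : ∀ n ∈ Finset.Ioc 0 (2 * y), n ∈ N ∨ n ∈ E ∨ (∀ t : ℕ, 1 ≤ t → ¬ (a + Q * t + n).Prime) ∨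
      ∃ ℓ : ℕ, ℓ.Prime ∧ ℓ ≤ w1 θ y ∧ n ≡ b [MOD ℓ])
    (hF2 : ¬ (QQ a Q y t ∩ E).Nonempty)
    (u : ℕ) (hu : u ∈ restF (hitS y (w2 y)) (apU y (Zt θ y) (primProd (w1 θ y)) b)
      (QQ a Q y t ∩ N)) (hZ : Zt θ y ≤ y)
    (hu2 : ∀ n ∈ QQ a Q y t, n < u → w2 y < u - n) :
    ∀ p : ℕ, p.Prime → p ≤ y → ¬ (a + Q * t + u - p).Prime := by
  intro p hp hpy hprime
  unfold restF at hu
  rw [Finset.mem_filter, mem_apU] at hu
  obtain ⟨⟨⟨hyu, huy⟩, hub⟩, hnot⟩ := hu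
  have hp0 := hp.pos
  have hpu : p < u := lt_of_le_of_lt hpy hyu
  have hnIoc : u - p ∈ Finset.Ioc 0 (2 * y) := by
    rw [Finset.mem_Ioc]
    omega
  have heq : a + Q * t + u - p = a + Q * t + (u - p) := by omega
  rw [heq] at hprime
  have hnQ : u - p ∈ QQ a Q y t := by
    unfold QQ
    rw [Finset.mem_filter]
    exact ⟨hnIoc, hprime⟩
  have hdiff : u - (u - p) = p := by omega
  have hw : w2 y < p := by
    have := hu2 (u - p) hnQ (by omega)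
    rwa [hdiff] at this
  rcases hcov (u - p) hnIoc with h | h | h | ⟨ℓ, hℓ, hℓw, hℓn⟩
  · apply hnot (u - p) (Finset.mem_inter.mpr ⟨hnQ, h⟩)
    rw [mem_hitS, hdiff]
    exact ⟨⟨hyu, by omega⟩, by omega, hp, hw⟩
  · exact hF2 ⟨u - p, Finset.mem_inter.mpr ⟨hnQ, h⟩⟩
  · exact h t ht hprime
  · have hℓdvd : ℓ ∣ primProd (w1 θ y) :=
      Finset.dvd_prod_of_mem _ (mem_prms.mpr ⟨hℓw, hℓ⟩)
    have h1 : u ≡ u - p [MOD ℓ] := (hub.of_dvd hℓdvd).trans hℓn.symm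
    have h2 : ℓ ∣ u - (u - p) := (Nat.modEq_iff_dvd' (by omega)).mp h1.symm
    rw [hdiff] at h2
    have h3 : ℓ = p := (Nat.prime_dvd_prime_iff_eq hℓ hp).mp h2
    have h4 : w1 θ y ≤ w2 y := by
      unfold w1 w2
      apply Nat.floor_le_floor
      have : 0 ≤ Real.log (y : ℝ) := Real.log_natCast_nonneg y
      nlinarith
    omega

end Pool.Agent.Lib.MP_bae66e_nt.TL
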