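import Pool.Agent.Lib.MP_bae66e_nt.TL.C2
import Pool.Agent.Lib.MP_bae66e_nt.TL.C3a

/-!
# C3: the core theorem
-/

set_option autoImplicit false

open Finset Nat Filter

namespace Pool.Agent.Lib.MP_bae66e_nt.TL

/-- C3. **Core theorem.** `card_F1_le`, `card_F2_le`, `card_F3_le`, `card_F4_le`, `few_removed`,
`good_t`; `c₃` of `card_F4_le`. (`2 ≤ T` follows from `y ≤ (log y)^4 log T` for large `y`, and
`Zt θ y ≤ y` from `window_params`.) For `t` outside `F1, F2, F3, F4`: the set `A = QQ ∩ N` has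
`#A ≤ k`, hence `Bt θ y ≤ #(restF …)`. -/
theorem core : ∃ c₃ : ℝ, 0 < c₃ ∧ c₃ ≤ 1 ∧ ∀ θ : ℝ, 0 < θ → θ ≤ 1 →
    ∃ y₀ : ℕ, ∀ y : ℕ, y₀ ≤ y → ∀ a Q T k b : ℕ, 1 ≤ Q → 1 ≤ k →
    (∀ p : ℕ, p.Prime → p ∣ Q → p ≤ 2 * y) → (y : ℝ) ≤ (Real.log y) ^ 4 * Real.log T →
    (k : ℝ) * Real.log (Real.log y) ^ 3 ≤ c₃ * θ * (Real.log y) ^ 2 →
    ∀ (δ : ℝ) (N E : Finset ℕ), N ⊆ Finset.Ioc 0 (2 * y) → E ⊆ Finset.Ioc 0 (2 * y) →
    8 * (#N : ℝ) ≤ δ * k * rho Q * Real.log T → 8 * (#E : ℝ) ≤ δ * rho Q * Real.log T →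
    (∀ n ∈ Finset.Ioc 0 (2 * y), n ∈ N ∨ n ∈ E ∨ (∀ t : ℕ, 1 ≤ t → ¬ (a + Q * t + n).Prime) ∨
      ∃ ℓ : ℕ, ℓ.Prime ∧ ℓ ≤ w1 θ y ∧ n ≡ b [MOD ℓ]) →
    ((#{t ∈ Finset.Ioc 0 T | ¬ ∃ u ∈ apU y (Zt θ y) (primProd (w1 θ y)) b,
        ∀ p ∈ Finset.Icc 1 y, p.Prime → ¬ (a + Q * t + u - p).Prime} : ℕ) : ℝ)
      ≤ (2 * δ + 2 / Real.log y) * T := by
  obtain ⟨c₃, hc₃, hc₃1, hF4⟩ := card_F4_le
  obtain ⟨y₁, hF3⟩ := card_F3_le
  refine ⟨c₃, hc₃, hc₃1, ?_⟩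
  intro θ hθ hθ1
  obtain ⟨y₂, hF4'⟩ := hF4 θ hθ hθ1
  obtain ⟨y₃, hfew⟩ := few_removed θ hθ hθ1
  obtain ⟨y₄, hwin⟩ := window_params θ hθ hθ1
  have hlim : ∀ᶠ y : ℕ in atTop, Real.log (y : ℝ) ^ (4 : ℝ) ≤ (y : ℝ) := by
    have h := (isLittleO_log_rpow_rpow_atTop 4 one_pos).def one_pos
    have h' : ∀ᶠ x : ℝ in atTop, Real.log x ^ (4 : ℝ) ≤ x := by
      filter_upwards [h, eventually_ge_atTop 1] with x hx hx1
      rw [Real.rpow_one, Real.norm_eq_abs, Real.norm_eq_abs,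
        abs_of_nonneg (by linarith : (0 : ℝ) ≤ x), one_mul] at hx
      exact (le_abs_self _).trans hx
    exact tendsto_natCast_atTop_atTop.eventually h'
  obtain ⟨y₅, hy₅⟩ := eventually_atTop.1 (hlim.and
    ((tendsto_log_nat.eventually_ge_atTop 1).and (eventually_ge_atTop 2)))
  refine ⟨max (max y₁ y₂) (max y₃ (max y₄ y₅)), ?_⟩
  intro y hy a Q T k b hQ hk1 hQp hyT hk δ N E hN hE hcN hcE hcov
  have hy1 : y₁ ≤ y := (le_max_left _ _).trans ((le_max_left _ _).trans hy)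
  have hy2 : y₂ ≤ y := (le_max_right _ _).trans ((le_max_left _ _).trans hy)
  have hy3 : y₃ ≤ y := (le_max_left _ _).trans ((le_max_right _ _).trans hy)
  have hy4 : y₄ ≤ y :=
    (le_max_left _ _).trans ((le_max_right _ _).trans ((le_max_right _ _).trans hy))
  have hy5 : y₅ ≤ y :=
    (le_max_right _ _).trans ((le_max_right _ _).trans ((le_max_right _ _).trans hy))
  obtain ⟨e1, e2, e3⟩ := hy₅ y hy5
  have hypos : (0 : ℝ) < y := by exact_mod_cast (by omega : 0 < y)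
  have hL4 : 0 < Real.log (y : ℝ) ^ 4 := by positivity
  have h44 : Real.log (y : ℝ) ^ (4 : ℝ) = Real.log (y : ℝ) ^ 4 := by
    rw [← Real.rpow_natCast]
    norm_num
  rw [h44] at e1
  have hlT : 1 ≤ Real.log T := by
    have h1 : Real.log (y : ℝ) ^ 4 * 1 ≤ Real.log (y : ℝ) ^ 4 * Real.log T := by
      rw [mul_one]
      exact e1.trans hyT
    exact le_of_mul_le_mul_left h1 hL4
  have hT2 : 2 ≤ T := by
    by_contra hcon
    have h1 : T ≤ 1 := by omega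
    have h2 : Real.log (T : ℝ) ≤ 0 := by
      apply Real.log_nonpos (Nat.cast_nonneg T)
      exact_mod_cast h1
    linarith
  obtain ⟨hZ, _, _, _⟩ := hwin y hy4
  set U : Finset ℕ := apU y (Zt θ y) (primProd (w1 θ y)) b with hU
  set F1 : Finset ℕ := {t ∈ Finset.Ioc 0 T | k < #(QQ a Q y t ∩ N)} with hF1def
  set F2 : Finset ℕ := {t ∈ Finset.Ioc 0 T | (QQ a Q y t ∩ E).Nonempty} with hF2def
  set F3 : Finset ℕ := {t ∈ Finset.Ioc 0 T | (Real.log y) ^ 8 < (#(QQ a Q y t) : ℝ)} with hF3def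
  set F4 : Finset ℕ := {t ∈ Finset.Ioc 0 T | ∃ A ∈ (Finset.Ioc 0 (2 * y)).powerset, #A ≤ k ∧
        (∀ n ∈ A, (a + Q * t + n).Prime) ∧ #(restF (hitS y (w2 y)) U A) < Bt θ y} with hF4def
  have c1 : (#F1 : ℝ) ≤ δ * T := card_F1_le a Q y T k hQ hT2 hk1 δ N hN hcN
  have c2 : (#F2 : ℝ) ≤ δ * T := card_F2_le a Q y T hQ hT2 δ E hE hcE
  have c3 : (#F3 : ℝ) ≤ 1 / Real.log y * T := hF3 y hy1 a Q T hQ hT2 hQp hyT
  have c4 : (#F4 : ℝ) ≤ 1 / Real.log y * T := hF4' y hy2 a Q T k b hQ hQp hyT hk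
  have hsub : {t ∈ Finset.Ioc 0 T | ¬ ∃ u ∈ U,
        ∀ p ∈ Finset.Icc 1 y, p.Prime → ¬ (a + Q * t + u - p).Prime}
      ⊆ (F1 ∪ F2) ∪ (F3 ∪ F4) := by
    intro t ht
    rw [Finset.mem_filter] at ht
    obtain ⟨htT, hno⟩ := ht
    by_contra hcon
    rw [Finset.mem_union, Finset.mem_union, Finset.mem_union] at hcon
    push Not at hcon
    obtain ⟨⟨n1, n2⟩, n3, n4⟩ := hcon
    have n1' : #(QQ a Q y t ∩ N) ≤ k := by
      by_contra h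
      exact n1 (Finset.mem_filter.mpr ⟨htT, not_le.mp h⟩)
    have n2' : ¬ (QQ a Q y t ∩ E).Nonempty := fun h => n2 (Finset.mem_filter.mpr ⟨htT, h⟩)
    have n3' : (#(QQ a Q y t) : ℝ) ≤ (Real.log y) ^ 8 := by
      by_contra h
      exact n3 (Finset.mem_filter.mpr ⟨htT, not_le.mp h⟩)
    have n4' : Bt θ y ≤ #(restF (hitS y (w2 y)) U (QQ a Q y t ∩ N)) := by
      by_contra h
      apply n4
      rw [hF4def, Finset.mem_filter]
      refine ⟨htT, QQ a Q y t ∩ N, ?_, n1', ?_, not_le.mp h⟩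
      · rw [Finset.mem_powerset]
        exact (Finset.inter_subset_right).trans hN
      · intro n hn
        have := (Finset.mem_inter.mp hn).1
        unfold QQ at this
        exact (Finset.mem_filter.mp this).2
    obtain ⟨u, hu, hu2⟩ := hfew y hy3 _ _ n3' n4'
    have ht1 : 1 ≤ t := (Finset.mem_Ioc.mp htT).1
    have hgood := good_t θ hθ1 y a Q t b ht1 N E hcov n2' u hu hZ hu2
    apply hno
    refine ⟨u, ?_, fun p hp hp2 => hgood p hp2 (Finset.mem_Icc.mp hp).2⟩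
    unfold restF at hu
    exact (Finset.mem_filter.mp hu).1
  have h1 := Finset.card_le_card hsub
  have h2 : #((F1 ∪ F2) ∪ (F3 ∪ F4)) ≤ (#F1 + #F2) + (#F3 + #F4) :=
    (Finset.card_union_le _ _).trans
      (Nat.add_le_add (Finset.card_union_le _ _) (Finset.card_union_le _ _))
  have h3 : ((#{t ∈ Finset.Ioc 0 T | ¬ ∃ u ∈ U,
        ∀ p ∈ Finset.Icc 1 y, p.Prime → ¬ (a + Q * t + u - p).Prime} : ℕ) : ℝ)
      ≤ (#F1 + #F2) + (#F3 + #F4) := by exact_mod_cast h1.trans h2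
  have h4 : (2 * δ + 2 / Real.log y) * T
      = (δ * T + δ * T) + (1 / Real.log y * T + 1 / Real.log y * T) := by ring
  rw [h4]
  linarith

end Pool.Agent.Lib.MP_bae66e_nt.TL
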