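import Pool.Agent.Lib.MP_bae66e_nt.TL.P1

/-!
# D1: classes for (ii)
-/

set_option autoImplicit false

open Finset Nat Filter

namespace Pool.Agent.Lib.MP_bae66e_nt.TL

/-- D1. `∏ p ∈ (prms w).erase 2, (1 - 1/p) ≤ 2 / log (w + 1)` for `w ≥ 2`
(`prod_one_sub_le`, the factor at `2` is `1/2`). -/
lemma prod_erase_two_le (w : ℕ) (hw : 2 ≤ w) :
    ∏ p ∈ (prms w).erase 2, (1 - 1 / (p : ℝ)) ≤ 2 / Real.log (w + 1) := by
  have h1 := prod_one_sub_le w (by omega)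
  have h2 : (2 : ℕ) ∈ prms w := mem_prms.2 ⟨hw, Nat.prime_two⟩
  rw [← Finset.mul_prod_erase (prms w) (fun p : ℕ => (1 - 1 / (p : ℝ))) h2] at h1
  push_cast at h1
  have h3 : (2 : ℝ) / Real.log (w + 1) = 2 * (1 / Real.log (w + 1)) := by ring
  rw [h3]
  have h4 : (1 - 1 / (2 : ℝ)) = 1 / 2 := by norm_num
  rw [h4] at h1
  linarith

/-- D2. `greedy` with `V = (0, 2y]`, `S = (prms w).erase 2`, gives classes `c`; `b` from
`exists_residue w (fun q => if q = 2 then 0 else c q)`, `w = w1 θ y`. Then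
`#{…} ≤ 2y * 2 / log (w + 1) ≤ 16 y / loglog y` because `w + 1 ≥ θ log y / 16 ≥ √(log y)`. -/
lemma exists_class_two (θ : ℝ) (hθ : 0 < θ) : ∃ y₀ : ℕ, ∀ y : ℕ, y₀ ≤ y →
    2 ≤ w1 θ y ∧ ∃ b : ℕ, 2 ∣ b ∧
    ((#{n ∈ Finset.Ioc 0 (2 * y) | ¬ 2 ∣ n ∧ ∀ q ∈ prms (w1 θ y), ¬ n ≡ b [MOD q]} : ℕ) : ℝ)
      ≤ 16 * y / Real.log (Real.log y) := by
  have hlog1 : ∀ᶠ y : ℕ in atTop, 256 / θ ^ 2 ≤ Real.log (y : ℝ) :=
    tendsto_log_nat.eventually_ge_atTop _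
  have hlog2 : ∀ᶠ y : ℕ in atTop, 32 / θ ≤ Real.log (y : ℝ) :=
    tendsto_log_nat.eventually_ge_atTop _
  have hlog3 : ∀ᶠ y : ℕ in atTop, 1 ≤ Real.log (Real.log (y : ℝ)) :=
    tendsto_loglog_nat.eventually_ge_atTop _
  have hlog4 : ∀ᶠ y : ℕ in atTop, 1 ≤ Real.log (y : ℝ) :=
    tendsto_log_nat.eventually_ge_atTop _
  obtain ⟨y₀, hy₀⟩ := eventually_atTop.1 (hlog1.and (hlog2.and (hlog3.and hlog4)))
  refine ⟨y₀, fun y hy => ?_⟩
  obtain ⟨e1, e2, e3, e4⟩ := hy₀ y hy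
  have ht0 : 0 < Real.log (y : ℝ) := by linarith
  rw [div_le_iff₀ (by positivity)] at e1
  rw [div_le_iff₀ hθ] at e2
  have hw : 2 ≤ w1 θ y := Nat.le_floor (by push_cast; linarith)
  refine ⟨hw, ?_⟩
  obtain ⟨c, hc⟩ := greedy (Finset.Ioc 0 (2 * y)) ((prms (w1 θ y)).erase 2) (fun q hq =>
    (mem_prms.1 (Finset.mem_of_mem_erase hq)).2.two_le)
  obtain ⟨b, hb⟩ := exists_residue (w1 θ y) (fun q => if q = 2 then 0 else c q)
  have hb' := hb b rfl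
  have hb2 : 2 ∣ b := by
    have h1 := hb' 2 Nat.prime_two hw
    rw [if_pos rfl] at h1
    exact (Nat.modEq_zero_iff_dvd).1 h1
  refine ⟨b, hb2, ?_⟩
  have hsub : ({n ∈ Finset.Ioc 0 (2 * y) | ¬ 2 ∣ n ∧ ∀ q ∈ prms (w1 θ y), ¬ n ≡ b [MOD q]} : Finset ℕ) ⊆
      {p ∈ Finset.Ioc 0 (2 * y) | ∀ q ∈ (prms (w1 θ y)).erase 2, ¬ p ≡ c q [MOD q]} := by
    intro n hn
    rw [Finset.mem_filter] at hn ⊢
    refine ⟨hn.1, fun q hq hnq => ?_⟩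
    obtain ⟨hq2, hqm⟩ := Finset.mem_erase.1 hq
    have h1 := mem_prms.1 hqm
    have h2 := hb' q h1.2 h1.1
    rw [if_neg hq2] at h2
    exact hn.2.2 q hqm (hnq.trans h2.symm)
  have hcard : ((#{n ∈ Finset.Ioc 0 (2 * y) | ¬ 2 ∣ n ∧ ∀ q ∈ prms (w1 θ y), ¬ n ≡ b [MOD q]} : ℕ) : ℝ)
      ≤ ((#{p ∈ Finset.Ioc 0 (2 * y) | ∀ q ∈ (prms (w1 θ y)).erase 2, ¬ p ≡ c q [MOD q]} : ℕ) : ℝ) := by
    exact_mod_cast Finset.card_le_card hsub
  have hlogw : Real.log (Real.log (y : ℝ)) / 2 ≤ Real.log ((w1 θ y : ℝ) + 1) := by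
    have h1 : θ * Real.log (y : ℝ) / 16 ≤ (w1 θ y : ℝ) + 1 := (Nat.lt_floor_add_one _).le
    have h2 : Real.sqrt (Real.log (y : ℝ)) ≤ θ * Real.log (y : ℝ) / 16 := by
      have hs := Real.sq_sqrt ht0.le
      have hs0 : 0 < Real.sqrt (Real.log (y : ℝ)) := Real.sqrt_pos.2 ht0
      have h3 : 16 ≤ θ * Real.sqrt (Real.log (y : ℝ)) := by
        have h4 : (16 : ℝ) ^ 2 ≤ (θ * Real.sqrt (Real.log (y : ℝ))) ^ 2 := by
          rw [mul_pow, hs]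
          linarith
        exact (pow_le_pow_iff_left₀ (by norm_num) (by positivity) two_ne_zero).1 h4
      nlinarith
    have h5 : Real.log (Real.sqrt (Real.log (y : ℝ))) = Real.log (Real.log (y : ℝ)) / 2 :=
      Real.log_sqrt ht0.le
    rw [← h5]
    exact Real.log_le_log (Real.sqrt_pos.2 ht0) (h2.trans h1)
  have hlw0 : 0 < Real.log (Real.log (y : ℝ)) := by linarith
  have hy0 : (0 : ℝ) ≤ y := Nat.cast_nonneg y
  calc ((#{n ∈ Finset.Ioc 0 (2 * y) | ¬ 2 ∣ n ∧ ∀ q ∈ prms (w1 θ y), ¬ n ≡ b [MOD q]} : ℕ) : ℝ)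
      ≤ _ := hcard
    _ ≤ _ := hc
    _ ≤ (2 * y : ℝ) * (2 / Real.log ((w1 θ y : ℝ) + 1)) := by
        rw [Nat.card_Ioc, Nat.sub_zero]
        push_cast
        exact mul_le_mul_of_nonneg_left (prod_erase_two_le _ hw) (by positivity)
    _ ≤ (2 * y : ℝ) * (2 / (Real.log (Real.log (y : ℝ)) / 2)) := by
        refine mul_le_mul_of_nonneg_left ?_ (by positivity)
        exact div_le_div_of_nonneg_left (by norm_num) (by positivity) hlogw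
    _ = 8 * y / Real.log (Real.log y) := by
        field_simp
        ring
    _ ≤ _ := by
        refine div_le_div_of_nonneg_right ?_ hlw0.le
        linarith

end Pool.Agent.Lib.MP_bae66e_nt.TL
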