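import Pool.Agent.Lib.MP_bae66e_nt.TL.C3
import Pool.Agent.Lib.MP_bae66e_nt.TL.D1

/-!
# D3: the core theorem for `Q = 2`
-/

set_option autoImplicit false

open Finset Nat Filter

namespace Pool.Agent.Lib.MP_bae66e_nt.TL

lemma D3_two_dvd (w : ℕ) (hw : 2 ≤ w) : 2 ∣ primProd w := by
  unfold primProd
  exact Finset.dvd_prod_of_mem (fun q : ℕ => q) (mem_prms.2 ⟨hw, Nat.prime_two⟩)

lemma D3_half_floor (x : ℝ) (hx : 1 ≤ x) : x / 2 ≤ (⌊x⌋₊ : ℝ) := by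
  have h1 := Nat.lt_floor_add_one x
  have h2 : 1 ≤ ⌊x⌋₊ := Nat.le_floor (by push_cast; exact hx)
  have h3 : (1 : ℝ) ≤ (⌊x⌋₊ : ℝ) := by exact_mod_cast h2
  linarith

/-- D3. `core` with `Q = 2`, `T`, `a = a₀` even, `N` the set in `exists_class_two`, `E = ∅`,
`k = ⌊c₃ θ (log y)^2 / (loglog y)^3⌋`: the condition on `#N` is implied by
`512 y (loglog y)^2 ≤ δ c₃ θ (log y)^2 log T` (`rho_two`; `k ≥ c₃ θ (log y)^2 / (2 (loglog y)^3)`).
For even `n` the number `a₀ + 2 t + n` is even and `≥ 4`. The `u` are even as `2 ∣ primProd (w1 θ y)`. -/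
lemma core_two : ∃ c₃ : ℝ, 0 < c₃ ∧ c₃ ≤ 1 ∧ ∀ θ : ℝ, 0 < θ → θ ≤ 1 →
    ∃ y₀ : ℕ, ∀ y : ℕ, y₀ ≤ y → ∀ a T : ℕ, Even a →
    (y : ℝ) ≤ (Real.log y) ^ 4 * Real.log T →
    ∀ δ : ℝ, 0 < δ →
    512 * y * Real.log (Real.log y) ^ 2 ≤ δ * c₃ * θ * Real.log y ^ 2 * Real.log T →
    ((#{t ∈ Finset.Ioc 0 T | ¬ ∃ u ∈ Finset.Ioc y (y + Zt θ y), Even u ∧
        ∀ p ∈ Finset.Icc 1 y, p.Prime → ¬ (a + 2 * t + u - p).Prime} : ℕ) : ℝ)
      ≤ (2 * δ + 2 / Real.log y) * T := by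
  classical
  obtain ⟨c₃, hc, hc1, hcore⟩ := core
  refine ⟨c₃, hc, hc1, fun θ hθ hθ1 => ?_⟩
  obtain ⟨ya, ha⟩ := hcore θ hθ hθ1
  obtain ⟨yb, hb⟩ := exists_class_two θ hθ
  have hlog3 : ∀ᶠ y : ℕ in atTop, 1 ≤ Real.log (Real.log (y : ℝ)) :=
    tendsto_loglog_nat.eventually_ge_atTop _
  have hlog4 : ∀ᶠ y : ℕ in atTop, 1 ≤ Real.log (y : ℝ) :=
    tendsto_log_nat.eventually_ge_atTop _
  have hcθ : 0 < c₃ * θ := by positivity
  have hbig : ∀ᶠ t : ℝ in atTop, Real.log t ^ 3 ≤ c₃ * θ * t := by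
    have h := (Real.isLittleO_pow_log_id_atTop (n := 3)).def hcθ
    filter_upwards [h, eventually_ge_atTop 0] with x hx hx0
    rw [Real.norm_eq_abs, Real.norm_eq_abs, id_eq, abs_of_nonneg hx0] at hx
    exact (le_abs_self _).trans hx
  have hbig' : ∀ᶠ y : ℕ in atTop, Real.log (Real.log (y : ℝ)) ^ 3 ≤ c₃ * θ * Real.log (y : ℝ) :=
    tendsto_log_nat.eventually hbig
  obtain ⟨y₀, hy₀⟩ := eventually_atTop.1 (hlog3.and (hlog4.and (hbig'.and
    ((eventually_ge_atTop ya).and ((eventually_ge_atTop yb).and (eventually_ge_atTop 1))))))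
  refine ⟨y₀, fun y hy a T haE hyT δ hδ h512 => ?_⟩
  obtain ⟨e3, e4, e5, ea, eb, e1⟩ := hy₀ y hy
  obtain ⟨hw, b, hb2, hN⟩ := hb y eb
  have hll0 : 0 < Real.log (Real.log (y : ℝ)) := by linarith
  have hl0 : 0 < Real.log (y : ℝ) := by linarith
  have hlT : 0 ≤ Real.log (T : ℝ) := Real.log_natCast_nonneg T
  have hy0 : (0 : ℝ) ≤ y := Nat.cast_nonneg y
  set x := c₃ * θ * Real.log (y : ℝ) ^ 2 / Real.log (Real.log (y : ℝ)) ^ 3 with hx
  have hx1 : 1 ≤ x := by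
    rw [hx, le_div_iff₀ (by positivity), one_mul]
    refine e5.trans ?_
    have : Real.log (y : ℝ) ≤ Real.log (y : ℝ) ^ 2 := by nlinarith
    exact mul_le_mul_of_nonneg_left this hcθ.le
  have hk1 : 1 ≤ ⌊x⌋₊ := Nat.le_floor (by push_cast; exact hx1)
  have hkle : (⌊x⌋₊ : ℝ) ≤ x := Nat.floor_le (by linarith)
  have hkhalf := D3_half_floor x hx1
  have hxmul : x * Real.log (Real.log (y : ℝ)) ^ 3 = c₃ * θ * Real.log (y : ℝ) ^ 2 := by
    rw [hx]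
    field_simp
  set N : Finset ℕ := {n ∈ Finset.Ioc 0 (2 * y) | ¬ 2 ∣ n ∧ ∀ q ∈ prms (w1 θ y), ¬ n ≡ b [MOD q]}
    with hNdef
  have hmain := ha y ea a 2 T ⌊x⌋₊ b (by norm_num) hk1 (by
      intro p hp hp2
      have := Nat.le_of_dvd (by norm_num) hp2
      omega) hyT (by
      calc (⌊x⌋₊ : ℝ) * Real.log (Real.log (y : ℝ)) ^ 3 ≤ x * Real.log (Real.log (y : ℝ)) ^ 3 :=
            mul_le_mul_of_nonneg_right hkle (by positivity)
        _ = _ := hxmul) δ N ∅ (Finset.filter_subset _ _) (Finset.empty_subset _) (by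
      rw [rho_two]
      have h1 : 8 * (#N : ℝ) ≤ 8 * (16 * y / Real.log (Real.log (y : ℝ))) :=
        mul_le_mul_of_nonneg_left hN (by norm_num)
      refine h1.trans ?_
      have h2 : δ * (x / 2) * (1 / 2) * Real.log (T : ℝ) ≤
          δ * (⌊x⌋₊ : ℝ) * (1 / 2) * Real.log (T : ℝ) := by
        gcongr
      refine le_trans ?_ h2
      have h3 : δ * (x / 2) * (1 / 2) * Real.log (T : ℝ) =
          (δ * c₃ * θ * Real.log (y : ℝ) ^ 2 * Real.log (T : ℝ)) /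
            (4 * Real.log (Real.log (y : ℝ)) ^ 3) := by
        rw [hx]
        field_simp
        ring
      rw [h3, le_div_iff₀ (by positivity)]
      refine le_trans (le_of_eq ?_) h512
      field_simp
      ring) (by
      rw [Finset.card_empty, Nat.cast_zero, mul_zero, rho_two]
      positivity) (by
      intro n hn
      have hn1 := Finset.mem_Ioc.1 hn
      by_cases h2 : 2 ∣ n
      · right; right; left
        intro t ht hp
        have h3 : 2 ∣ a + 2 * t + n := by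
          have h4 : 2 ∣ a := haE.two_dvd
          omega
        have h4 := (Nat.prime_dvd_prime_iff_eq Nat.prime_two hp).1 h3
        omega
      · by_cases h3 : ∀ q ∈ prms (w1 θ y), ¬ n ≡ b [MOD q]
        · left
          exact Finset.mem_filter.2 ⟨hn, h2, h3⟩
        · push Not at h3
          obtain ⟨q, hq, hnq⟩ := h3
          have h4 := mem_prms.1 hq
          exact Or.inr (Or.inr (Or.inr ⟨q, h4.2, h4.1, hnq⟩)))
  refine le_trans ?_ hmain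
  have hsub : #{t ∈ Finset.Ioc 0 T | ¬ ∃ u ∈ Finset.Ioc y (y + Zt θ y), Even u ∧
      ∀ p ∈ Finset.Icc 1 y, p.Prime → ¬ (a + 2 * t + u - p).Prime} ≤
      #{t ∈ Finset.Ioc 0 T | ¬ ∃ u ∈ apU y (Zt θ y) (primProd (w1 θ y)) b,
        ∀ p ∈ Finset.Icc 1 y, p.Prime → ¬ (a + 2 * t + u - p).Prime} := by
    refine Finset.card_le_card fun t ht => ?_
    rw [Finset.mem_filter] at ht ⊢
    refine ⟨ht.1, fun ⟨u, hu, hup⟩ => ht.2 ⟨u, ?_, ?_, hup⟩⟩
    · exact apU_subset _ _ _ _ hu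
    · have h1 := (mem_apU.1 hu).2
      have h2 : u ≡ b [MOD 2] := h1.of_dvd (D3_two_dvd _ hw)
      have h3 : u ≡ 0 [MOD 2] := h2.trans ((Nat.modEq_zero_iff_dvd).2 hb2)
      exact even_iff_two_dvd.2 ((Nat.modEq_zero_iff_dvd).1 h3)
  exact_mod_cast hsub

end Pool.Agent.Lib.MP_bae66e_nt.TL
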