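import Pool.Agent.Lib.MP_bae66e_nt.TL.P1

/-!
# D4: parameters for (ii)
-/

set_option autoImplicit false

open Finset Nat Filter

namespace Pool.Agent.Lib.MP_bae66e_nt.TL

/-- D4. Parameters for (ii): `y = ⌊c θ log Y (l₂)² / (l₃)²⌋`, `c = ε c₃ / 16000`: for large `Y` with
`T = Y / 2`: `y ≥ y₀`, `y ≤ (log y)^4 log T`, the condition of `core_two` for `θ / 2` and `δ = ε / 4`
(`log Y ≤ y ≤ (log Y)^(3/2)`, so `l₂ ≤ log y ≤ (3/2) l₂`, `loglog y ≤ 1.2 l₃`, `log T ≥ log Y / 2`),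
`Zt (θ/2) y + 1 ≤ (log Y)^θ`, `2 / log y ≤ ε / 4`, `y + 3 ≤ ε Y / 4`. -/
lemma params_two (ε c₃ θ : ℝ) (hε : 0 < ε) (hε1 : ε ≤ 1) (hc : 0 < c₃) (hc1 : c₃ ≤ 1) (hθ : 0 < θ)
    (hθ1 : θ ≤ 1) (y₀ : ℕ) : ∃ Y₀ : ℕ, ∀ Y : ℕ, Y₀ ≤ Y → ∃ y : ℕ, y₀ ≤ y ∧ 1 ≤ y ∧
    ε * c₃ / 16000 * θ * Real.log Y * Real.log (Real.log Y) ^ 2 /
        Real.log (Real.log (Real.log Y)) ^ 2 ≤ y + 1 ∧
    (y : ℝ) ≤ (Real.log y) ^ 4 * Real.log ((Y / 2 : ℕ) : ℝ) ∧
    512 * y * Real.log (Real.log y) ^ 2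
      ≤ ε / 4 * c₃ * (θ / 2) * Real.log y ^ 2 * Real.log ((Y / 2 : ℕ) : ℝ) ∧
    (Zt (θ / 2) y : ℝ) + 1 ≤ Real.log Y ^ θ ∧ 2 / Real.log y ≤ ε / 4 ∧
    (y : ℝ) + 3 ≤ ε / 4 * Y := by
  have hκ : 0 < ε * c₃ / 16000 * θ := by positivity
  set κ := ε * c₃ / 16000 * θ with hκd
  have hκ1 : κ ≤ 1 := by
    have h1 : ε * c₃ ≤ 1 := mul_le_one₀ hε1 hc.le hc1
    have h2 : ε * c₃ / 16000 ≤ 1 := by linarith
    exact mul_le_one₀ h2 hθ.le hθ1
  -- eventual conditions on `t = log Y`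
  have E1 : ∀ᶠ t : ℝ in atTop, 3 ≤ Real.log (Real.log t) :=
    (Real.tendsto_log_atTop.comp Real.tendsto_log_atTop).eventually_ge_atTop 3
  have E2 : ∀ᶠ t : ℝ in atTop, Real.log (Real.log t) ^ 2 ≤ κ / 2 * Real.log t ^ 2 := by
    have h := Real.isLittleO_log_id_atTop.def (show 0 < Real.sqrt (κ / 2) by positivity)
    have h2 : ∀ᶠ u : ℝ in atTop, Real.log u ^ 2 ≤ κ / 2 * u ^ 2 := by
      filter_upwards [h, eventually_ge_atTop 0] with u hu hu0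
      rw [Real.norm_eq_abs, Real.norm_eq_abs, id_eq, abs_of_nonneg hu0] at hu
      calc Real.log u ^ 2 = |Real.log u| ^ 2 := (sq_abs _).symm
        _ ≤ (Real.sqrt (κ / 2) * u) ^ 2 := pow_le_pow_left₀ (abs_nonneg _) hu 2
        _ = _ := by rw [mul_pow, Real.sq_sqrt (by positivity)]
    exact Real.tendsto_log_atTop.eventually h2
  have E3 : ∀ᶠ t : ℝ in atTop, Real.log t ≤ t ^ (1 / 4 : ℝ) := by
    have h := (isLittleO_log_rpow_atTop (show (0 : ℝ) < 1 / 4 by norm_num)).def one_pos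
    filter_upwards [h, eventually_ge_atTop 0] with t ht ht0
    rw [Real.norm_eq_abs, Real.norm_eq_abs, abs_of_nonneg (Real.rpow_nonneg ht0 _), one_mul] at ht
    exact (le_abs_self _).trans ht
  have E4 : ∀ᶠ t : ℝ in atTop, 2 ≤ t ^ (θ / 4) :=
    (tendsto_rpow_atTop (show 0 < θ / 4 by positivity)).eventually_ge_atTop 2
  have E5 : ∀ᶠ t : ℝ in atTop, 8 / ε ≤ Real.log t := Real.tendsto_log_atTop.eventually_ge_atTop _
  have E6 : ∀ᶠ t : ℝ in atTop, (y₀ : ℝ) ≤ t := eventually_ge_atTop _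
  have E : ∀ᶠ Y : ℕ in atTop, _ := tendsto_log_nat.eventually
    (E1.and (E2.and (E3.and (E4.and (E5.and (E6.and (eventually_ge_atTop 1)))))))
  have E7 : ∀ᶠ Y : ℕ in atTop, Real.log (Y : ℝ) ^ 2 + 3 ≤ ε / 4 * Y := by
    have h := (Real.isLittleO_pow_log_id_atTop (n := 2)).def (show 0 < ε / 8 by positivity)
    have h2 : ∀ᶠ u : ℝ in atTop, Real.log u ^ 2 + 3 ≤ ε / 4 * u := by
      filter_upwards [h, eventually_ge_atTop 0, eventually_ge_atTop (24 / ε)] with u hu hu0 hu1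
      rw [Real.norm_eq_abs, Real.norm_eq_abs, id_eq, abs_of_nonneg hu0] at hu
      have h3 := (le_abs_self _).trans hu
      rw [div_le_iff₀ hε] at hu1
      linarith
    exact tendsto_natCast_atTop_atTop.eventually h2
  obtain ⟨Y₀, hY₀⟩ := eventually_atTop.1 (E.and (E7.and (eventually_ge_atTop 16)))
  refine ⟨Y₀, fun Y hY => ?_⟩
  obtain ⟨⟨e1, e2, e3, e4, e5, e6, e0⟩, e7, e16⟩ := hY₀ Y hY
  set t := Real.log (Y : ℝ) with ht
  set l2 := Real.log t with hl2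
  set l3 := Real.log l2 with hl3
  have ht0 : 0 < t := by linarith
  have hl2pos : 0 < l2 := by
    by_contra hneg
    push Not at hneg
    have h1 : 0 ≤ Real.log t := Real.log_nonneg e0
    have h2 : l2 = 0 := le_antisymm hneg h1
    have h3 : l3 = 0 := by rw [hl3, h2, Real.log_zero]
    linarith
  have hl2_1 : 4 ≤ l2 := by
    have h1 := Real.log_le_sub_one_of_pos hl2pos
    linarith
  have hl3pos : 0 < l3 := by linarith
  set x := κ * t * l2 ^ 2 / l3 ^ 2 with hx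
  have hx2 : 2 * t ≤ x := by
    rw [hx, le_div_iff₀ (by positivity)]
    nlinarith
  have hxle : x ≤ t * l2 ^ 2 := by
    rw [hx, div_le_iff₀ (by positivity)]
    have h1 : 1 ≤ l3 ^ 2 := by nlinarith
    have h2 : 0 ≤ t * l2 ^ 2 := by positivity
    calc κ * t * l2 ^ 2 = κ * (t * l2 ^ 2) := by ring
      _ ≤ 1 * (t * l2 ^ 2) := mul_le_mul_of_nonneg_right hκ1 h2
      _ = t * l2 ^ 2 * 1 := by ring
      _ ≤ t * l2 ^ 2 * l3 ^ 2 := mul_le_mul_of_nonneg_left h1 h2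
  have hx0 : 0 ≤ x := by linarith
  have hyle : (⌊x⌋₊ : ℝ) ≤ x := Nat.floor_le hx0
  have hylt : x < (⌊x⌋₊ : ℝ) + 1 := Nat.lt_floor_add_one x
  have hyt : t ≤ (⌊x⌋₊ : ℝ) := by linarith
  set y := ⌊x⌋₊ with hy
  have hypos : (0 : ℝ) < y := by linarith
  have hl2sq : l2 ^ 2 ≤ t ^ (1 / 2 : ℝ) := by
    have h1 : l2 ^ 2 ≤ (t ^ (1 / 4 : ℝ)) ^ 2 := pow_le_pow_left₀ hl2pos.le e3 2
    refine h1.trans (le_of_eq ?_)
    rw [← Real.rpow_natCast, ← Real.rpow_mul ht0.le]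
    norm_num
  have hy32 : (y : ℝ) ≤ t ^ (3 / 2 : ℝ) := by
    have h1 : t * l2 ^ 2 ≤ t * t ^ (1 / 2 : ℝ) := mul_le_mul_of_nonneg_left hl2sq ht0.le
    have h2 : t * t ^ (1 / 2 : ℝ) = t ^ (3 / 2 : ℝ) := by
      nth_rewrite 1 [← Real.rpow_one t]
      rw [← Real.rpow_add ht0]
      norm_num
    linarith
  have hly1 : l2 ≤ Real.log y := Real.log_le_log ht0 hyt
  have hly2 : Real.log y ≤ 3 / 2 * l2 := by
    have h1 := Real.log_le_log hypos hy32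
    rwa [Real.log_rpow ht0] at h1
  have hly0 : 0 < Real.log (y : ℝ) := by linarith
  have hlly1 : l3 ≤ Real.log (Real.log y) := Real.log_le_log hl2pos hly1
  have hlly2 : Real.log (Real.log y) ≤ 6 / 5 * l3 := by
    have h1 := Real.log_le_log hly0 hly2
    rw [Real.log_mul (by norm_num) hl2pos.ne'] at h1
    have h2 := Real.log_le_sub_one_of_pos (show (0 : ℝ) < 3 / 2 by norm_num)
    linarith
  have hYhalf : t / 2 ≤ Real.log ((Y / 2 : ℕ) : ℝ) := by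
    have hYR : (16 : ℝ) ≤ Y := by exact_mod_cast e16
    have h1 : Real.sqrt Y ≤ ((Y / 2 : ℕ) : ℝ) := by
      have h2 : (Y : ℝ) / 2 - 1 / 2 ≤ ((Y / 2 : ℕ) : ℝ) := by
        have h3 : Y ≤ 2 * (Y / 2) + 1 := by omega
        have h4 : (Y : ℝ) ≤ 2 * ((Y / 2 : ℕ) : ℝ) + 1 := by exact_mod_cast h3
        linarith
      have h5 : Real.sqrt Y ≤ (Y : ℝ) / 4 := by
        have h6 : (4 : ℝ) ≤ Real.sqrt Y := by
          rw [show (4 : ℝ) = Real.sqrt 16 by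
            rw [show (16 : ℝ) = 4 ^ 2 by norm_num, Real.sqrt_sq (by norm_num)]]
          exact Real.sqrt_le_sqrt hYR
        have h7 := Real.sq_sqrt (show (0 : ℝ) ≤ Y by linarith)
        nlinarith
      linarith
    have h8 : Real.log (Real.sqrt Y) = t / 2 := by
      rw [Real.log_sqrt (by linarith)]
    rw [← h8]
    exact Real.log_le_log (Real.sqrt_pos.2 (by linarith)) h1
  refine ⟨y, ?_, ?_, ?_, ?_, ?_, ?_, ?_, ?_⟩
  · have h1 : (y₀ : ℝ) ≤ y := e6.trans hyt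
    exact_mod_cast h1
  · have h1 : (1 : ℝ) ≤ y := e0.trans hyt
    exact_mod_cast h1
  · exact hylt.le
  · have h1 : (y : ℝ) ≤ t * l2 ^ 2 := hyle.trans hxle
    have h2 : l2 ^ 4 ≤ Real.log (y : ℝ) ^ 4 := pow_le_pow_left₀ hl2pos.le hly1 4
    calc (y : ℝ) ≤ t * l2 ^ 2 := h1
      _ ≤ l2 ^ 4 * (t / 2) := by
          have h3 : 2 ≤ l2 ^ 2 := by nlinarith
          have h4 : 0 ≤ t * l2 ^ 2 := by positivity
          nlinarith
      _ ≤ Real.log (y : ℝ) ^ 4 * Real.log ((Y / 2 : ℕ) : ℝ) :=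
          mul_le_mul h2 hYhalf (by positivity) (by positivity)
  · have h1 : Real.log (Real.log y) ^ 2 ≤ (6 / 5 * l3) ^ 2 :=
      pow_le_pow_left₀ (by linarith) hlly2 2
    have h2 : l2 ^ 2 ≤ Real.log (y : ℝ) ^ 2 := pow_le_pow_left₀ hl2pos.le hly1 2
    have h3 : x * l3 ^ 2 = κ * t * l2 ^ 2 := by
      rw [hx]
      field_simp
    calc 512 * (y : ℝ) * Real.log (Real.log y) ^ 2 ≤ 512 * x * (6 / 5 * l3) ^ 2 := by
          gcongr
      _ = 512 * (36 / 25) * (κ * t * l2 ^ 2) := by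
          rw [← h3]
          ring
      _ ≤ 1000 * (κ * t * l2 ^ 2) :=
          mul_le_mul_of_nonneg_right (by norm_num) (by positivity)
      _ = ε / 4 * c₃ * (θ / 2) * l2 ^ 2 * (t / 2) := by
          rw [hκd]
          ring
      _ ≤ ε / 4 * c₃ * (θ / 2) * Real.log y ^ 2 * Real.log ((Y / 2 : ℕ) : ℝ) := by
          gcongr
  · have h1 : (Zt (θ / 2) y : ℝ) ≤ (y : ℝ) ^ (θ / 2) := Nat.floor_le (by positivity)
    have h2 : (y : ℝ) ^ (θ / 2) ≤ t ^ (3 * θ / 4) := by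
      calc (y : ℝ) ^ (θ / 2) ≤ (t ^ (3 / 2 : ℝ)) ^ (θ / 2) :=
            Real.rpow_le_rpow hypos.le hy32 (by positivity)
        _ = t ^ (3 * θ / 4) := by
            rw [← Real.rpow_mul ht0.le]
            congr 1
            ring
    have h3 : t ^ θ = t ^ (3 * θ / 4) * t ^ (θ / 4) := by
      rw [← Real.rpow_add ht0]
      congr 1
      ring
    have h4 : 1 ≤ t ^ (3 * θ / 4) := Real.one_le_rpow e0 (by positivity)
    rw [h3]
    nlinarith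
  · rw [div_le_iff₀ hly0]
    rw [div_le_iff₀ hε] at e5
    nlinarith
  · have h1 : (y : ℝ) ≤ t ^ (2 : ℕ) := by
      refine hy32.trans ?_
      rw [← Real.rpow_natCast]
      exact Real.rpow_le_rpow_of_exponent_le e0 (by norm_num)
    linarith

end Pool.Agent.Lib.MP_bae66e_nt.TL
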