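import Pool.Agent.Lib.MP_bae66e_nt.TL.D3
import Pool.Agent.Lib.MP_bae66e_nt.TL.D4

/-!
# D5: large values in almost all very short intervals
-/

set_option autoImplicit false

open Finset Nat Filter

namespace Pool.Agent.Lib.MP_bae66e_nt.TL

lemma D5_core (ε : ℝ) (hε : 0 < ε) (hε1 : ε ≤ 1) : ∃ c : ℝ, 0 < c ∧ ∀ θ : ℝ, 0 < θ → θ ≤ 1 →
    ∃ Y₀ : ℕ, ∀ Y : ℕ, Y₀ ≤ Y → ∀ A : ℕ, ∀ S : Finset ℕ, S ⊆ Finset.Ioc A (A + Y) →
    (∀ a ∈ S, ¬ ∃ m : ℕ, a < m ∧ (m : ℝ) ≤ a + Real.log Y ^ θ ∧ 4 ≤ m ∧ Even m ∧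
      ∀ p : ℕ, p.Prime → (m - p).Prime →
        c * θ * Real.log Y * Real.log (Real.log Y) ^ 2 /
          Real.log (Real.log (Real.log Y)) ^ 2 ≤ p) →
    (#S : ℝ) ≤ ε * Y := by
  classical
  obtain ⟨c₃, hc, hc1, hcore⟩ := core_two
  refine ⟨ε * c₃ / 16000, by positivity, fun θ hθ hθ1 => ?_⟩
  obtain ⟨y₀, hy₀⟩ := hcore (θ / 2) (by positivity) (by linarith)
  obtain ⟨Y₀, hY₀⟩ := params_two ε c₃ θ hε hε1 hc hc1 hθ hθ1 y₀
  refine ⟨Y₀, fun Y hY A S hS hbad => ?_⟩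
  obtain ⟨y, hyy, hy1, h1, h2, h3, h4, h5, h6⟩ := hY₀ Y hY
  set a₀ := A + A % 2 with ha₀
  have ha₀e : Even a₀ := by
    rw [Nat.even_iff]
    omega
  have hE := hy₀ y hyy a₀ (Y / 2) ha₀e h2 (ε / 4) (by positivity) h3
  set E := {t ∈ Finset.Ioc 0 (Y / 2) | ¬ ∃ u ∈ Finset.Ioc y (y + Zt (θ / 2) y), Even u ∧
        ∀ p ∈ Finset.Icc 1 y, p.Prime → ¬ (a₀ + 2 * t + u - p).Prime} with hEd
  have hcover : S ⊆ Finset.Ioc A (A + (y + 3)) ∪
      E.biUnion (fun t => {a₀ + 2 * t + y, a₀ + 2 * t + y - 1}) := by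
    intro a ha
    rw [Finset.mem_union]
    have haI := Finset.mem_Ioc.1 (hS ha)
    by_cases hay : a ≤ A + (y + 3)
    · left
      exact Finset.mem_Ioc.2 ⟨haI.1, hay⟩
    · right
      rw [Finset.mem_biUnion]
      set t := (a - y - a₀ + 1) / 2 with ht
      refine ⟨t, ?_, ?_⟩
      · rw [hEd, Finset.mem_filter]
        refine ⟨Finset.mem_Ioc.2 ⟨by omega, by omega⟩, ?_⟩
        rintro ⟨u, hu, hue, hup⟩
        rw [Finset.mem_Ioc] at hu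
        apply hbad a ha
        have hz : (y : ℝ) + Zt (θ / 2) y ≥ u := by exact_mod_cast hu.2
        have hle : a₀ + 2 * t + y ≤ a + 1 := by omega
        have hge : a ≤ a₀ + 2 * t + y := by omega
        refine ⟨a₀ + 2 * t + u, by omega, ?_, by omega, ?_, ?_⟩
        · have h7 : a₀ + 2 * t + u ≤ a + 1 + Zt (θ / 2) y := by omega
          have h8 : ((a₀ + 2 * t + u : ℕ) : ℝ) ≤ a + 1 + Zt (θ / 2) y := by exact_mod_cast h7
          linarith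
        · exact (ha₀e.add (even_two_mul t)).add hue
        · intro p hp hmp
          have hpy : ¬ p ≤ y := fun hpy => hup p (Finset.mem_Icc.2 ⟨hp.one_le, hpy⟩) hp hmp
          have h9 : y + 1 ≤ p := by omega
          have h10 : (y : ℝ) + 1 ≤ p := by exact_mod_cast h9
          exact h1.trans h10
      · simp only [Finset.mem_insert, Finset.mem_singleton]
        omega
  have hcard : #S ≤ (y + 3) + 2 * #E := by
    refine (Finset.card_le_card hcover).trans ((Finset.card_union_le _ _).trans ?_)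
    have e1 : #(Finset.Ioc A (A + (y + 3))) = y + 3 := by rw [Nat.card_Ioc]; omega
    have e2 : #(E.biUnion (fun t => ({a₀ + 2 * t + y, a₀ + 2 * t + y - 1} : Finset ℕ))) ≤ #E * 2 :=
      Finset.card_biUnion_le_card_mul _ _ _ (fun t _ => Finset.card_le_two)
    omega
  have hT : ((Y / 2 : ℕ) : ℝ) ≤ Y / 2 := Nat.cast_div_le
  have hcardR : (#S : ℝ) ≤ ((y : ℝ) + 3) + 2 * #E := by exact_mod_cast hcard
  have h11 : (2 * (ε / 4) + 2 / Real.log y) * ((Y / 2 : ℕ) : ℝ) ≤ (2 * (ε / 4) + ε / 4) * (Y / 2) := by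
    apply mul_le_mul (by linarith) hT (by positivity) (by positivity)
  linarith

/-- **Part (ii).** `core_two` (with `θ / 2`, `a = A + A % 2`, `T = Y / 2`, `δ = ε / 4`) and
`params_two`. To `a ∈ (A + y + 3, A + Y]` attach `t = (a - y - a₀ + 1) / 2 ∈ (0, Y / 2]`, so that
`a₀ + 2 t + y ∈ {a, a + 1}`; at most two `a` have the same `t`. If `t` is not exceptional then
`m = a₀ + 2 t + u ∈ (a, a + 1 + Zt]` is as wanted (a prime `p` with `m - p` prime is `> y`, hence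
`≥ y + 1`). So at most `y + 3 + 2 (ε/2 + ε/4) Y / 2 ≤ ε Y` of the `a` are exceptional. (For
`ε > 1` use the statement for `1`.) -/
theorem part_two (ε : ℝ) (hε : 0 < ε) : ∃ c : ℝ, 0 < c ∧ ∀ θ : ℝ, 0 < θ → θ ≤ 1 →
    ∃ Y₀ : ℕ, ∀ Y : ℕ, Y₀ ≤ Y → ∀ A : ℕ, ∀ S : Finset ℕ, S ⊆ Finset.Ioc A (A + Y) →
    (∀ a ∈ S, ¬ ∃ m : ℕ, a < m ∧ (m : ℝ) ≤ a + Real.log Y ^ θ ∧ 4 ≤ m ∧ Even m ∧
      ∀ p : ℕ, p.Prime → (m - p).Prime →
        c * θ * Real.log Y * Real.log (Real.log Y) ^ 2 /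
          Real.log (Real.log (Real.log Y)) ^ 2 ≤ p) →
    (#S : ℝ) ≤ ε * Y := by
  rcases le_or_gt ε 1 with h | h
  · exact D5_core ε hε h
  · obtain ⟨c, hc, hh⟩ := D5_core 1 one_pos le_rfl
    refine ⟨c, hc, fun θ hθ hθ1 => ?_⟩
    obtain ⟨Y₀, hY₀⟩ := hh θ hθ hθ1
    refine ⟨Y₀, fun Y hY A S hS hbad => ?_⟩
    refine (hY₀ Y hY A S hS hbad).trans ?_
    exact mul_le_mul_of_nonneg_right h.le (Nat.cast_nonneg _)

end Pool.Agent.Lib.MP_bae66e_nt.TL
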