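import Pool.Agent.Lib.MP_bae66e_nt.Final
import Pool.Agent.Lib.MP_bae66e_nt.BrunT
import Pool.Agent.Lib.MP_bae66e_nt.AP3.Mert

/-!
# Two-level method for large values of the least Goldbach prime: definitions
-/

set_option autoImplicit false

open Finset Nat

namespace Pool.Agent.Lib.MP_bae66e_nt.TL

/-- `log y / log log y` -/
noncomputable def LL (y : ℕ) : ℝ := Real.log y / Real.log (Real.log y)

/-- the `u` in `(y, 2y]` for which `u - n` is a prime larger than `w` -/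
def hitS (y w n : ℕ) : Finset ℕ :=
  {u ∈ Finset.Ioc y (2 * y) | n < u ∧ (u - n).Prime ∧ w < u - n}

/-- the residue class `b mod W` in `(y, y + Z]` -/
def apU (y Z W b : ℕ) : Finset ℕ := {u ∈ Finset.Ioc y (y + Z) | u ≡ b [MOD W]}

/-- lists of length `k` with entries in `N` -/
def Lst (N : Finset ℕ) : ℕ → Finset (List ℕ)
  | 0 => {[]}
  | k + 1 => (N ×ˢ Lst N k).image (fun p => p.1 :: p.2)

/-- the elements of `V` not hit by the entries of `l` -/
def rest (H : ℕ → Finset ℕ) (V : Finset ℕ) (l : List ℕ) : Finset ℕ :=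
  {u ∈ V | ∀ n ∈ l, u ∉ H n}

/-- the list `l` reduces `V` below size `B` without giant steps -/
def NB (H : ℕ → Finset ℕ) (B : ℕ) : Finset ℕ → List ℕ → Prop
  | V, [] => #V < B
  | V, n :: l => #V < B ∨ (2 * #(V ∩ H n) ≤ #V ∧ NB H B (V \ H n) l)

/-- the entry with index `i` of `l` is a giant step -/
def GE (H : ℕ → Finset ℕ) (B : ℕ) (V : Finset ℕ) (l : List ℕ) (i : ℕ) : Prop :=
  ∃ h : i < l.length, B ≤ #(rest H V (l.take i)) ∧
    #(rest H V (l.take i)) < 2 * #(rest H V (l.take i) ∩ H l[i])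

/-- parameters; `θ` is the exponent of the length of the window for `u` -/
noncomputable def Zt (θ : ℝ) (y : ℕ) : ℕ := ⌊(y : ℝ) ^ θ⌋₊
noncomputable def w1 (θ : ℝ) (y : ℕ) : ℕ := ⌊θ * Real.log y / 16⌋₊
noncomputable def w2 (y : ℕ) : ℕ := ⌊8 * Real.log y⌋₊
noncomputable def Bt (θ : ℝ) (y : ℕ) : ℕ := ⌊(y : ℝ) ^ (θ / 4)⌋₊

/-! ### simple facts -/

lemma mem_hitS {y w n u : ℕ} : u ∈ hitS y w n ↔
    (y < u ∧ u ≤ 2 * y) ∧ n < u ∧ (u - n).Prime ∧ w < u - n := by
  unfold hitS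
  rw [Finset.mem_filter, Finset.mem_Ioc]

lemma mem_apU {y Z W b u : ℕ} : u ∈ apU y Z W b ↔ (y < u ∧ u ≤ y + Z) ∧ u ≡ b [MOD W] := by
  unfold apU
  rw [Finset.mem_filter, Finset.mem_Ioc]

lemma mem_rest {H : ℕ → Finset ℕ} {V : Finset ℕ} {l : List ℕ} {u : ℕ} :
    u ∈ rest H V l ↔ u ∈ V ∧ ∀ n ∈ l, u ∉ H n := by
  unfold rest
  rw [Finset.mem_filter]

lemma apU_subset (y Z W b : ℕ) : apU y Z W b ⊆ Finset.Ioc y (y + Z) := by
  unfold apU
  exact Finset.filter_subset _ _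

lemma rest_subset (H : ℕ → Finset ℕ) (V : Finset ℕ) (l : List ℕ) : rest H V l ⊆ V := by
  unfold rest
  exact Finset.filter_subset _ _

lemma rest_nil (H : ℕ → Finset ℕ) (V : Finset ℕ) : rest H V [] = V := by
  ext u
  rw [mem_rest]
  simp

lemma rest_cons (H : ℕ → Finset ℕ) (V : Finset ℕ) (n : ℕ) (l : List ℕ) :
    rest H V (n :: l) = rest H (V \ H n) l := by
  ext u
  rw [mem_rest, mem_rest, Finset.mem_sdiff]
  simp only [List.mem_cons, forall_eq_or_imp]
  tauto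

lemma rest_append (H : ℕ → Finset ℕ) (V : Finset ℕ) (l l' : List ℕ) :
    rest H V (l ++ l') = rest H (rest H V l) l' := by
  ext u
  rw [mem_rest, mem_rest, mem_rest]
  simp only [List.mem_append]
  constructor
  · rintro ⟨h1, h2⟩
    exact ⟨⟨h1, fun n hn => h2 n (Or.inl hn)⟩, fun n hn => h2 n (Or.inr hn)⟩
  · rintro ⟨⟨h1, h2⟩, h3⟩
    exact ⟨h1, fun n hn => hn.elim (h2 n) (h3 n)⟩

lemma rest_mono_left (H : ℕ → Finset ℕ) {V V' : Finset ℕ} (h : V ⊆ V') (l : List ℕ) :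
    rest H V l ⊆ rest H V' l := by
  intro u hu
  rw [mem_rest] at hu ⊢
  exact ⟨h hu.1, hu.2⟩

lemma mem_Lst {N : Finset ℕ} {k : ℕ} {l : List ℕ} :
    l ∈ Lst N k ↔ l.length = k ∧ ∀ n ∈ l, n ∈ N := by
  induction k generalizing l with
  | zero =>
    simp only [Lst, Finset.mem_singleton]
    constructor
    · rintro rfl; simp
    · rintro ⟨h, _⟩; exact List.length_eq_zero_iff.mp h
  | succ k ih =>
    simp only [Lst, Finset.mem_image, Finset.mem_product, Prod.exists]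
    constructor
    · rintro ⟨a, l', ⟨ha, hl'⟩, rfl⟩
      rw [ih] at hl'
      refine ⟨by simp [hl'.1], ?_⟩
      intro n hn
      rcases List.mem_cons.mp hn with rfl | h
      · exact ha
      · exact hl'.2 n h
    · rintro ⟨h1, h2⟩
      cases l with
      | nil => simp at h1
      | cons a l' =>
        refine ⟨a, l', ⟨h2 a (by simp), ih.mpr ⟨by simpa using h1, fun n hn => h2 n (by simp [hn])⟩⟩,
          rfl⟩

lemma card_Lst (N : Finset ℕ) (k : ℕ) : #(Lst N k) = #N ^ k := by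
  induction k with
  | zero => simp [Lst]
  | succ k ih =>
    rw [Lst, Finset.card_image_of_injective, Finset.card_product, ih, pow_succ, mul_comm]
    rintro ⟨a, l⟩ ⟨b, l'⟩ h
    simp only [List.cons.injEq] at h
    exact Prod.ext h.1 h.2

lemma sum_Lst_succ (N : Finset ℕ) (k : ℕ) (f : List ℕ → ℝ) :
    ∑ l ∈ Lst N (k + 1), f l = ∑ n ∈ N, ∑ l ∈ Lst N k, f (n :: l) := by
  rw [Lst, Finset.sum_image, Finset.sum_product]
  rintro ⟨a, l⟩ _ ⟨b, l'⟩ _ h
  simp only [List.cons.injEq] at h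
  exact Prod.ext h.1 h.2

end Pool.Agent.Lib.MP_bae66e_nt.TL
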