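import Pool.Agent.Lib.MP_bae66e_nt.TL.Defs

/-!
# E1: integers with a large prime factor
-/

set_option autoImplicit false

open Finset Nat

namespace Pool.Agent.Lib.MP_bae66e_nt.TL

/-- the `n ≤ 2y` with a prime factor larger than `x` -/
def V0 (x y : ℕ) : Finset ℕ := {n ∈ Finset.Ioc 0 (2 * y) | ∃ r ∈ n.primeFactors, x < r}

/-- E1. `n = k r`, `r > x` prime, `k ≤ 2y / x`: `#V0 ≤ ∑_{k ≤ 2y/x} π(2y / k)` and
`π(t) ≤ 5 t / log t ≤ 5 (2y / k) / log x` for `t = 2y / k` (floor) `≥ x ≥ 2` (`pi_upper`);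
`∑_{k ≤ 2y/x} 1/k ≤ 1 + log (2y / x)` (`sum_one_div_le`). -/
lemma card_V0_le (x y : ℕ) (hx : 2 ≤ x) (hxy : x ≤ 2 * y) :
    (#(V0 x y) : ℝ) ≤ 10 * y / Real.log x * (1 + Real.log (2 * y / x)) := by
  have hx0 : 0 < x := by omega
  have hxr : (2 : ℝ) ≤ x := by exact_mod_cast hx
  have hlx : 0 < Real.log x := Real.log_pos (by linarith)
  have hsub : V0 x y ⊆ (Finset.Icc 1 (2 * y / x)).biUnion (fun k => (prms (2 * y / k)).image (fun r => k * r)) := by
    intro n hn
    unfold V0 at hn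
    rw [Finset.mem_filter, Finset.mem_Ioc] at hn
    obtain ⟨⟨hn0, hn1⟩, r, hr, hxr'⟩ := hn
    have hrp := Nat.prime_of_mem_primeFactors hr
    obtain ⟨k, hk⟩ := Nat.dvd_of_mem_primeFactors hr
    have hk0 : 0 < k := by
      rcases Nat.eq_zero_or_pos k with h | h
      · rw [h] at hk; omega
      · exact h
    rw [Finset.mem_biUnion]
    refine ⟨k, ?_, ?_⟩
    · rw [Finset.mem_Icc]
      refine ⟨hk0, ?_⟩
      rw [Nat.le_div_iff_mul_le hx0]
      calc k * x ≤ k * r := Nat.mul_le_mul_left _ hxr'.le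
        _ = n := by rw [hk, mul_comm]
        _ ≤ 2 * y := hn1
    · rw [Finset.mem_image]
      refine ⟨r, ?_, by rw [hk, mul_comm]⟩
      rw [mem_prms]
      refine ⟨?_, hrp⟩
      rw [Nat.le_div_iff_mul_le hk0]
      rw [← hk]; exact hn1
  have h1 : (#(V0 x y) : ℝ) ≤ ∑ k ∈ Finset.Icc 1 (2 * y / x), (#(prms (2 * y / k)) : ℝ) := by
    have h2 : #(V0 x y) ≤ ∑ k ∈ Finset.Icc 1 (2 * y / x), #(prms (2 * y / k)) := by
      refine (Finset.card_le_card hsub).trans (Finset.card_biUnion_le.trans ?_)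
      exact Finset.sum_le_sum fun k _ => Finset.card_image_le
    exact_mod_cast h2
  have hpi : ∀ n : ℕ, #(prms n) = Nat.primeCounting n := by
    intro n
    rw [Nat.primeCounting, Nat.primeCounting', Nat.count_eq_card_filter_range]
    congr 1
    ext p
    rw [mem_prms, Finset.mem_filter, Finset.mem_range]
    constructor
    · rintro ⟨h, h'⟩; exact ⟨by omega, h'⟩
    · rintro ⟨h, h'⟩; exact ⟨by omega, h'⟩
  have h3 : ∀ k ∈ Finset.Icc 1 (2 * y / x), (#(prms (2 * y / k)) : ℝ) ≤ 10 * y / Real.log x * (1 / (k : ℝ)) := by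
    intro k hk
    rw [Finset.mem_Icc] at hk
    have hk0 : 0 < k := hk.1
    have hkx : k * x ≤ 2 * y := (Nat.le_div_iff_mul_le hx0).1 hk.2
    have hxt : x ≤ 2 * y / k := by
      rw [Nat.le_div_iff_mul_le hk0, mul_comm]; exact hkx
    have hxt' : (x : ℝ) ≤ ((2 * y / k : ℕ) : ℝ) := by exact_mod_cast hxt
    have hlt : Real.log x ≤ Real.log ((2 * y / k : ℕ) : ℝ) := Real.log_le_log (by linarith) hxt'
    have ht : ((2 * y / k : ℕ) : ℝ) ≤ 2 * y / k := by
      have := @Nat.cast_div_le ℝ _ _ _ (2 * y) k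
      simpa using this
    rw [hpi]
    refine (pi_upper _ (hx.trans hxt)).trans ?_
    have hk0' : (0 : ℝ) < k := by exact_mod_cast hk0
    calc 5 * ((2 * y / k : ℕ) : ℝ) / Real.log ((2 * y / k : ℕ) : ℝ)
        ≤ 5 * ((2 * y / k : ℕ) : ℝ) / Real.log x := by
          apply div_le_div_of_nonneg_left (by positivity) hlx hlt
      _ ≤ 5 * (2 * y / k) / Real.log x := by
          gcongr
      _ = 10 * y / Real.log x * (1 / (k : ℝ)) := by
          field_simp
          ring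
  refine h1.trans ((Finset.sum_le_sum h3).trans ?_)
  rw [← Finset.mul_sum]
  have h4 : 0 ≤ 10 * (y : ℝ) / Real.log x := by positivity
  refine mul_le_mul_of_nonneg_left ((sum_one_div_le _).trans ?_) h4
  have hN1 : 1 ≤ 2 * y / x := by
    rw [Nat.le_div_iff_mul_le hx0]; omega
  have h5 : ((2 * y / x : ℕ) : ℝ) ≤ 2 * y / x := by
    have := @Nat.cast_div_le ℝ _ _ _ (2 * y) x
    simpa using this
  have h6 : (0 : ℝ) < ((2 * y / x : ℕ) : ℝ) := by exact_mod_cast hN1
  have := Real.log_le_log h6 h5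
  linarith

end Pool.Agent.Lib.MP_bae66e_nt.TL
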