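import Pool.Agent.Lib.MP_bae66e_nt.TL.E3b

/-!
# E10: the choice of `k`
-/

set_option autoImplicit false

open Finset Nat Filter

namespace Pool.Agent.Lib.MP_bae66e_nt.TL

/-- E10. The choice of `k = ⌊c₃ l₂² / (2 l₃³)⌋` and the numerical conditions of `core` for
`θ = 1`, `δ = 1/8`, `κ = c₀ c₃ / 512` (`params_log`: `k (loglog y)^3 ≤ c₃ l₂² / (2 l₃³) * 1.728 l₃³ ≤
c₃ (log y)^2`; `k ≥ c₃ l₂² / (4 l₃³)`, `rho Q ≥ c₀ / log x ≥ c₀ / l₂`, `lT ≥ l₁ / 2`;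
`y ≤ l₁ l₂^4 / 2 ≤ (log y)^4 lT`). -/
lemma k_choice (c c₀ c₃ : ℝ) (hc : 0 < c) (hc1 : c ≤ 1) (hc₀ : 0 < c₀) (hc₃ : 0 < c₃)
    (hc₃1 : c₃ ≤ 1) : ∃ Y₀ : ℕ, ∀ Y : ℕ, Y₀ ≤ Y → ∃ k : ℕ, 1 ≤ k ∧
    (k : ℝ) * Real.log (Real.log (py c Y)) ^ 3 ≤ c₃ * 1 * (Real.log (py c Y)) ^ 2 ∧
    ∀ lT r n e : ℝ, Real.log Y / 2 ≤ lT → c₀ / Real.log (px Y) ≤ r →
      n ≤ c₀ * c₃ / 512 * Real.log Y * Real.log (Real.log Y) /
        Real.log (Real.log (Real.log Y)) ^ 3 →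
      e ≤ c₀ * c₃ / 512 * Real.log Y / Real.log (Real.log Y) →
      8 * n ≤ 1 / 8 * k * r * lT ∧ 8 * e ≤ 1 / 8 * r * lT ∧
      (py c Y : ℝ) ≤ (Real.log (py c Y)) ^ 4 * lT := by
  have hev : ∀ᶠ x : ℝ in atTop, 1 ≤ x ∧ Real.log x ^ 3 ≤ c₃ / 4 * x := by
    have h2 := (Real.isLittleO_pow_log_id_atTop (n := 3)).bound
      (by positivity : (0 : ℝ) < c₃ / 4)
    filter_upwards [h2, eventually_ge_atTop (1 : ℝ)] with x hx2 hx3
    refine ⟨hx3, ?_⟩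
    rw [Real.norm_eq_abs, Real.norm_eq_abs, id_eq, abs_of_nonneg (by linarith : (0 : ℝ) ≤ x)] at hx2
    exact (le_abs_self _).trans hx2
  obtain ⟨Y₁, h1⟩ := params_size c hc hc1
  obtain ⟨Y₃, h3⟩ := params_log c hc hc1
  obtain ⟨Y₂, h2⟩ := eventually_atTop.1
    ((Real.tendsto_log_atTop.comp (Real.tendsto_log_atTop.comp
      tendsto_natCast_atTop_atTop)).eventually hev)
  refine ⟨max (max Y₁ Y₂) Y₃, fun Y hY => ?_⟩
  obtain ⟨-, hy, -⟩ := h1 Y (((le_max_left _ _).trans (le_max_left _ _)).trans hY)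
  obtain ⟨hM1, hPM⟩ := h2 Y (((le_max_right _ _).trans (le_max_left _ _)).trans hY)
  rw [Function.comp_apply, Function.comp_apply] at hM1 hPM
  obtain ⟨g1, g2, g3, g4, g5, g6, -, -, -, g7, g8, g9, g10⟩ := h3 Y ((le_max_right _ _).trans hY)
  set L := Real.log Y with hLdef
  set M := Real.log L with hMdef
  set P := Real.log M with hPdef
  have hP1 : 1 ≤ P := g7.trans g8
  have hM0 : 0 < M := by linarith
  have hP0 : 0 < P := by linarith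
  have hL0 : 0 < L := by linarith
  have hP3 : 0 < P ^ 3 := by positivity
  have hbig : 1 ≤ c₃ * M ^ 2 / (4 * P ^ 3) := by
    rw [le_div_iff₀ (by positivity), one_mul]
    have h4 : c₃ * M ≤ c₃ * M ^ 2 := by
      refine mul_le_mul_of_nonneg_left ?_ hc₃.le
      nlinarith
    linarith
  have hk2 : c₃ * M ^ 2 / (2 * P ^ 3) = 2 * (c₃ * M ^ 2 / (4 * P ^ 3)) := by
    field_simp
    norm_num
  have hkle : ((⌊c₃ * M ^ 2 / (2 * P ^ 3)⌋₊ : ℕ) : ℝ) ≤ c₃ * M ^ 2 / (2 * P ^ 3) :=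
    Nat.floor_le (by positivity)
  have hkge : c₃ * M ^ 2 / (4 * P ^ 3) ≤ ((⌊c₃ * M ^ 2 / (2 * P ^ 3)⌋₊ : ℕ) : ℝ) := by
    have h5 := Nat.lt_floor_add_one (c₃ * M ^ 2 / (2 * P ^ 3))
    linarith
  refine ⟨⌊c₃ * M ^ 2 / (2 * P ^ 3)⌋₊, ?_, ?_, ?_⟩
  · have h5 : (1 : ℝ) ≤ ((⌊c₃ * M ^ 2 / (2 * P ^ 3)⌋₊ : ℕ) : ℝ) := hbig.trans hkge
    exact_mod_cast h5
  · have h6 : Real.log (Real.log (py c Y)) ^ 3 ≤ (1.2 * P) ^ 3 :=
      pow_le_pow_left₀ g4.le g3 3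
    have h7 : M ^ 2 ≤ Real.log (py c Y) ^ 2 := pow_le_pow_left₀ hM0.le g1 2
    calc ((⌊c₃ * M ^ 2 / (2 * P ^ 3)⌋₊ : ℕ) : ℝ) * Real.log (Real.log (py c Y)) ^ 3
        ≤ c₃ * M ^ 2 / (2 * P ^ 3) * (1.2 * P) ^ 3 :=
          mul_le_mul hkle h6 (by positivity) (by positivity)
      _ = 0.864 * (c₃ * M ^ 2) := by field_simp; ring
      _ ≤ c₃ * M ^ 2 := by nlinarith [mul_pos hc₃ (pow_pos hM0 2)]
      _ ≤ c₃ * 1 * Real.log (py c Y) ^ 2 := by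
          rw [mul_one]
          exact mul_le_mul_of_nonneg_left h7 hc₃.le
  · intro lT r n e hlT hr hn he
    have hlx : 0 < Real.log (px Y) := by linarith
    have hr' : c₀ / M ≤ r := (div_le_div_of_nonneg_left hc₀.le hlx g6).trans hr
    have hr0 : 0 < c₀ / M := by positivity
    have hrl : c₀ / M * (L / 2) ≤ r * lT :=
      mul_le_mul hr' hlT (by positivity) (hr0.le.trans hr')
    have hrl0 : 0 ≤ c₀ / M * (L / 2) := by positivity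
    refine ⟨?_, ?_, ?_⟩
    · calc 8 * n ≤ 8 * (c₀ * c₃ / 512 * L * M / P ^ 3) := by linarith
        _ = 1 / 8 * (c₃ * M ^ 2 / (4 * P ^ 3)) * (c₀ / M * (L / 2)) := by
            field_simp
            norm_num
        _ ≤ 1 / 8 * ((⌊c₃ * M ^ 2 / (2 * P ^ 3)⌋₊ : ℕ) : ℝ) * (r * lT) := by
            refine mul_le_mul ?_ hrl hrl0 (by positivity)
            linarith
        _ = 1 / 8 * ((⌊c₃ * M ^ 2 / (2 * P ^ 3)⌋₊ : ℕ) : ℝ) * r * lT := by ring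
    · calc 8 * e ≤ 8 * (c₀ * c₃ / 512 * L / M) := by linarith
        _ = c₃ * (1 / 64 * (c₀ / M * L)) := by field_simp; norm_num
        _ ≤ 1 * (1 / 64 * (c₀ / M * L)) := mul_le_mul_of_nonneg_right hc₃1 (by positivity)
        _ ≤ 1 / 8 * (c₀ / M * (L / 2)) := by
            have : 0 ≤ c₀ / M * L := by positivity
            linarith
        _ ≤ 1 / 8 * (r * lT) := by linarith
        _ = 1 / 8 * r * lT := by ring
    · calc (py c Y : ℝ) ≤ M ^ 4 * (L / 2) := by linarith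
        _ ≤ Real.log (py c Y) ^ 4 * lT := by
            refine mul_le_mul (pow_le_pow_left₀ hM0.le g1 4) hlT (by positivity) ?_
            have : 0 < Real.log (py c Y) := by linarith
            positivity

end Pool.Agent.Lib.MP_bae66e_nt.TL
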