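import Pool.Agent.Lib.MP_bae66e_nt.TL.E3b

/-!
# E4: smooth numbers
-/

set_option autoImplicit false

open Finset Nat Filter

namespace Pool.Agent.Lib.MP_bae66e_nt.TL

/-- E4. `rankin (2y) z η` with `η = 50 l₃ / l₂ ≤ 1/4`: `z^η ≤ exp (l₄) = l₃`, `(2y)^(-η) ≤
exp (-50 l₃) = l₂^(-50)`, `loglog z ≤ l₃`, so `#smooths ≤ 2y l₂^(-50) exp (6 l₃ + 4 + 4 l₃ + 5/2 C32)
≤ C y l₂^(-40) ≤ κ l₁ / l₂`. -/
lemma card_smooths_le (κ c : ℝ) (hκ : 0 < κ) (hc : 0 < c) (hc1 : c ≤ 1) : ∃ Y₀ : ℕ,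
    ∀ Y : ℕ, Y₀ ≤ Y →
    (#(smooths (2 * py c Y) (pz Y)) : ℝ) ≤ κ * Real.log Y / Real.log (Real.log Y) := by
  obtain ⟨Y1, hY1⟩ := params_size c hc hc1
  obtain ⟨Y2, hY2⟩ := params_log c hc hc1
  obtain ⟨D, hD⟩ : ∃ D : ℝ, D = 4 + 5 / 2 * C32 := ⟨_, rfl⟩
  have hev1 : ∀ᶠ t : ℝ in atTop, Real.log t ≤ t / 200 := by
    have h := Real.isLittleO_log_id_atTop.bound (show (0 : ℝ) < 1 / 200 by norm_num)
    filter_upwards [h, eventually_ge_atTop (1 : ℝ)] with t ht ht1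
    have h2 : Real.log t ≤ ‖Real.log t‖ := le_abs_self _
    have h3 : ‖(id t : ℝ)‖ = t := abs_of_nonneg (by
      change (0 : ℝ) ≤ t
      linarith)
    rw [h3] at ht
    linarith
  have hev : ∀ᶠ t : ℝ in atTop, Real.log t ≤ t / 200 ∧ 1 ≤ t ∧ Real.exp D / κ ≤ t := by
    filter_upwards [hev1, eventually_ge_atTop (1 : ℝ), eventually_ge_atTop (Real.exp D / κ)]
      with t h1 h2 h3
    exact ⟨h1, h2, h3⟩
  have htend : Tendsto (fun Y : ℕ => Real.log (Real.log (Y : ℝ))) atTop atTop :=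
    Real.tendsto_log_atTop.comp (Real.tendsto_log_atTop.comp tendsto_natCast_atTop_atTop)
  obtain ⟨Y3, hY3⟩ := Filter.eventually_atTop.mp (htend.eventually hev)
  refine ⟨max Y1 (max Y2 Y3), fun Y hY => ?_⟩
  obtain ⟨a1, a2, _, _, _, _, _, a8, _, _, a11⟩ := hY1 Y (le_trans (le_max_left _ _) hY)
  obtain ⟨b1, _, _, _, _, _, _, _, _, b10, b11, b12, b13⟩ :=
    hY2 Y (le_trans ((le_max_left _ _).trans (le_max_right _ _)) hY)
  obtain ⟨c1, c2, c3⟩ := hY3 Y (le_trans ((le_max_right _ _).trans (le_max_right _ _)) hY)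
  -- names
  have hpz : (pz Y : ℝ) ≤ Real.exp (Real.log (Real.log Y) *
      Real.log (Real.log (Real.log (Real.log Y))) / (50 * Real.log (Real.log (Real.log Y)))) := by
    unfold pz
    exact Nat.floor_le (Real.exp_pos _).le
  generalize hl1 : Real.log (Y : ℝ) = l1 at *
  generalize hl2 : Real.log l1 = l2 at *
  generalize hl3 : Real.log l2 = l3 at *
  generalize hl4 : Real.log l3 = l4 at *
  generalize pz Y = z at *
  generalize py c Y = y at *
  have hl30 : 1 ≤ l3 := by linarith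
  have hl20 : 0 < l2 := by linarith
  have hl10 : 0 < l1 := by linarith
  have hexp3 : Real.exp l3 = l2 := by rw [← hl3, Real.exp_log hl20]
  have hexp4 : Real.exp l4 = l3 := by rw [← hl4, Real.exp_log (by linarith)]
  have hyr : (1 : ℝ) ≤ y := by linarith
  have hy1 : 1 ≤ y := by exact_mod_cast hyr
  have hz2 : (2 : ℝ) ≤ z := by exact_mod_cast a8
  have hη : 50 * l3 / l2 ≤ 1 / 4 := by
    rw [div_le_iff₀ hl20]
    linarith
  have hη0 : 0 ≤ 50 * l3 / l2 := by positivity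
  have hr := rankin (2 * y) z (50 * l3 / l2) hη a8 (by omega)
  -- the pieces
  have e1 : (z : ℝ) ^ (50 * l3 / l2) ≤ l3 := by
    have h1 : (z : ℝ) ^ (50 * l3 / l2) ≤ (Real.exp (l2 * l4 / (50 * l3))) ^ (50 * l3 / l2) :=
      Real.rpow_le_rpow (by linarith) hpz hη0
    rw [← Real.exp_mul] at h1
    have h2 : l2 * l4 / (50 * l3) * (50 * l3 / l2) = l4 := by
      field_simp
    rw [h2, hexp4] at h1
    exact h1
  have e2 : Real.log (Real.log z) ≤ l3 := by
    rw [← hl3]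
    exact Real.log_le_log (Real.log_pos (by linarith)) a11
  have e3 : ((2 * y : ℕ) : ℝ) ^ (1 - 50 * l3 / l2) ≤ 2 * y * Real.exp (-(50 * l3)) := by
    have h0 : (0 : ℝ) < ((2 * y : ℕ) : ℝ) := by push_cast; linarith
    have h1 : ((2 * y : ℕ) : ℝ) ^ (1 - 50 * l3 / l2) =
        ((2 * y : ℕ) : ℝ) * ((2 * y : ℕ) : ℝ) ^ (-(50 * l3 / l2)) := by
      rw [sub_eq_add_neg, Real.rpow_add h0, Real.rpow_one]
    have h2 : ((2 * y : ℕ) : ℝ) ^ (-(50 * l3 / l2)) ≤ Real.exp (-(50 * l3)) := by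
      rw [Real.rpow_def_of_pos h0]
      refine Real.exp_le_exp.mpr ?_
      have h3 : l2 ≤ Real.log ((2 * y : ℕ) : ℝ) := by
        refine b1.trans (Real.log_le_log (by linarith) ?_)
        push_cast
        linarith
      have h4 : l2 * (50 * l3 / l2) ≤ Real.log ((2 * y : ℕ) : ℝ) * (50 * l3 / l2) :=
        mul_le_mul_of_nonneg_right h3 hη0
      have h5 : l2 * (50 * l3 / l2) = 50 * l3 := by field_simp
      rw [h5] at h4
      linarith
    rw [h1]
    push_cast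
    push_cast at h2
    exact mul_le_mul_of_nonneg_left h2 (by positivity)
  have e4 : Real.exp (6 * Real.log (Real.log z) + 4 + 4 * (z : ℝ) ^ (50 * l3 / l2) + 5 / 2 * C32) ≤
      Real.exp (10 * l3 + D) := by
    refine Real.exp_le_exp.mpr ?_
    rw [hD]
    linarith
  have e5 : (2 * y * Real.exp (-(50 * l3))) * Real.exp (10 * l3 + D) =
      2 * y * Real.exp (-(40 * l3) + D) := by
    rw [mul_assoc, ← Real.exp_add]
    congr 2
    ring
  have e6 : 2 * (y : ℝ) ≤ l1 * Real.exp (4 * l3) := by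
    have h1 : Real.exp (4 * l3) = l2 ^ 4 := by
      rw [← hexp3, ← Real.exp_nat_mul]
      norm_num
    rw [h1]
    linarith
  have e7 : Real.exp (4 * l3) * Real.exp (-(40 * l3) + D) ≤ κ / l2 := by
    have h1 : Real.exp (4 * l3) * Real.exp (-(40 * l3) + D) ≤
        Real.exp (-l3) * (Real.exp (-l3) * Real.exp D) := by
      rw [← Real.exp_add, ← Real.exp_add, ← Real.exp_add]
      refine Real.exp_le_exp.mpr ?_
      linarith
    have h2 : Real.exp (-l3) = 1 / l2 := by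
      rw [Real.exp_neg, hexp3, one_div]
    have h3 : Real.exp (-l3) * Real.exp D ≤ κ := by
      rw [h2, one_div, ← div_eq_inv_mul, div_le_iff₀ hl20]
      rw [div_le_iff₀ hκ] at c3
      linarith
    have h4 : Real.exp (-l3) * (Real.exp (-l3) * Real.exp D) ≤ Real.exp (-l3) * κ :=
      mul_le_mul_of_nonneg_left h3 (Real.exp_pos _).le
    refine h1.trans (h4.trans (le_of_eq ?_))
    rw [h2]
    ring
  calc (#(smooths (2 * y) z) : ℝ)
      ≤ ((2 * y : ℕ) : ℝ) ^ (1 - 50 * l3 / l2) *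
        Real.exp (6 * Real.log (Real.log z) + 4 + 4 * (z : ℝ) ^ (50 * l3 / l2) + 5 / 2 * C32) := hr
    _ ≤ (2 * y * Real.exp (-(50 * l3))) * Real.exp (10 * l3 + D) :=
        mul_le_mul e3 e4 (Real.exp_pos _).le (by positivity)
    _ = 2 * y * Real.exp (-(40 * l3) + D) := e5
    _ ≤ (l1 * Real.exp (4 * l3)) * Real.exp (-(40 * l3) + D) :=
        mul_le_mul_of_nonneg_right e6 (Real.exp_pos _).le
    _ = l1 * (Real.exp (4 * l3) * Real.exp (-(40 * l3) + D)) := by ring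
    _ ≤ l1 * (κ / l2) := mul_le_mul_of_nonneg_left e7 hl10.le
    _ = κ * l1 / l2 := by ring

end Pool.Agent.Lib.MP_bae66e_nt.TL
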