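import Pool.Agent.Lib.MP_bae66e_nt.TL.E3a

/-!
# E3b: logarithms of the parameters of (i)
-/

set_option autoImplicit false

open Finset Nat Filter

namespace Pool.Agent.Lib.MP_bae66e_nt.TL

/-- E3b. Logarithms of the parameters: `l₂ ≤ log y ≤ (3/2) l₂`, `loglog y ≤ 1.2 l₃`,
`l₂ / 2 ≤ log x ≤ l₂`, `log (2y / x) ≤ 6 l₃`, `2 ≤ w1 1 y`, `l₃ / 2 ≤ log (w1 1 y + 1)`,
and `1 ≤ l₄ ≤ l₃ ≤ l₂ ≤ l₁`. -/
lemma params_log (c : ℝ) (hc : 0 < c) (hc1 : c ≤ 1) : ∃ Y₀ : ℕ, ∀ Y : ℕ, Y₀ ≤ Y →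
    Real.log (Real.log Y) ≤ Real.log (py c Y) ∧
    Real.log (py c Y) ≤ 3 / 2 * Real.log (Real.log Y) ∧
    Real.log (Real.log (py c Y)) ≤ 1.2 * Real.log (Real.log (Real.log Y)) ∧
    0 < Real.log (Real.log (py c Y)) ∧
    Real.log (Real.log Y) / 2 ≤ Real.log (px Y) ∧ Real.log (px Y) ≤ Real.log (Real.log Y) ∧
    Real.log (2 * py c Y / px Y) ≤ 6 * Real.log (Real.log (Real.log Y)) ∧
    2 ≤ w1 1 (py c Y) ∧
    Real.log (Real.log (Real.log Y)) / 2 ≤ Real.log (w1 1 (py c Y) + 1) ∧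
    1 ≤ Real.log (Real.log (Real.log (Real.log Y))) ∧
    Real.log (Real.log (Real.log (Real.log Y))) ≤ Real.log (Real.log (Real.log Y)) ∧
    Real.log (Real.log (Real.log Y)) ≤ Real.log (Real.log Y) ∧
    Real.log (Real.log Y) ≤ Real.log Y := by
  obtain ⟨Y₁, hY₁⟩ := params_size c hc hc1
  have t2 : Tendsto (fun X : ℕ => Real.log (Real.log (X : ℝ))) atTop atTop := tendsto_loglog_nat
  have t3 : Tendsto (fun X : ℕ => Real.log (Real.log (Real.log (X : ℝ)))) atTop atTop :=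
    Real.tendsto_log_atTop.comp t2
  have t4 : Tendsto (fun X : ℕ => Real.log (Real.log (Real.log (Real.log (X : ℝ))))) atTop atTop :=
    Real.tendsto_log_atTop.comp t3
  have hlog : ∀ᶠ x : ℝ in atTop, Real.log x ≤ 1 / 4 * x := by
    have h := Real.isLittleO_log_id_atTop.bound (show (0 : ℝ) < 1 / 4 by norm_num)
    filter_upwards [h, eventually_ge_atTop (1 : ℝ)] with x hx hx1
    rw [id, Real.norm_of_nonneg (Real.log_nonneg hx1), Real.norm_of_nonneg (by linarith)] at hx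
    exact hx
  obtain ⟨Y₂, hY₂⟩ := ((tendsto_log_nat.eventually_ge_atTop 1).and
    ((t2.eventually_ge_atTop 32).and ((t3.eventually_ge_atTop 6).and
      ((t4.eventually_ge_atTop 1).and (t2.eventually hlog))))).exists_forall_of_atTop
  refine ⟨max Y₁ Y₂, fun Y hY => ?_⟩
  obtain ⟨b1, b2, b3, b4, b5, -, -, -, -, -, -⟩ := hY₁ Y ((le_max_left _ _).trans hY)
  obtain ⟨a1, a2, a3, a4, a5⟩ := hY₂ Y ((le_max_right _ _).trans hY)
  have hw1 : w1 1 (py c Y) = ⌊1 * Real.log (py c Y) / 16⌋₊ := rfl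
  rw [hw1]
  have hy0 : (0 : ℝ) ≤ ((py c Y : ℕ) : ℝ) := Nat.cast_nonneg _
  have hx0 : (0 : ℝ) ≤ ((px Y : ℕ) : ℝ) := Nat.cast_nonneg _
  generalize ((py c Y : ℕ) : ℝ) = y at *
  generalize ((px Y : ℕ) : ℝ) = x at *
  generalize hl1 : Real.log (Y : ℝ) = l1 at *
  generalize hl2 : Real.log l1 = l2 at *
  generalize hl3 : Real.log l2 = l3 at *
  generalize hl4 : Real.log l3 = l4 at *
  have hl1p : 0 < l1 := by linarith
  have hl2p : 0 < l2 := by linarith
  have hl3p : 0 < l3 := by linarith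
  have hyp : 0 < y := by linarith
  have hlog16 : Real.log 16 ≤ 2.8 := by
    have h16 : (16 : ℝ) = 2 ^ 4 := by norm_num
    rw [h16, Real.log_pow]
    have := Real.log_two_lt_d9
    push_cast
    linarith
  have c1 : l2 ≤ Real.log y := by
    rw [← hl2]
    exact Real.log_le_log hl1p b1
  have c2 : Real.log y ≤ 3 / 2 * l2 := by
    have h := Real.log_le_log hyp b3
    rwa [Real.log_rpow hl1p, hl2] at h
  have hlyp : 0 < Real.log y := by linarith
  have c3 : Real.log (Real.log y) ≤ 1.2 * l3 := by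
    have h := Real.log_le_log hlyp c2
    rw [Real.log_mul (by norm_num) hl2p.ne', hl3] at h
    have h2 : Real.log (3 / 2) ≤ 3 / 2 - 1 := Real.log_le_sub_one_of_pos (by norm_num)
    linarith
  have c4 : 0 < Real.log (Real.log y) := Real.log_pos (by linarith)
  have hxp : 0 < x := lt_of_lt_of_le (by positivity) b4
  have c5 : l2 / 2 ≤ Real.log x := by
    have h := Real.log_le_log (by positivity) b4
    rw [Real.log_div hl1p.ne' (by positivity), Real.log_mul (by norm_num) hl2p.ne', hl2, hl3] at h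
    linarith
  have c6 : Real.log x ≤ l2 := by
    have h : x ≤ l1 := b5.trans (div_le_self hl1p.le (by linarith))
    have h2 := Real.log_le_log hxp h
    rwa [hl2] at h2
  have c7 : Real.log (2 * y / x) ≤ 6 * l3 := by
    have h1 : 2 * y / x ≤ 16 * l2 ^ 5 := by
      rw [div_le_iff₀ hxp]
      have h2 : l1 * l2 ^ 4 ≤ 16 * l2 ^ 5 * x := by
        have h3 : l1 ≤ x * (16 * l2) := by
          rwa [div_le_iff₀ (by positivity)] at b4
        calc l1 * l2 ^ 4 ≤ (x * (16 * l2)) * l2 ^ 4 :=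
              mul_le_mul_of_nonneg_right h3 (by positivity)
          _ = 16 * l2 ^ 5 * x := by ring
      linarith
    have h4 := Real.log_le_log (by positivity) h1
    rw [Real.log_mul (by norm_num) (by positivity), Real.log_pow, hl3] at h4
    push_cast at h4
    linarith
  have c8 : 2 ≤ ⌊1 * Real.log y / 16⌋₊ := by
    apply Nat.le_floor
    push_cast
    linarith
  have c9 : l3 / 2 ≤ Real.log ((⌊1 * Real.log y / 16⌋₊ : ℝ) + 1) := by
    have h1 : l2 / 16 ≤ (⌊1 * Real.log y / 16⌋₊ : ℝ) + 1 := by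
      have := (Nat.lt_floor_add_one (1 * Real.log y / 16)).le
      linarith
    have h2 := Real.log_le_log (by positivity) h1
    rw [Real.log_div hl2p.ne' (by norm_num), hl3] at h2
    linarith
  have c11 : l4 ≤ l3 := by
    rw [← hl4]
    exact Real.log_le_self hl3p.le
  have c12 : l3 ≤ l2 := by
    rw [← hl3]
    exact Real.log_le_self hl2p.le
  have c13 : l2 ≤ l1 := by
    rw [← hl2]
    exact Real.log_le_self hl1p.le
  exact ⟨c1, c2, c3, c4, c5, c6, c7, c8, c9, a4, c11, c12, c13⟩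

end Pool.Agent.Lib.MP_bae66e_nt.TL
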