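import Pool.Agent.Lib.MP_bae66e_nt.TL.E2
import Pool.Agent.Lib.MP_bae66e_nt.TL.E3b

/-!
# E5: the covering of (i)
-/

set_option autoImplicit false

open Finset Nat Filter

namespace Pool.Agent.Lib.MP_bae66e_nt.TL

/-- E5. `card_V0_le`, `exists_classes`, `params_size`, `params_log`: `#V0 ≤ 10 y / (l₂/2) * 7 l₃
= 140 y l₃ / l₂`, `2 / log (z+1) ≤ 100 l₃ / (l₂ l₄)`, `2 / log (w+1) ≤ 4 / l₃`, product
`≤ 56000 y l₃ / (l₂² l₄) ≤ 56000 c l₁ l₂ / l₃³`; `c = min 1 (κ / 56000)`. -/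
lemma exists_cover_one (κ : ℝ) (hκ : 0 < κ) : ∃ c : ℝ, 0 < c ∧ c ≤ 1 ∧ ∃ Y₀ : ℕ, ∀ Y : ℕ, Y₀ ≤ Y →
    ∃ α β : ℕ → ℕ,
    (#(N0 (px Y) (py c Y) (pz Y) (w1 1 (py c Y)) α β) : ℝ)
      ≤ κ * Real.log Y * Real.log (Real.log Y) / Real.log (Real.log (Real.log Y)) ^ 3 := by
  set c : ℝ := min 1 (κ / 56000) with hcdef
  have hc : 0 < c := lt_min one_pos (by positivity)
  have hc1 : c ≤ 1 := min_le_left _ _
  have hcκ : 56000 * c ≤ κ := by
    have h := min_le_right (1 : ℝ) (κ / 56000)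
    rw [← hcdef] at h
    linarith
  obtain ⟨Y₁, hY₁⟩ := params_size c hc hc1
  obtain ⟨Y₂, hY₂⟩ := params_log c hc hc1
  refine ⟨c, hc, hc1, max Y₁ Y₂, fun Y hY => ?_⟩
  obtain ⟨a1, a2, a3, a4, a5, a6, a7, a8, a9, a10, a11⟩ := hY₁ Y ((le_max_left _ _).trans hY)
  obtain ⟨b1, b2, b3, b4, b5, b6, b7, b8, b9, b10, b11, b12, b13⟩ :=
    hY₂ Y ((le_max_right _ _).trans hY)
  obtain ⟨α, β, hαβ⟩ := exists_classes (px Y) (py c Y) (pz Y) (w1 1 (py c Y)) a8 b8
  refine ⟨α, β, hαβ.trans ?_⟩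
  have hV := card_V0_le (px Y) (py c Y) a6 a7
  set l1 := Real.log (Y : ℝ) with hl1
  set l2 := Real.log l1 with hl2
  set l3 := Real.log l2 with hl3
  set l4 := Real.log l3 with hl4
  have p4 : 0 < l4 := by linarith
  have p3 : 0 < l3 := by linarith
  have p2 : 0 < l2 := by linarith
  have p1 : 0 < l1 := by linarith
  have hy0 : (py c Y : ℝ) ≤ c * l1 * l2 ^ 3 * l4 / l3 ^ 4 := Nat.floor_le (by positivity)
  have hyn : (0 : ℝ) ≤ py c Y := Nat.cast_nonneg _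
  have hV2 : (#(V0 (px Y) (py c Y)) : ℝ) ≤ 140 * py c Y * l3 / l2 := by
    refine hV.trans ?_
    have h1 : 10 * (py c Y : ℝ) / Real.log (px Y) ≤ 10 * (py c Y : ℝ) / (l2 / 2) :=
      div_le_div_of_nonneg_left (by positivity) (by positivity) b5
    have h2 : 1 + Real.log (2 * py c Y / px Y) ≤ 7 * l3 := by linarith
    have h3 : 0 ≤ 1 + Real.log (2 * (py c Y : ℝ) / px Y) := by
      have h4 : 0 ≤ Real.log (2 * (py c Y : ℝ) / px Y) := by
        apply Real.log_nonneg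
        have h5 : (0 : ℝ) < px Y := by
          have : 0 < px Y := by omega
          exact_mod_cast this
        rw [le_div_iff₀ h5, one_mul]
        exact_mod_cast a7
      linarith
    calc 10 * (py c Y : ℝ) / Real.log (px Y) * (1 + Real.log (2 * py c Y / px Y))
        ≤ 10 * (py c Y : ℝ) / (l2 / 2) * (7 * l3) := mul_le_mul h1 h2 h3 (by positivity)
      _ = 140 * py c Y * l3 / l2 := by
        field_simp
        ring
  have hz : 2 / Real.log (pz Y + 1) ≤ 100 * l3 / (l2 * l4) := by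
    have h1 : 2 / Real.log (pz Y + 1) ≤ 2 / (l2 * l4 / (50 * l3)) :=
      div_le_div_of_nonneg_left (by norm_num) (by positivity) a10
    refine h1.trans (le_of_eq ?_)
    field_simp
    ring
  have hw : 2 / Real.log (w1 1 (py c Y) + 1) ≤ 4 / l3 := by
    have h1 : 2 / Real.log (w1 1 (py c Y) + 1) ≤ 2 / (l3 / 2) :=
      div_le_div_of_nonneg_left (by norm_num) (by positivity) b9
    refine h1.trans (le_of_eq ?_)
    field_simp
    ring
  have hz0 : 0 ≤ 2 / Real.log (pz Y + 1) := by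
    have h1 : 0 ≤ Real.log ((pz Y : ℝ) + 1) := le_trans (by positivity) a10
    positivity
  have hw0 : 0 ≤ 2 / Real.log (w1 1 (py c Y) + 1) := by
    have h1 : 0 ≤ Real.log ((w1 1 (py c Y) : ℝ) + 1) := le_trans (by positivity) b9
    positivity
  calc (#(V0 (px Y) (py c Y)) : ℝ) * (2 / Real.log (pz Y + 1)) *
        (2 / Real.log (w1 1 (py c Y) + 1))
      ≤ (140 * py c Y * l3 / l2) * (100 * l3 / (l2 * l4)) * (4 / l3) := by
        refine mul_le_mul (mul_le_mul hV2 hz hz0 (by positivity)) hw hw0 (by positivity)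
    _ = (56000 * l3 / (l2 ^ 2 * l4)) * py c Y := by
        field_simp
        ring
    _ ≤ (56000 * l3 / (l2 ^ 2 * l4)) * (c * l1 * l2 ^ 3 * l4 / l3 ^ 4) :=
        mul_le_mul_of_nonneg_left hy0 (by positivity)
    _ = (56000 * c) * (l1 * l2 / l3 ^ 3) := by
        field_simp
    _ ≤ κ * (l1 * l2 / l3 ^ 3) := mul_le_mul_of_nonneg_right hcκ (by positivity)
    _ = κ * l1 * l2 / l3 ^ 3 := by ring

end Pool.Agent.Lib.MP_bae66e_nt.TL
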