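import Pool.Agent.Lib.MP_bae66e_nt.TL.E2

/-!
# E6: the covering property of (i)
-/

set_option autoImplicit false

open Finset Nat Filter

namespace Pool.Agent.Lib.MP_bae66e_nt.TL

/-- E6. The covering property. `Q = primProd x`, `a` satisfies: `2 ∣ a`, `q ∣ a` for the primes
`q ∈ (z, x]`, `q ∣ a + α q` for the primes `3 ≤ q ≤ z`; `b ≡ β q [MOD q]` for `3 ≤ q ≤ w`. Cases as
in the text: a prime `q ≤ x` dividing `a + n` divides `a + Q t + n > q`. -/
lemma cover_cases (x y z w a b : ℕ) (α β : ℕ → ℕ) (hz : z ≤ x) (h2x : 2 ≤ x)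
    (h2 : 2 ∣ a) (ha1 : ∀ q : ℕ, q.Prime → z < q → q ≤ x → q ∣ a)
    (ha2 : ∀ q ∈ (prms z).erase 2, q ∣ a + α q)
    (hb : ∀ q ∈ (prms w).erase 2, b ≡ β q [MOD q]) :
    ∀ n ∈ Finset.Ioc 0 (2 * y), n ∈ N0 x y z w α β ∨ n ∈ smooths (2 * y) z ∨
      (∀ t : ℕ, 1 ≤ t → ¬ (a + primProd x * t + n).Prime) ∨
      ∃ ℓ : ℕ, ℓ.Prime ∧ ℓ ≤ w ∧ n ≡ b [MOD ℓ] := by
  intro n hn
  rw [Finset.mem_Ioc] at hn
  have hQ : ∀ q : ℕ, q.Prime → q ≤ x → q ∣ primProd x := by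
    intro q hq hqx
    exact Finset.dvd_prod_of_mem _ (mem_prms.2 ⟨hqx, hq⟩)
  have hnp : ∀ q : ℕ, q.Prime → q ≤ x → q ∣ a + n → ∀ t : ℕ, 1 ≤ t → ¬ (a + primProd x * t + n).Prime := by
    intro q hq hqx hd t ht hP
    have h1 : q ∣ a + primProd x * t + n := by
      have : a + primProd x * t + n = (a + n) + primProd x * t := by ring
      rw [this]
      exact dvd_add hd ((hQ q hq hqx).mul_right t)
    have h2 : q ≤ primProd x := Nat.le_of_dvd (primProd_pos x) (hQ q hq hqx)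
    have h3 : primProd x ≤ primProd x * t := Nat.le_mul_of_pos_right _ ht
    have h4 := (Nat.prime_dvd_prime_iff_eq hq hP).1 h1
    omega
  by_cases h2n : 2 ∣ n
  · right; right; left
    exact hnp 2 Nat.prime_two h2x (dvd_add h2 h2n)
  by_cases hmid : ∃ q : ℕ, q.Prime ∧ z < q ∧ q ≤ x ∧ q ∣ n
  · obtain ⟨q, hq, hzq, hqx, hqn⟩ := hmid
    right; right; left
    exact hnp q hq hqx (dvd_add (ha1 q hq hzq hqx) hqn)
  by_cases hα : ∃ q ∈ (prms z).erase 2, n ≡ α q [MOD q]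
  · obtain ⟨q, hq, hqn⟩ := hα
    right; right; left
    have hq' := mem_prms.1 (Finset.mem_of_mem_erase hq)
    refine hnp q hq'.2 (hq'.1.trans hz) ?_
    have h3 : a + n ≡ a + α q [MOD q] := Nat.ModEq.add_left a hqn
    exact (Nat.ModEq.dvd_iff h3 dvd_rfl).2 (ha2 q hq)
  push Not at hmid hα
  by_cases hbig : ∃ r ∈ n.primeFactors, x < r
  · by_cases hβ : ∃ q ∈ (prms w).erase 2, n ≡ β q [MOD q]
    · obtain ⟨q, hq, hqn⟩ := hβ
      right; right; right
      have hq' := mem_prms.1 (Finset.mem_of_mem_erase hq)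
      exact ⟨q, hq'.2, hq'.1, hqn.trans (hb q hq).symm⟩
    · push Not at hβ
      left
      unfold N0 V0
      rw [Finset.mem_filter, Finset.mem_filter, Finset.mem_Ioc]
      exact ⟨⟨hn, hbig⟩, hα, hβ⟩
  · push Not at hbig
    right; left
    unfold smooths
    rw [Finset.mem_filter, Finset.mem_Icc]
    refine ⟨⟨hn.1, hn.2⟩, ?_⟩
    intro r hr
    rw [mem_prms]
    have hrp := Nat.prime_of_mem_primeFactors hr
    refine ⟨?_, hrp⟩
    by_contra hcon
    push Not at hcon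
    exact hmid r hrp hcon (hbig r hr) (Nat.dvd_of_mem_primeFactors hr)

end Pool.Agent.Lib.MP_bae66e_nt.TL
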