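import Pool.Agent.Lib.MP_bae66e_nt.TL.Defs

/-!
# E7: existence of `a` and `b`; counting
-/

set_option autoImplicit false

open Finset Nat

namespace Pool.Agent.Lib.MP_bae66e_nt.TL

/-- E7. Existence of `a ∈ [A, A + Q)` and of `b` (`exists_residue`). -/
lemma exists_a_b (A x z w : ℕ) (α β : ℕ → ℕ) (h2x : 2 ≤ x) (h2w : 2 ≤ w) : ∃ a b : ℕ,
    A ≤ a ∧ a < A + primProd x ∧ 2 ∣ a ∧ 2 ∣ b ∧
    (∀ q : ℕ, q.Prime → z < q → q ≤ x → q ∣ a) ∧
    (∀ q ∈ (prms z).erase 2, q ≤ x → q ∣ a + α q) ∧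
    (∀ q ∈ (prms w).erase 2, b ≡ β q [MOD q]) := by
  obtain ⟨m0, hm0⟩ := exists_residue x (fun q => if q = 2 then 0 else if q ≤ z then q - α q % q else 0)
  obtain ⟨b, hb⟩ := exists_residue w (fun q => if q = 2 then 0 else β q)
  have hQ := primProd_pos x
  set Q := primProd x with hQd
  have hbb := hb b (Nat.ModEq.refl b)
  have hge : A ≤ m0 + Q * A := by nlinarith
  have ha0 : A + (m0 + Q * A - A) % Q ≡ m0 [MOD Q] := by
    have h1 : A + (m0 + Q * A - A) % Q ≡ A + (m0 + Q * A - A) [MOD Q] :=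
      Nat.ModEq.add_left A (Nat.mod_modEq _ _)
    have h2 : A + (m0 + Q * A - A) = m0 + Q * A := by omega
    rw [h2] at h1
    refine h1.trans ?_
    simp
  have ha := hm0 _ ha0
  refine ⟨A + (m0 + Q * A - A) % Q, b, Nat.le_add_right _ _, ?_, ?_, ?_, ?_, ?_, ?_⟩
  · have := Nat.mod_lt (m0 + Q * A - A) hQ
    omega
  · have := ha 2 Nat.prime_two h2x
    simp only [if_true] at this
    exact Nat.modEq_zero_iff_dvd.1 this
  · have := hbb 2 Nat.prime_two h2w
    simp only [if_true] at this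
    exact Nat.modEq_zero_iff_dvd.1 this
  · intro q hq hzq hqx
    have := ha q hq hqx
    by_cases h2 : q = 2
    · subst h2
      simp only [if_true] at this
      exact Nat.modEq_zero_iff_dvd.1 this
    · rw [if_neg h2, if_neg (by omega)] at this
      exact Nat.modEq_zero_iff_dvd.1 this
  · intro q hq hqx
    have hq2 : q ≠ 2 := Finset.ne_of_mem_erase hq
    have hq' := mem_prms.1 (Finset.mem_of_mem_erase hq)
    have := ha q hq'.2 hqx
    rw [if_neg hq2, if_pos hq'.1] at this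
    have hlt := Nat.mod_lt (α q) hq'.2.pos
    have h1 : A + (m0 + Q * A - A) % Q + α q ≡ (q - α q % q) + α q % q [MOD q] :=
      Nat.ModEq.add this (Nat.mod_modEq _ _).symm
    have h2 : (q - α q % q) + α q % q = q := by omega
    rw [h2] at h1
    exact (Nat.ModEq.dvd_iff h1 dvd_rfl).2 dvd_rfl
  · intro q hq
    have hq2 : q ≠ 2 := Finset.ne_of_mem_erase hq
    have hq' := mem_prms.1 (Finset.mem_of_mem_erase hq)
    have := hbb q hq'.2 hq'.1
    rwa [if_neg hq2] at this

/-- E9. From many good `t` to many `m`: the fibres of `t ↦ m_t = a + Q t + u_t`, `u_t ∈ (y, 2y]`, have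
at most `y` elements, so `#G ≤ y * #S`. -/
lemma card_image_ge (a Q y : ℕ) (hQ : 1 ≤ Q) (G S : Finset ℕ)
    (h : ∀ t ∈ G, ∃ u ∈ Finset.Ioc y (2 * y), a + Q * t + u ∈ S) :
    #G ≤ y * #S := by
  classical
  have h' : ∀ t : ℕ, ∃ u : ℕ, t ∈ G → u ∈ Finset.Ioc y (2 * y) ∧ a + Q * t + u ∈ S := by
    intro t
    by_cases ht : t ∈ G
    · obtain ⟨u, hu, hu'⟩ := h t ht
      exact ⟨u, fun _ => ⟨hu, hu'⟩⟩
    · exact ⟨0, fun h => absurd h ht⟩
  choose u hu using h'
  have h1 : #G ≤ y * #(G.image fun t => a + Q * t + u t) := by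
    apply Finset.card_le_mul_card_image
    intro m _
    have h2 : #({t ∈ G | a + Q * t + u t = m} : Finset ℕ) ≤ #(Finset.Ioc y (2 * y)) := by
      apply Finset.card_le_card_of_injOn u
      · intro t ht
        rw [Finset.mem_coe, Finset.mem_filter] at ht
        exact (hu t ht.1).1
      · intro t ht t' ht' he
        rw [Finset.mem_coe, Finset.mem_filter] at ht ht'
        have e1 := ht.2
        have e2 := ht'.2
        have e3 : Q * t = Q * t' := by omega
        exact Nat.eq_of_mul_eq_mul_left hQ e3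
    rw [Nat.card_Ioc] at h2
    omega
  refine h1.trans (Nat.mul_le_mul_left _ (Finset.card_le_card ?_))
  intro m hm
  rw [Finset.mem_image] at hm
  obtain ⟨t, ht, rfl⟩ := hm
  exact (hu t ht).2

end Pool.Agent.Lib.MP_bae66e_nt.TL
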