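import Pool.Agent.Lib.MP_bae66e_nt.TL.E3b

/-!
# E8: the size of `T`
-/

set_option autoImplicit false

open Finset Nat Filter

namespace Pool.Agent.Lib.MP_bae66e_nt.TL

/-- E8. Size of `T = (Y - 2y) / Q - 1`, `Q = primProd x ≤ 4^x ≤ exp (l₁ / (5 l₂))`:
`log T ≥ l₁ / 2` and `Y^(1 - 1/l₂) ≤ (T / 2) / y` for large `Y`
(`T ≥ Y / (4 Q)`, `log T ≥ l₁ - l₁ / (5 l₂) - log 4`, `y ≤ l₁^(3/2)`). -/
lemma T_size (c : ℝ) (hc : 0 < c) (hc1 : c ≤ 1) : ∃ Y₀ : ℕ, ∀ Y : ℕ, Y₀ ≤ Y →
    primProd (px Y) + 2 * py c Y ≤ Y ∧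
    Real.log Y / 2 ≤ Real.log (((Y - 2 * py c Y) / primProd (px Y) - 1 : ℕ) : ℝ) ∧
    (Y : ℝ) ^ (1 - 1 / Real.log (Real.log Y)) * (2 * py c Y)
      ≤ (((Y - 2 * py c Y) / primProd (px Y) - 1 : ℕ) : ℝ) := by
  have hev : ∀ᶠ x : ℝ in atTop, 1 ≤ Real.log x ∧ 20 * Real.log x ^ 2 ≤ x := by
    have h1 : ∀ᶠ x : ℝ in atTop, 1 ≤ Real.log x := Real.tendsto_log_atTop.eventually_ge_atTop 1
    have h2 := (Real.isLittleO_pow_log_id_atTop (n := 2)).bound (by norm_num : (0 : ℝ) < 1 / 20)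
    filter_upwards [h1, h2, eventually_ge_atTop (0 : ℝ)] with x hx1 hx2 hx3
    refine ⟨hx1, ?_⟩
    rw [Real.norm_eq_abs, Real.norm_eq_abs, abs_of_nonneg (sq_nonneg _), id_eq,
      abs_of_nonneg hx3] at hx2
    linarith
  obtain ⟨Y₁, h1⟩ := params_size c hc hc1
  obtain ⟨Y₂, h2⟩ := eventually_atTop.1
    ((Real.tendsto_log_atTop.comp tendsto_natCast_atTop_atTop).eventually hev)
  refine ⟨max Y₁ Y₂, fun Y hY => ?_⟩
  obtain ⟨-, -, hy, -, hx, -⟩ := h1 Y ((le_max_left _ _).trans hY)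
  obtain ⟨hM1, hL20⟩ := h2 Y ((le_max_right _ _).trans hY)
  rw [Function.comp_apply] at hM1 hL20
  have hlog2 := Real.log_two_lt_d9
  have hlog2' := Real.log_two_gt_d9
  have hlog4 : Real.log 4 = 2 * Real.log 2 := by
    rw [show (4 : ℝ) = 2 ^ 2 by norm_num, Real.log_pow]
    norm_num
  have hlog8 : Real.log 8 = 3 * Real.log 2 := by
    rw [show (8 : ℝ) = 2 ^ 3 by norm_num, Real.log_pow]
    norm_num
  set L := Real.log Y with hLdef
  set M := Real.log L with hMdef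
  have hM0 : 0 < M := by linarith
  have hL : 20 * M ≤ L := by nlinarith
  have hL0 : 0 < L := by linarith
  have hY0 : (0 : ℝ) < Y := by
    rcases Nat.eq_zero_or_pos Y with h | h
    · rw [h, Nat.cast_zero, Real.log_zero] at hLdef
      linarith
    · exact_mod_cast h
  have hYe : (Y : ℝ) = Real.exp L := (Real.exp_log hY0).symm
  set Q := primProd (px Y) with hQdef
  set y := py c Y with hydef
  have hQ0 : (0 : ℝ) < Q := by exact_mod_cast primProd_pos (px Y)
  have hLM : L / (5 * M) ≤ L / 5 := by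
    apply div_le_div_of_nonneg_left hL0.le (by norm_num)
    linarith
  have hQ : (Q : ℝ) ≤ Real.exp (L / (5 * M)) := by
    have h3 : (Q : ℝ) ≤ (4 : ℝ) ^ (px Y) := by exact_mod_cast primProd_le (px Y)
    have h4 : (4 : ℝ) ^ (px Y) = Real.exp (Real.log 4 * px Y) := by
      rw [← Real.rpow_natCast, Real.rpow_def_of_pos (by norm_num)]
    rw [h4] at h3
    refine h3.trans (Real.exp_le_exp.2 ?_)
    calc Real.log 4 * px Y ≤ 1.6 * (L / (8 * M)) := by
          apply mul_le_mul _ hx (Nat.cast_nonneg _) (by norm_num)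
          rw [hlog4]; linarith
      _ = L / (5 * M) := by field_simp; norm_num
  have hye : (y : ℝ) ≤ Real.exp (3 / 2 * M) := by
    rw [Real.rpow_def_of_pos hL0] at hy
    rw [mul_comm]
    exact hy
  have h8Q : 8 * (Q : ℝ) ≤ Y := by
    rw [hYe]
    calc 8 * (Q : ℝ) ≤ Real.exp (Real.log 8) * Real.exp (L / (5 * M)) := by
          rw [Real.exp_log (by norm_num)]
          exact mul_le_mul_of_nonneg_left hQ (by norm_num)
      _ = Real.exp (Real.log 8 + L / (5 * M)) := (Real.exp_add _ _).symm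
      _ ≤ Real.exp L := Real.exp_le_exp.2 (by rw [hlog8]; linarith)
  have h4y : 4 * (y : ℝ) ≤ Y := by
    rw [hYe]
    calc 4 * (y : ℝ) ≤ Real.exp (Real.log 4) * Real.exp (3 / 2 * M) := by
          rw [Real.exp_log (by norm_num)]
          exact mul_le_mul_of_nonneg_left hye (by norm_num)
      _ = Real.exp (Real.log 4 + 3 / 2 * M) := (Real.exp_add _ _).symm
      _ ≤ Real.exp L := Real.exp_le_exp.2 (by rw [hlog4]; linarith)
  have hQy : Q + 2 * y ≤ Y := by
    have : ((Q + 2 * y : ℕ) : ℝ) ≤ Y := by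
      push_cast
      linarith
    exact_mod_cast this
  have h2y : 2 * y ≤ Y := by omega
  have hQn : 0 < Q := primProd_pos (px Y)
  set N := (Y - 2 * y) / Q with hN
  have hlt : ((Y : ℝ) - 2 * y) < Q * (N + 1) := by
    have h3 := Nat.lt_mul_div_succ (Y - 2 * y) hQn
    have h4 : ((Y - 2 * y : ℕ) : ℝ) < ((Q * (N + 1) : ℕ) : ℝ) := by exact_mod_cast h3
    rw [Nat.cast_sub h2y] at h4
    push_cast at h4
    exact h4
  have hT1 : (N : ℝ) ≤ ((N - 1 : ℕ) : ℝ) + 1 := by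
    have : N ≤ (N - 1) + 1 := by omega
    exact_mod_cast this
  have hQT : (Y : ℝ) / 4 ≤ ((N - 1 : ℕ) : ℝ) * Q := by nlinarith
  have hTe : Real.exp (L - L / (5 * M) - Real.log 4) ≤ ((N - 1 : ℕ) : ℝ) := by
    refine le_of_mul_le_mul_right ?_ hQ0
    calc Real.exp (L - L / (5 * M) - Real.log 4) * Q
        ≤ Real.exp (L - L / (5 * M) - Real.log 4) * Real.exp (L / (5 * M)) :=
          mul_le_mul_of_nonneg_left hQ (Real.exp_pos _).le
      _ = Real.exp L / 4 := by
          rw [← Real.exp_add, show L - L / (5 * M) - Real.log 4 + L / (5 * M) =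
            L - Real.log 4 by ring, Real.exp_sub, Real.exp_log (show (0 : ℝ) < 4 by norm_num)]
      _ ≤ ((N - 1 : ℕ) : ℝ) * Q := by rw [← hYe]; exact hQT
  refine ⟨hQy, ?_, ?_⟩
  · have hT0 : (0 : ℝ) < ((N - 1 : ℕ) : ℝ) := (Real.exp_pos _).trans_le hTe
    rw [Real.le_log_iff_exp_le hT0]
    refine le_trans (Real.exp_le_exp.2 ?_) hTe
    rw [hlog4]
    linarith
  · refine le_trans ?_ hTe
    have h5 : (Y : ℝ) ^ (1 - 1 / M) = Real.exp (L * (1 - 1 / M)) := by
      rw [Real.rpow_def_of_pos hY0]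
    have h6 : (2 : ℝ) * y ≤ Real.exp (Real.log 2 + 3 / 2 * M) := by
      rw [Real.exp_add, Real.exp_log (by norm_num)]
      exact mul_le_mul_of_nonneg_left hye (by norm_num)
    have h7 : 20 * M ≤ L / M := by
      rw [le_div_iff₀ hM0]
      nlinarith
    have h8 : L / (5 * M) = L / M / 5 := by field_simp
    calc (Y : ℝ) ^ (1 - 1 / M) * (2 * y)
        ≤ Real.exp (L * (1 - 1 / M)) * Real.exp (Real.log 2 + 3 / 2 * M) := by
          rw [h5]
          exact mul_le_mul_of_nonneg_left h6 (Real.exp_pos _).le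
      _ = Real.exp (L - L / M + (Real.log 2 + 3 / 2 * M)) := by
          rw [← Real.exp_add]
          congr 1
          ring
      _ ≤ Real.exp (L - L / (5 * M) - Real.log 4) := by
          refine Real.exp_le_exp.2 ?_
          rw [h8, hlog4]
          linarith

end Pool.Agent.Lib.MP_bae66e_nt.TL
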