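import Pool.Agent.Lib.MP_bae66e_nt.TL.C3
import Pool.Agent.Lib.MP_bae66e_nt.TL.E4
import Pool.Agent.Lib.MP_bae66e_nt.TL.E5
import Pool.Agent.Lib.MP_bae66e_nt.TL.E6
import Pool.Agent.Lib.MP_bae66e_nt.TL.E7
import Pool.Agent.Lib.MP_bae66e_nt.TL.E8
import Pool.Agent.Lib.MP_bae66e_nt.TL.E10

/-!
# E11: very large values in every interval
-/

set_option autoImplicit false

open Finset Nat Filter

namespace Pool.Agent.Lib.MP_bae66e_nt.TL

/-- **Part (i).** `core` with `θ = 1`, `δ = 1/8`, `Q = primProd (px Y)`, `T = (Y - 2y) / Q - 1`,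
`N = N0 …`, `E = smooths (2y) z`; the number of good `t` is at least `(1 - 1/4 - 2 / log y) T ≥ T / 2`,
then `card_image_ge` and `T_size`. The number `m = a + Q t + u` is even, `> A`, and
`≤ A + Q - 1 + Q T + 2 y ≤ A + Y`; `Zt 1 y = y`. -/
theorem part_one : ∃ c : ℝ, 0 < c ∧ ∃ Y₀ : ℕ, ∀ Y : ℕ, Y₀ ≤ Y → ∀ A : ℕ, ∀ S : Finset ℕ,
    (∀ m ∈ Finset.Ioc A (A + Y), 4 ≤ m → Even m →
      (∀ p : ℕ, p.Prime → (m - p).Prime →
        c * Real.log Y * Real.log (Real.log Y) ^ 3 *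
          Real.log (Real.log (Real.log (Real.log Y))) /
          Real.log (Real.log (Real.log Y)) ^ 4 ≤ p) → m ∈ S) →
    (Y : ℝ) ^ (1 - 1 / Real.log (Real.log Y)) ≤ (#S : ℝ) := by
  obtain ⟨c₃, hc₃, hc₃1, hcore⟩ := core
  obtain ⟨c₀, hc₀, hrho⟩ := exists_rho_primProd_ge
  have hκ : 0 < c₀ * c₃ / 512 := by positivity
  obtain ⟨c, hc, hc1, Ya, hcov⟩ := exists_cover_one (c₀ * c₃ / 512) hκ
  obtain ⟨Yb, hsm⟩ := card_smooths_le (c₀ * c₃ / 512) c hκ hc hc1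
  obtain ⟨Yc, hk⟩ := k_choice c c₀ c₃ hc hc1 hc₀ hc₃ hc₃1
  obtain ⟨Yd, hTs⟩ := T_size c hc hc1
  obtain ⟨Ye, hps⟩ := params_size c hc hc1
  obtain ⟨Yf, hpl⟩ := params_log c hc hc1
  obtain ⟨y₀, hcy⟩ := hcore 1 one_pos le_rfl
  obtain ⟨Yg, hg⟩ := eventually_atTop.1 (tendsto_log_nat.eventually_ge_atTop (y₀ : ℝ))
  obtain ⟨Yh, hh⟩ := eventually_atTop.1 (tendsto_loglog_nat.eventually_ge_atTop (8 : ℝ))
  refine ⟨c, hc, Ya + Yb + Yc + Yd + Ye + Yf + Yg + Yh, fun Y hY A S hS => ?_⟩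
  obtain ⟨α, β, hN⟩ := hcov Y (by omega)
  have hE := hsm Y (by omega)
  obtain ⟨k, hk1, hkA, hkB⟩ := hk Y (by omega)
  obtain ⟨hQy, hT1, hT2⟩ := hTs Y (by omega)
  obtain ⟨p1, -, -, -, -, h2x, hx2y, h2z, hzx, -, -⟩ := hps Y (by omega)
  obtain ⟨q1, -, -, -, -, -, -, h2w, -, -, -, -, -⟩ := hpl Y (by omega)
  have hy0 : y₀ ≤ py c Y := by
    have := (hg Y (by omega)).trans p1
    exact_mod_cast this
  have hM8 : (8 : ℝ) ≤ Real.log (py c Y) := (hh Y (by omega)).trans q1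
  have hypos : 0 < py c Y := by
    rcases Nat.eq_zero_or_pos (py c Y) with h | h
    · rw [h, Nat.cast_zero, Real.log_zero] at hM8
      norm_num at hM8
    · exact h
  obtain ⟨a, b, hAa, haQ, h2a, h2b, ha1, ha2, hb⟩ :=
    exists_a_b A (px Y) (pz Y) (w1 1 (py c Y)) α β h2x h2w
  have hcase := cover_cases (px Y) (py c Y) (pz Y) (w1 1 (py c Y)) a b α β hzx h2x h2a ha1
    (fun q hq => ha2 q hq (((mem_prms.1 (Finset.mem_of_mem_erase hq)).1).trans hzx)) hb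
  have hQn : 0 < primProd (px Y) := primProd_pos (px Y)
  obtain ⟨e1, e2, e3⟩ := hkB (Real.log (((Y - 2 * py c Y) / primProd (px Y) - 1 : ℕ) : ℝ))
    (rho (primProd (px Y))) _ _ hT1 (hrho (px Y) h2x) hN hE
  have hbad := hcy (py c Y) hy0 a (primProd (px Y)) ((Y - 2 * py c Y) / primProd (px Y) - 1) k b
    hQn hk1 (fun p hp hpQ => by
      have h1 : p ∈ (primProd (px Y)).primeFactors :=
        Nat.mem_primeFactors.2 ⟨hp, hpQ, hQn.ne'⟩
      rw [primeFactors_primProd] at h1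
      exact (mem_prms.1 h1).1.trans hx2y) e3 hkA (1 / 8)
    (N0 (px Y) (py c Y) (pz Y) (w1 1 (py c Y)) α β) (smooths (2 * py c Y) (pz Y))
    (by
      intro n hn
      unfold N0 V0 at hn
      exact (Finset.mem_filter.1 (Finset.mem_filter.1 hn).1).1)
    (by
      intro n hn
      unfold smooths at hn
      first
        | exact (Finset.mem_filter.1 hn).1
        | (have := (Finset.mem_filter.1 hn).1
           rw [Finset.mem_Icc] at this
           exact Finset.mem_Ioc.2 ⟨by omega, this.2⟩))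
    e1 e2 hcase
  have hZ : Zt 1 (py c Y) = py c Y := by
    unfold Zt
    rw [Real.rpow_one, Nat.floor_natCast]
  rw [hZ] at hbad
  set T := (Y - 2 * py c Y) / primProd (px Y) - 1 with hTdef
  set Q := primProd (px Y) with hQdef
  set y := py c Y with hydef
  classical
  let Pr : ℕ → Prop := fun t => ∃ u ∈ apU y y (primProd (w1 1 y)) b,
    ∀ p ∈ Finset.Icc 1 y, p.Prime → ¬ (a + Q * t + u - p).Prime
  have hGT : #{t ∈ Finset.Ioc 0 T | Pr t} + #{t ∈ Finset.Ioc 0 T | ¬ Pr t} = T := by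
    rw [Finset.card_filter_add_card_filter_not, Nat.card_Ioc, Nat.sub_zero]
  have hbad' : (#{t ∈ Finset.Ioc 0 T | ¬ Pr t} : ℝ) ≤ (T : ℝ) / 2 := by
    have h1 : (2 * (1 / 8) + 2 / Real.log y) * (T : ℝ) ≤ 1 / 2 * T := by
      refine mul_le_mul_of_nonneg_right ?_ (Nat.cast_nonneg _)
      have h2 : 2 / Real.log y ≤ 2 / 8 := div_le_div_of_nonneg_left (by norm_num) (by norm_num) hM8
      linarith
    have h3 : (#{t ∈ Finset.Ioc 0 T | ¬ Pr t} : ℝ) ≤ (2 * (1 / 8) + 2 / Real.log y) * (T : ℝ) := by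
      refine le_trans (le_of_eq ?_) hbad
      congr 1
    linarith
  have hQ2 : 2 ∣ Q := by
    rw [hQdef]
    exact Finset.dvd_prod_of_mem _ (mem_prms.2 ⟨h2x, Nat.prime_two⟩)
  have hW2 : 2 ∣ primProd (w1 1 y) :=
    Finset.dvd_prod_of_mem _ (mem_prms.2 ⟨h2w, Nat.prime_two⟩)
  have hQT : Q * T + Q + 2 * y ≤ Y := by
    have h1 : 1 ≤ (Y - 2 * y) / Q := by
      rw [Nat.one_le_div_iff hQn]
      omega
    have h2 : Q * ((Y - 2 * y) / Q) ≤ Y - 2 * y := Nat.mul_div_le _ _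
    have h3 : Q * T + Q = Q * ((Y - 2 * y) / Q) := by
      rw [hTdef, Nat.mul_sub, Nat.mul_one, Nat.sub_add_cancel]
      exact Nat.le_mul_of_pos_right _ h1
    omega
  have hG := card_image_ge a Q y hQn {t ∈ Finset.Ioc 0 T | Pr t} S (by
    intro t ht
    obtain ⟨ht1, u, hu, hup⟩ := Finset.mem_filter.1 ht
    rw [Finset.mem_Ioc] at ht1
    rw [mem_apU] at hu
    obtain ⟨⟨hu1, hu2⟩, hub⟩ := hu
    refine ⟨u, Finset.mem_Ioc.2 ⟨hu1, by omega⟩, ?_⟩
    have hQt : Q * t ≤ Q * T := Nat.mul_le_mul_left _ ht1.2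
    have hQt1 : Q ≤ Q * t := Nat.le_mul_of_pos_right _ ht1.1
    have hQge : 2 ≤ Q := Nat.le_of_dvd hQn hQ2
    have h2u : 2 ∣ u := by
      have h3 : u ≡ b [MOD 2] := hub.of_dvd hW2
      exact (h3.dvd_iff (dvd_refl 2)).2 h2b
    apply hS
    · exact Finset.mem_Ioc.2 ⟨by omega, by omega⟩
    · omega
    · rw [even_iff_two_dvd]
      exact ((h2a.add (hQ2.mul_right t)).add h2u)
    · intro p hp hmp
      have hpy : y < p := by
        by_contra hno
        exact hup p (Finset.mem_Icc.2 ⟨hp.one_lt.le, not_lt.1 hno⟩) hp hmp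
      have h4 := Nat.lt_floor_add_one
        (c * Real.log Y * Real.log (Real.log Y) ^ 3 *
          Real.log (Real.log (Real.log (Real.log Y))) /
          Real.log (Real.log (Real.log Y)) ^ 4)
      have h5 : ((y + 1 : ℕ) : ℝ) ≤ p := by exact_mod_cast hpy
      rw [Nat.cast_add, Nat.cast_one] at h5
      refine h4.le.trans ?_
      exact h5)
  have hfin : (T : ℝ) ≤ 2 * y * #S := by
    have h1 : ((#{t ∈ Finset.Ioc 0 T | Pr t} + #{t ∈ Finset.Ioc 0 T | ¬ Pr t} : ℕ) : ℝ) = T := by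
      exact_mod_cast hGT
    have h2 : (#{t ∈ Finset.Ioc 0 T | Pr t} : ℝ) ≤ y * #S := by exact_mod_cast hG
    push_cast at h1
    linarith
  have h2y : (0 : ℝ) < 2 * y := by
    have : (0 : ℝ) < y := by exact_mod_cast hypos
    linarith
  refine le_of_mul_le_mul_right ?_ h2y
  calc (Y : ℝ) ^ (1 - 1 / Real.log (Real.log Y)) * (2 * y) ≤ T := hT2
    _ ≤ 2 * y * #S := hfin
    _ = #S * (2 * y) := by ring

end Pool.Agent.Lib.MP_bae66e_nt.TL
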