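import Pool.Agent.Lib.MP_bae66e_nt.TL.E1
import Pool.Agent.Lib.MP_bae66e_nt.TL.D1

/-!
# E2: greedy choice of the classes
-/

set_option autoImplicit false

open Finset Nat Filter

namespace Pool.Agent.Lib.MP_bae66e_nt.TL

/-- the `n ∈ V0` that avoid the classes `α q` (`3 ≤ q ≤ z`) and `β q` (`3 ≤ q ≤ w`) -/
def N0 (x y z w : ℕ) (α β : ℕ → ℕ) : Finset ℕ :=
  {n ∈ V0 x y | (∀ q ∈ (prms z).erase 2, ¬ n ≡ α q [MOD q]) ∧
    ∀ q ∈ (prms w).erase 2, ¬ n ≡ β q [MOD q]}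

/-- E2. `greedy` twice, and `prod_erase_two_le`. -/
lemma exists_classes (x y z w : ℕ) (hz : 2 ≤ z) (hw : 2 ≤ w) : ∃ α β : ℕ → ℕ,
    (#(N0 x y z w α β) : ℝ) ≤ #(V0 x y) * (2 / Real.log (z + 1)) * (2 / Real.log (w + 1)) := by
  have hS : ∀ (v : ℕ), ∀ q ∈ (prms v).erase 2, 2 ≤ q := by
    intro v q hq
    exact (mem_prms.1 (Finset.mem_of_mem_erase hq)).2.two_le
  obtain ⟨α, hα⟩ := greedy (V0 x y) ((prms z).erase 2) (hS z)
  obtain ⟨β, hβ⟩ := greedy {n ∈ V0 x y | ∀ q ∈ (prms z).erase 2, ¬ n ≡ α q [MOD q]} ((prms w).erase 2) (hS w)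
  refine ⟨α, β, ?_⟩
  have he : N0 x y z w α β = {p ∈ ({n ∈ V0 x y | ∀ q ∈ (prms z).erase 2, ¬ n ≡ α q [MOD q]} : Finset ℕ) |
      ∀ q ∈ (prms w).erase 2, ¬ p ≡ β q [MOD q]} := by
    unfold N0
    rw [Finset.filter_filter]
  have hnn : ∀ v : ℕ, 0 ≤ ∏ q ∈ (prms v).erase 2, (1 - 1 / (q : ℝ)) := by
    intro v
    apply Finset.prod_nonneg
    intro q hq
    have h2 : (2 : ℝ) ≤ q := by exact_mod_cast hS v q hq
    rw [sub_nonneg, div_le_one (by linarith)]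
    linarith
  rw [he]
  calc _ ≤ _ := hβ
    _ ≤ ((#(V0 x y) : ℝ) * (2 / Real.log (z + 1))) * (2 / Real.log (w + 1)) := by
      apply mul_le_mul ?_ (prod_erase_two_le w hw) (hnn w) ?_
      · refine hα.trans ?_
        exact mul_le_mul_of_nonneg_left (prod_erase_two_le z hz) (Nat.cast_nonneg _)
      · have : 0 ≤ Real.log ((z : ℝ) + 1) := Real.log_nonneg (by
          have : (0 : ℝ) ≤ z := Nat.cast_nonneg _
          linarith)
        positivity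

end Pool.Agent.Lib.MP_bae66e_nt.TL
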