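import Pool.Agent.Lib.MP_bae66e_nt.TL.P1

/-!
# E3a: size of the parameters of (i)
-/

set_option autoImplicit false

open Finset Nat Filter

namespace Pool.Agent.Lib.MP_bae66e_nt.TL

/-- Parameters of part (i). -/
noncomputable def px (Y : ℕ) : ℕ := ⌊Real.log Y / (8 * Real.log (Real.log Y))⌋₊

noncomputable def py (c : ℝ) (Y : ℕ) : ℕ :=
  ⌊c * Real.log Y * Real.log (Real.log Y) ^ 3 * Real.log (Real.log (Real.log (Real.log Y))) /
    Real.log (Real.log (Real.log Y)) ^ 4⌋₊

noncomputable def pz (Y : ℕ) : ℕ :=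
  ⌊Real.exp (Real.log (Real.log Y) * Real.log (Real.log (Real.log (Real.log Y))) /
    (50 * Real.log (Real.log (Real.log Y))))⌋₊

private lemma E3a_pow (n : ℕ) : ∀ᶠ x : ℝ in atTop, Real.log x ^ n ≤ x := by
  have h := (Real.isLittleO_pow_log_id_atTop (n := n)).bound one_pos
  filter_upwards [h, eventually_ge_atTop 0] with x hx hx0
  rw [one_mul, id_eq, Real.norm_eq_abs, Real.norm_eq_abs, abs_of_nonneg hx0] at hx
  exact (le_abs_self _).trans hx

/-- E3a. Size of the parameters, for `0 < c ≤ 1` and large `Y` (`l₁ = log Y`, …):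
`l₁ ≤ y ≤ l₁ l₂^4 / 2`, `y ≤ l₁^(3/2)`, `l₁ / (16 l₂) ≤ x ≤ l₁ / (8 l₂)`, `2 ≤ x ≤ 2y`, `2 ≤ z ≤ x`,
`log (z + 1) ≥ l₂ l₄ / (50 l₃)`, `log z ≤ l₂`. -/
lemma params_size (c : ℝ) (hc : 0 < c) (hc1 : c ≤ 1) : ∃ Y₀ : ℕ, ∀ Y : ℕ, Y₀ ≤ Y →
    Real.log Y ≤ py c Y ∧ (py c Y : ℝ) ≤ Real.log Y * Real.log (Real.log Y) ^ 4 / 2 ∧
    (py c Y : ℝ) ≤ Real.log Y ^ (3 / 2 : ℝ) ∧
    Real.log Y / (16 * Real.log (Real.log Y)) ≤ px Y ∧
    (px Y : ℝ) ≤ Real.log Y / (8 * Real.log (Real.log Y)) ∧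
    2 ≤ px Y ∧ px Y ≤ 2 * py c Y ∧ 2 ≤ pz Y ∧ pz Y ≤ px Y ∧
    Real.log (Real.log Y) * Real.log (Real.log (Real.log (Real.log Y))) /
      (50 * Real.log (Real.log (Real.log Y))) ≤ Real.log (pz Y + 1) ∧
    Real.log (pz Y) ≤ Real.log (Real.log Y) := by
  have T1 : Tendsto (fun Y : ℕ => Real.log (Y : ℝ)) atTop atTop :=
    Real.tendsto_log_atTop.comp tendsto_natCast_atTop_atTop
  have T2 : Tendsto (fun Y : ℕ => Real.log (Real.log (Y : ℝ))) atTop atTop :=
    Real.tendsto_log_atTop.comp T1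
  have T3 : Tendsto (fun Y : ℕ => Real.log (Real.log (Real.log (Y : ℝ)))) atTop atTop :=
    Real.tendsto_log_atTop.comp T2
  have T4 : Tendsto (fun Y : ℕ => Real.log (Real.log (Real.log (Real.log (Y : ℝ))))) atTop
      atTop := Real.tendsto_log_atTop.comp T3
  have key : ∀ᶠ Y : ℕ in atTop, Real.log Y ≤ py c Y ∧
      (py c Y : ℝ) ≤ Real.log Y * Real.log (Real.log Y) ^ 4 / 2 ∧
      (py c Y : ℝ) ≤ Real.log Y ^ (3 / 2 : ℝ) ∧
      Real.log Y / (16 * Real.log (Real.log Y)) ≤ px Y ∧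
      (px Y : ℝ) ≤ Real.log Y / (8 * Real.log (Real.log Y)) ∧
      2 ≤ px Y ∧ px Y ≤ 2 * py c Y ∧ 2 ≤ pz Y ∧ pz Y ≤ px Y ∧
      Real.log (Real.log Y) * Real.log (Real.log (Real.log (Real.log Y))) /
        (50 * Real.log (Real.log (Real.log Y))) ≤ Real.log (pz Y + 1) ∧
      Real.log (pz Y) ≤ Real.log (Real.log Y) := by
    filter_upwards [T1.eventually (E3a_pow 6), T2.eventually (E3a_pow 4),
      T1.eventually (eventually_ge_atTop 1), T2.eventually (eventually_ge_atTop 16),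
      T2.eventually (eventually_ge_atTop (2 / c)), T3.eventually (eventually_ge_atTop 50),
      T4.eventually (eventually_ge_atTop 1)] with Y e1 e2 g1 g2 g2c g3 g4
    set l1 := Real.log (Y : ℝ) with hl1
    set l2 := Real.log l1 with hl2
    set l3 := Real.log l2 with hl3
    set l4 := Real.log l3 with hl4
    have p1 : 0 < l1 := by linarith
    have p2 : 0 < l2 := by linarith
    have p3 : 0 < l3 := by linarith
    have p4 : 0 < l4 := by linarith
    have h43 : l4 ≤ l3 := by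
      have := Real.log_le_sub_one_of_pos p3
      linarith
    have hl3p : l3 ≤ l3 ^ 4 := by
      have : l3 ^ 1 ≤ l3 ^ 4 := pow_le_pow_right₀ (by linarith) (by norm_num)
      simpa using this
    -- the square root of l1
    set r := Real.exp (l2 / 2) with hr
    have hrr : r * r = l1 := by
      rw [hr, ← Real.exp_add, add_halves, hl2, Real.exp_log p1]
    have hr0 : 0 < r := Real.exp_pos _
    have h23 : l2 ^ 3 ≤ r := by
      have h1 : (l2 ^ 3) ^ 2 ≤ r ^ 2 := by
        calc (l2 ^ 3) ^ 2 = l2 ^ 6 := by ring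
          _ ≤ l1 := e1
          _ = r ^ 2 := by rw [← hrr]; ring
      exact le_of_sq_le_sq h1 hr0.le
    have h8r : 8 * l2 ≤ r := by
      refine le_trans ?_ h23
      nlinarith [mul_pos p2 p2, mul_le_mul g2 g2 (by norm_num) p2.le]
    have h1r : 1 ≤ r := by linarith
    -- the exponent of pz
    set E := l2 * l4 / (50 * l3) with hE
    have hE1 : 1 ≤ E := by
      rw [hE, le_div_iff₀ (by positivity)]
      have h5 : 50 * l3 ≤ l3 ^ 4 := by
        have h6 : 50 * l3 ≤ l3 * l3 := mul_le_mul_of_nonneg_right g3 p3.le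
        have h7 : l3 ^ 2 ≤ l3 ^ 4 := pow_le_pow_right₀ (by linarith) (by norm_num)
        nlinarith
      have h8 : l2 * 1 ≤ l2 * l4 := mul_le_mul_of_nonneg_left g4 p2.le
      linarith
    have hE2 : E ≤ l2 / 2 := by
      rw [hE, div_le_iff₀ (by positivity)]
      have h8 : l2 * l4 ≤ l2 * l3 := mul_le_mul_of_nonneg_left h43 p2.le
      nlinarith [mul_pos p2 p3]
    have hzA : (pz Y : ℝ) ≤ Real.exp E := Nat.floor_le (Real.exp_pos _).le
    have hz2 : 2 ≤ pz Y := by
      refine Nat.le_floor ?_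
      have h9 : (2 : ℝ) ≤ Real.exp 1 := by
        have := Real.add_one_le_exp (1 : ℝ)
        linarith
      push_cast
      exact h9.trans (Real.exp_le_exp.2 hE1)
    have hxB : (px Y : ℝ) ≤ l1 / (8 * l2) := Nat.floor_le (by positivity)
    have hrB : r ≤ l1 / (8 * l2) := by
      rw [le_div_iff₀ (by positivity), ← hrr]
      exact mul_le_mul_of_nonneg_left h8r hr0.le
    have h1632 : 32 * l2 ≤ l1 := by
      rw [← hrr]
      have h10 : 8 * l2 * r ≤ r * r := mul_le_mul_of_nonneg_right h8r hr0.le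
      have h11 : 4 ≤ r := by linarith
      nlinarith [mul_le_mul_of_nonneg_left h11 (show 0 ≤ 8 * l2 by positivity)]
    have hxge : l1 / (16 * l2) ≤ px Y := by
      have h12 : l1 / (8 * l2) < px Y + 1 := Nat.lt_floor_add_one _
      have h13 : l1 / (8 * l2) = l1 / (16 * l2) + l1 / (16 * l2) := by
        field_simp
        ring
      have h14 : 1 ≤ l1 / (16 * l2) := by
        rw [le_div_iff₀ (by positivity)]
        linarith
      linarith
    have hylow : l1 + 1 ≤ c * l1 * l2 ^ 3 * l4 / l3 ^ 4 := by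
      rw [le_div_iff₀ (by positivity)]
      have h15 : 2 ≤ c * l2 := by
        rw [div_le_iff₀ hc] at g2c
        linarith
      have h16 : l1 + 1 ≤ 2 * l1 := by linarith
      calc (l1 + 1) * l3 ^ 4 ≤ (2 * l1) * l2 :=
            mul_le_mul h16 e2 (by positivity) (by positivity)
        _ ≤ ((c * l2) * l1) * l2 := by gcongr
        _ = c * l1 * l2 ^ 2 := by ring
        _ ≤ c * l1 * l2 ^ 3 * l4 := by
          have h17 : l2 ^ 2 ≤ l2 ^ 3 * l4 := by
            calc l2 ^ 2 ≤ l2 ^ 3 := pow_le_pow_right₀ (by linarith) (by norm_num)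
              _ = l2 ^ 3 * 1 := (mul_one _).symm
              _ ≤ l2 ^ 3 * l4 := mul_le_mul_of_nonneg_left g4 (by positivity)
          calc c * l1 * l2 ^ 2 ≤ c * l1 * (l2 ^ 3 * l4) :=
                mul_le_mul_of_nonneg_left h17 (by positivity)
            _ = _ := by ring
    have hy1 : l1 ≤ py c Y := by
      have h18 : c * l1 * l2 ^ 3 * l4 / l3 ^ 4 < py c Y + 1 := Nat.lt_floor_add_one _
      linarith
    have hy0 : (py c Y : ℝ) ≤ c * l1 * l2 ^ 3 * l4 / l3 ^ 4 := Nat.floor_le (by positivity)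
    have hy3 : (py c Y : ℝ) ≤ l1 * l2 ^ 3 := by
      refine hy0.trans ?_
      rw [div_le_iff₀ (by positivity)]
      have h19 : l4 ≤ l3 ^ 4 := h43.trans hl3p
      have h20 : c * (l1 * l2 ^ 3) ≤ 1 * (l1 * l2 ^ 3) :=
        mul_le_mul_of_nonneg_right hc1 (by positivity)
      calc c * l1 * l2 ^ 3 * l4 = (c * (l1 * l2 ^ 3)) * l4 := by ring
        _ ≤ (1 * (l1 * l2 ^ 3)) * l3 ^ 4 := mul_le_mul h20 h19 p4.le (by positivity)
        _ = l1 * l2 ^ 3 * l3 ^ 4 := by ring
    refine ⟨hy1, ?_, ?_, hxge, hxB, ?_, ?_, hz2, ?_, ?_, ?_⟩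
    · refine hy3.trans ?_
      have h21 : l2 ^ 3 * 2 ≤ l2 ^ 3 * l2 := mul_le_mul_of_nonneg_left (by linarith) (by positivity)
      have h22 : l1 * (l2 ^ 3 * 2) ≤ l1 * (l2 ^ 3 * l2) := mul_le_mul_of_nonneg_left h21 p1.le
      have h23 : l1 * l2 ^ 4 = l1 * (l2 ^ 3 * l2) := by ring
      rw [h23]
      linarith
    · refine hy3.trans ?_
      have h24 : l1 ^ (3 / 2 : ℝ) = l1 * r := by
        rw [Real.rpow_def_of_pos p1]
        have h25 : Real.log l1 * (3 / 2) = Real.log l1 + l2 / 2 := by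
          rw [← hl2]
          ring
        rw [h25, Real.exp_add, Real.exp_log p1]
      rw [h24]
      exact mul_le_mul_of_nonneg_left h23 p1.le
    · refine Nat.le_floor ?_
      push_cast
      exact (by linarith : (2 : ℝ) ≤ r).trans hrB
    · have h26 : (px Y : ℝ) ≤ (2 * py c Y : ℕ) := by
        push_cast
        have h27 : l1 / (8 * l2) ≤ l1 := by
          rw [div_le_iff₀ (by positivity)]
          nlinarith
        linarith
      exact_mod_cast h26
    · refine Nat.floor_le_floor ?_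
      exact (Real.exp_le_exp.2 hE2).trans hrB
    · have h28 : Real.exp E < pz Y + 1 := Nat.lt_floor_add_one _
      have h29 := Real.log_le_log (Real.exp_pos _) h28.le
      rwa [Real.log_exp] at h29
    · have h30 : (0 : ℝ) < pz Y := by
        have : 0 < pz Y := by omega
        exact_mod_cast this
      have h31 := Real.log_le_log h30 hzA
      rw [Real.log_exp] at h31
      linarith
  obtain ⟨Y₀, hY₀⟩ := eventually_atTop.1 key
  exact ⟨Y₀, fun Y hY => hY₀ Y hY⟩

end Pool.Agent.Lib.MP_bae66e_nt.TL
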