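import Pool.Agent.Lib.MP_bae66e_nt.TL.Defs

/-!
# N1a: auxiliary facts for N1 and N2
-/

set_option autoImplicit false

open Finset Nat

namespace Pool.Agent.Lib.MP_bae66e_nt.TL

/-- If `0 < x ≤ 1` and `r ≤ x * A` then `x ^ r ≥ exp (-A)`: `r * log (1/x) ≤ x A (1/x - 1) ≤ A`. -/
lemma exp_neg_le_pow (x A : ℝ) (r : ℕ) (hx : 0 < x) (hx1 : x ≤ 1) (hA : 0 ≤ A)
    (hr : (r : ℝ) ≤ x * A) : Real.exp (-A) ≤ x ^ r := by
  rw [← Real.exp_log (pow_pos hx r), Real.exp_le_exp, Real.log_pow]
  have h1 : 1 - x⁻¹ ≤ Real.log x := Real.one_sub_inv_le_log_of_pos hx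
  have h2 : 0 ≤ x⁻¹ - 1 := by
    have := (one_le_inv₀ hx).mpr hx1
    linarith
  have h3 : (r : ℝ) * (x⁻¹ - 1) ≤ x * A * (x⁻¹ - 1) := mul_le_mul_of_nonneg_right hr h2
  have h4 : x * A * (x⁻¹ - 1) = A * (1 - x) := by
    field_simp
  have h5 : (r : ℝ) * (1 - x⁻¹) ≤ (r : ℝ) * Real.log x := mul_le_mul_of_nonneg_left h1 (Nat.cast_nonneg r)
  nlinarith

/-- product of the differences of the elements of `S` -/
def diffProd (S : Finset ℕ) : ℕ := ∏ x ∈ (S ×ˢ S).filter (fun x => x.1 < x.2), (x.2 - x.1)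

lemma diffProd_pos (S : Finset ℕ) : 0 < diffProd S := by
  unfold diffProd
  apply Finset.prod_pos
  intro x hx
  rw [Finset.mem_filter] at hx
  omega

/-- N1a. For `S ⊆ (y, 2y]` each difference is `≤ y`, and there are at most `(#S)²` pairs. -/
lemma log_diffProd_le (y : ℕ) (hy : 1 ≤ y) (S : Finset ℕ) (hS : S ⊆ Finset.Ioc y (2 * y)) :
    Real.log (diffProd S) ≤ (#S : ℝ) ^ 2 * Real.log y := by
  have hly : 0 ≤ Real.log y := Real.log_nonneg (by exact_mod_cast hy)
  unfold diffProd
  rw [Nat.cast_prod, Real.log_prod]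
  · calc ∑ x ∈ (S ×ˢ S).filter (fun x => x.1 < x.2), Real.log ((x.2 - x.1 : ℕ) : ℝ)
        ≤ ∑ x ∈ (S ×ˢ S).filter (fun x => x.1 < x.2), Real.log y := by
          apply Finset.sum_le_sum
          intro x hx
          rw [Finset.mem_filter, Finset.mem_product] at hx
          have h1 := Finset.mem_Ioc.mp (hS hx.1.1)
          have h2 := Finset.mem_Ioc.mp (hS hx.1.2)
          apply Real.log_le_log
          · have : 0 < x.2 - x.1 := by omega
            exact_mod_cast this
          · have : x.2 - x.1 ≤ y := by omega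
            exact_mod_cast this
      _ = (#((S ×ˢ S).filter (fun x => x.1 < x.2)) : ℝ) * Real.log y := by
          rw [Finset.sum_const, nsmul_eq_mul]
      _ ≤ (#S : ℝ) ^ 2 * Real.log y := by
          apply mul_le_mul_of_nonneg_right _ hly
          have h1 : #((S ×ˢ S).filter (fun x => x.1 < x.2)) ≤ #S * #S := by
            rw [← Finset.card_product]
            exact Finset.card_filter_le _ _
          rw [sq]
          exact_mod_cast h1
  · intro x hx
    rw [Finset.mem_filter] at hx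
    have : x.2 - x.1 ≠ 0 := by omega
    exact_mod_cast this

/-- N1b. If the prime `p` does not divide `diffProd S`, the elements of `S` are distinct mod
`p`. -/
lemma card_image_mod (S : Finset ℕ) (p : ℕ) (hp : ¬ p ∣ diffProd S) :
    #(S.image (fun u => u % p)) = #S := by
  apply Finset.card_image_of_injOn
  have key : ∀ u ∈ S, ∀ v ∈ S, u % p = v % p → ¬ u < v := by
    intro u hu v hv huv hlt
    apply hp
    have h1 : p ∣ v - u := (Nat.modEq_iff_dvd' hlt.le).mp huv
    refine h1.trans ?_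
    unfold diffProd
    have hmem : ((u, v) : ℕ × ℕ) ∈ (S ×ˢ S).filter (fun x => x.1 < x.2) :=
      Finset.mem_filter.mpr ⟨Finset.mem_product.mpr ⟨hu, hv⟩, hlt⟩
    exact Finset.dvd_prod_of_mem (fun x : ℕ × ℕ => x.2 - x.1) hmem
  intro u hu v hv huv
  have h1 := key u hu v hv huv
  have h2 := key v hv u hu huv.symm
  omega

end Pool.Agent.Lib.MP_bae66e_nt.TL
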