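import Pool.Agent.Lib.MP_bae66e_nt.TL.S5
import Pool.Agent.Lib.MP_bae66e_nt.TL.N1a

/-!
# N1c: sieve bound for `n` with `u - n` prime for all `u ∈ S`, raw form
-/

set_option autoImplicit false

open Finset Nat

namespace Pool.Agent.Lib.MP_bae66e_nt.TL

/-- N1c. `gen_sieve` with `X = 2y`, `Rs p = S.image (· % p)`, modulus `m = primProd v * diffProd S`
where `#S ≤ v` (so that a prime `p ∤ m` satisfies `p > v ≥ #S`). If all `u - n` (`u ∈ S`) are primes
`> R` then `n % p ∉ Rs p` for `p ≤ R`; the `n` with `u - n ≤ R` for some `u` are at most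
`#S * (R + 1)` many. -/
lemma small_sieve_aux (y v R D : ℕ) (S : Finset ℕ) (hS : S ⊆ Finset.Ioc y (2 * y))
    (hr : 1 ≤ #S) (hv : #S ≤ v) (hD : 1 ≤ D) (hDR : D ^ #S ≤ R) :
    ((#{n ∈ Finset.Ioc 0 (2 * y) | ∀ u ∈ S, n < u ∧ (u - n).Prime} : ℕ) : ℝ)
      ≤ 2 * y / (rho (primProd v * diffProd S) * Real.log (D + 1)) ^ #S
        + (R : ℝ) ^ 4 + #S * (R + 1) := by
  classical
  have hm : primProd v * diffProd S ≠ 0 := (Nat.mul_pos (primProd_pos v) (diffProd_pos S)).ne'
  have hdiff : ∀ p : ℕ, ¬ p ∣ primProd v * diffProd S → ¬ p ∣ diffProd S :=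
    fun p hp h => hp (h.mul_left _)
  have hsieve := gen_sieve (primProd v * diffProd S) (#S) R D (2 * y) (fun p => S.image (fun u => u % p)) hm hr
    (by
      intro p hp hpm
      by_contra hcon
      apply hpm
      apply Dvd.dvd.mul_right
      unfold primProd
      exact Finset.dvd_prod_of_mem _ (mem_prms.mpr ⟨by omega, hp⟩))
    (by
      intro p hp _ hpm
      refine ⟨?_, card_image_mod S p (hdiff p hpm)⟩
      intro x hx
      obtain ⟨u, _, rfl⟩ := Finset.mem_image.mp hx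
      exact Finset.mem_range.mpr (Nat.mod_lt _ hp.pos))
    hD hDR
  have hsub : {n ∈ Finset.Ioc 0 (2 * y) | ∀ u ∈ S, n < u ∧ (u - n).Prime} ⊆
      {t ∈ Finset.Ioc 0 (2 * y) | ∀ p ∈ sPrimes (primProd v * diffProd S) R,
        t % p ∉ S.image (fun u => u % p)} ∪ S.biUnion (fun u => Finset.Icc (u - R) u) := by
    intro n hn
    rw [Finset.mem_filter] at hn
    by_cases hbig : ∀ u ∈ S, R < u - n
    · apply Finset.mem_union_left
      rw [Finset.mem_filter]
      refine ⟨hn.1, ?_⟩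
      intro p hp hcon
      obtain ⟨u, hu, hup⟩ := Finset.mem_image.mp hcon
      have hp' := hp
      unfold sPrimes at hp'
      rw [Finset.mem_filter, Finset.mem_Icc] at hp'
      obtain ⟨h1, h2⟩ := hn.2 u hu
      have h3 : p ∣ u - n := (Nat.modEq_iff_dvd' h1.le).mp hup.symm
      have h4 := (Nat.prime_dvd_prime_iff_eq hp'.2.1 h2).mp h3
      have h5 := hbig u hu
      omega
    · apply Finset.mem_union_right
      simp only [not_forall, not_lt] at hbig
      obtain ⟨u, hu, huR⟩ := hbig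
      rw [Finset.mem_biUnion]
      refine ⟨u, hu, Finset.mem_Icc.mpr ?_⟩
      have := (hn.2 u hu).1
      omega
  have hcard : #{n ∈ Finset.Ioc 0 (2 * y) | ∀ u ∈ S, n < u ∧ (u - n).Prime} ≤
      #{t ∈ Finset.Ioc 0 (2 * y) | ∀ p ∈ sPrimes (primProd v * diffProd S) R,
        t % p ∉ S.image (fun u => u % p)} + #S * (R + 1) := by
    refine (Finset.card_le_card hsub).trans ((Finset.card_union_le _ _).trans ?_)
    apply Nat.add_le_add_left
    refine Finset.card_biUnion_le.trans ?_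
    calc ∑ u ∈ S, #(Finset.Icc (u - R) u) ≤ ∑ _u ∈ S, (R + 1) := by
          apply Finset.sum_le_sum
          intro u _
          rw [Nat.card_Icc]
          omega
      _ = #S * (R + 1) := by rw [Finset.sum_const, smul_eq_mul]
  have hcard' : ((#{n ∈ Finset.Ioc 0 (2 * y) | ∀ u ∈ S, n < u ∧ (u - n).Prime} : ℕ) : ℝ) ≤
      ((#{t ∈ Finset.Ioc 0 (2 * y) | ∀ p ∈ sPrimes (primProd v * diffProd S) R,
        t % p ∉ S.image (fun u => u % p)} : ℕ) : ℝ) + #S * (R + 1) := by
    exact_mod_cast hcard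
  push_cast at hsieve
  linarith

end Pool.Agent.Lib.MP_bae66e_nt.TL
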