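import Pool.Agent.Lib.MP_bae66e_nt.TL.N2a
import Pool.Agent.Lib.MP_bae66e_nt.TL.N0

/-!
# N2: sieve bound for `t` with `a + Q t + n` prime for all `n ∈ A`
-/

set_option autoImplicit false

open Finset Nat

namespace Pool.Agent.Lib.MP_bae66e_nt.TL

private lemma N2_num1 (l : ℝ) (hl : 1000 ≤ l) : Real.exp (l / 17) + 1 ≤ Real.exp (l / 16) := by
  have h1 : Real.exp (l / 16) = Real.exp (l / 17) * Real.exp (l / 272) := by
    rw [← Real.exp_add]
    congr 1
    ring
  have h2 : 1 + l / 272 ≤ Real.exp (l / 272) := by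
    have := Real.add_one_le_exp (l / 272)
    linarith
  have h3 : 1 ≤ Real.exp (l / 17) := Real.one_le_exp (by linarith)
  rw [h1]
  nlinarith

private lemma N2_num2 (l : ℝ) (hl : 1000 ≤ l) :
    Real.exp (l / 4) + Real.exp (l / 16) ≤ Real.exp l / 2 * Real.exp (-(l / 4)) := by
  have e0 : Real.exp l / 2 * Real.exp (-(l / 4)) = Real.exp (3 * l / 4) / 2 := by
    rw [div_mul_eq_mul_div, ← Real.exp_add]
    congr 2
    ring
  have e1 : Real.exp (3 * l / 4) = Real.exp (l / 4) * Real.exp (l / 2) := by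
    rw [← Real.exp_add]
    congr 1
    ring
  have h1 : 4 ≤ Real.exp (l / 2) := by
    have := Real.add_one_le_exp (l / 2)
    linarith
  have h2 : Real.exp (l / 16) ≤ Real.exp (l / 4) := Real.exp_le_exp.2 (by linarith)
  have p1 := Real.exp_pos (l / 4)
  rw [e0, e1]
  nlinarith

/-- N2. `large_sieve_aux` with `R = ⌊T^(1/16)⌋`, `D = ⌊R^(1/k)⌋`, `k = #A`: `rho (primProd (2y)) ≥
c₀ / log (2y) ≥ c₀ / (2 log y)`, `log (D + 1) ≥ log R / k ≥ log T / (17 k)`, so the main term is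
`≤ T (34 k log y / (c₀ log T))^k ≤ (T / 2) (C₂ k log y / log T)^k` if `C₂ ≥ 68 / c₀`; the
error `R^4 + R ≤ 2 T^(1/4) ≤ (T / 2) * T^(-1/4) ≤ (T / 2) (C₂ k log y / log T)^k` by
`exp_neg_le_pow` with `A = log T / (C₂ log y) ≤ log T / 4` (`C₂ log y ≥ 4`, `T` large as
`log T ≥ C₂ k log y`). -/
theorem large_sieve : ∃ C₂ : ℝ, 1 ≤ C₂ ∧ ∃ y₂ : ℕ, ∀ y : ℕ, y₂ ≤ y → ∀ a Q T : ℕ, 1 ≤ Q →
    (∀ p : ℕ, p.Prime → p ∣ Q → p ≤ 2 * y) → ∀ A : Finset ℕ, A ⊆ Finset.Ioc 0 (2 * y) →
    1 ≤ #A → C₂ * #A * Real.log y ≤ Real.log T →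
    ((#{t ∈ Finset.Ioc 0 T | ∀ n ∈ A, (a + Q * t + n).Prime} : ℕ) : ℝ)
      ≤ T * (C₂ * #A * Real.log y / Real.log T) ^ #A := by
  obtain ⟨c₀, hc₀, hrho⟩ := exists_rho_primProd_ge
  refine ⟨max 4 (68 / c₀), le_trans (by norm_num) (le_max_left _ _), ⌈Real.exp 1000⌉₊, ?_⟩
  intro y hy a Q T hQ1 hQ A hA hr hC
  set C₂ : ℝ := max 4 (68 / c₀) with hC₂
  have hC4 : 4 ≤ C₂ := le_max_left _ _
  have hC68 : 68 / c₀ ≤ C₂ := le_max_right _ _
  have hC₂pos : 0 < C₂ := by linarith
  have hy0 : Real.exp 1000 ≤ (y : ℝ) := Nat.ceil_le.1 hy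
  have hypos : 0 < (y : ℝ) := lt_of_lt_of_le (Real.exp_pos _) hy0
  set ly : ℝ := Real.log y with hly
  have hly1000 : 1000 ≤ ly := (Real.le_log_iff_exp_le hypos).2 hy0
  have hlypos : 0 < ly := by linarith
  set r : ℝ := (#A : ℝ) with hrr
  have hr1 : 1 ≤ r := by rw [hrr]; exact_mod_cast hr
  have hrpos : 0 < r := by linarith
  set l : ℝ := Real.log T with hl
  have hl1 : C₂ * ly ≤ l := by
    refine le_trans ?_ hC
    have : 0 < C₂ * ly := by positivity
    nlinarith
  have hl1000 : 1000 ≤ l := by nlinarith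
  have hlpos : 0 < l := by linarith
  have hTpos : 0 < (T : ℝ) := by
    rcases Nat.eq_zero_or_pos T with h | h
    · exfalso
      rw [hl, h, Nat.cast_zero, Real.log_zero] at hlpos
      exact lt_irrefl _ hlpos
    · exact_mod_cast h
  have hTl : Real.exp l = (T : ℝ) := Real.exp_log hTpos
  -- the parameter R
  set R : ℕ := ⌊Real.exp (l / 16)⌋₊ with hR
  have hRle : (R : ℝ) ≤ Real.exp (l / 16) := Nat.floor_le (Real.exp_pos _).le
  have hRge : Real.exp (l / 17) ≤ (R : ℝ) := by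
    have := Nat.lt_floor_add_one (Real.exp (l / 16))
    rw [← hR] at this
    have h2 := N2_num1 l hl1000
    linarith
  have hRpos : 0 < (R : ℝ) := lt_of_lt_of_le (Real.exp_pos _) hRge
  have hlogR : l / 17 ≤ Real.log R := (Real.le_log_iff_exp_le hRpos).2 hRge
  -- the parameter D
  set D : ℕ := ⌊Real.exp (Real.log R / r)⌋₊ with hD
  have hDle : (D : ℝ) ≤ Real.exp (Real.log R / r) := Nat.floor_le (Real.exp_pos _).le
  have hlogR0 : 0 ≤ Real.log R / r := by
    apply div_nonneg _ hrpos.le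
    linarith
  have hD1 : 1 ≤ D := by
    refine Nat.le_floor ?_
    rw [Nat.cast_one]
    exact Real.one_le_exp hlogR0
  have hDR : D ^ #A ≤ R := by
    have h1 : (D : ℝ) ^ #A ≤ (R : ℝ) := by
      calc (D : ℝ) ^ #A ≤ (Real.exp (Real.log R / r)) ^ #A :=
            pow_le_pow_left₀ (Nat.cast_nonneg _) hDle _
        _ = R := by
          rw [← Real.exp_nat_mul, ← hrr, mul_div_cancel₀ _ hrpos.ne', Real.exp_log hRpos]
    exact_mod_cast h1
  have hlogD : l / (17 * r) ≤ Real.log ((D : ℝ) + 1) := by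
    have h1 : Real.exp (Real.log R / r) ≤ (D : ℝ) + 1 := by
      have := Nat.lt_floor_add_one (Real.exp (Real.log R / r))
      rw [← hD] at this
      exact this.le
    have h2 : Real.log R / r ≤ Real.log ((D : ℝ) + 1) :=
      (Real.le_log_iff_exp_le (by positivity)).2 h1
    have h3 : l / (17 * r) = l / 17 / r := by rw [div_div]
    rw [h3]
    exact le_trans (div_le_div_of_nonneg_right hlogR hrpos.le) h2
  have hmain := large_sieve_aux y a Q T R D A hQ1 hQ hA hr hD1 hDR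
  -- lower bound for rho
  have hρ : c₀ / (2 * ly) ≤ rho (primProd (2 * y)) := by
    have hy1 : (1 : ℝ) ≤ (y : ℝ) := le_trans (Real.one_le_exp (by norm_num)) hy0
    have hy2 : 2 ≤ 2 * y := by
      have : 1 ≤ y := by exact_mod_cast hy1
      omega
    refine le_trans ?_ (hrho (2 * y) hy2)
    have h1 : Real.log ((2 * y : ℕ) : ℝ) ≤ 2 * ly := by
      push_cast
      rw [Real.log_mul (by norm_num) hypos.ne']
      have h2 : Real.log 2 ≤ 1 := by
        have := Real.log_two_lt_d9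
        linarith
      linarith
    have h2 : 0 < Real.log ((2 * y : ℕ) : ℝ) := by
      apply Real.log_pos
      push_cast
      linarith
    exact div_le_div_of_nonneg_left hc₀.le h2 h1
  set x : ℝ := C₂ * r * ly / l with hx
  have hxpos : 0 < x := by positivity
  have hx1 : x ≤ 1 := by
    rw [hx, div_le_one hlpos]
    exact hC
  -- main term
  have hprod : 2 / x ≤ rho (primProd (2 * y)) * Real.log ((D : ℝ) + 1) := by
    have h1 : c₀ / (2 * ly) * (l / (17 * r)) ≤
        rho (primProd (2 * y)) * Real.log ((D : ℝ) + 1) :=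
      mul_le_mul hρ hlogD (by positivity) (le_trans (by positivity) hρ)
    refine le_trans ?_ h1
    have h2 : 68 ≤ C₂ * c₀ := by
      rw [div_le_iff₀ hc₀] at hC68
      exact hC68
    have h3 : 2 / x = 2 * l / (C₂ * r * ly) := by
      rw [hx]
      field_simp
    have h4 : c₀ / (2 * ly) * (l / (17 * r)) = c₀ * l / (34 * (r * ly)) := by
      field_simp
      norm_num
    rw [h3, h4, div_le_div_iff₀ (by positivity) (by positivity)]
    have h5 : 0 < l * (r * ly) := by positivity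
    nlinarith
  have hterm : (T : ℝ) / (rho (primProd (2 * y)) * Real.log ((D : ℝ) + 1)) ^ #A
      ≤ (T : ℝ) / 2 * x ^ #A := by
    have h2x : 0 < 2 / x := by positivity
    have h1 : (2 / x) ^ #A ≤
        (rho (primProd (2 * y)) * Real.log ((D : ℝ) + 1)) ^ #A :=
      pow_le_pow_left₀ h2x.le hprod _
    have h2 : (T : ℝ) / (rho (primProd (2 * y)) * Real.log ((D : ℝ) + 1)) ^ #A
        ≤ (T : ℝ) / (2 / x) ^ #A :=
      div_le_div_of_nonneg_left (by positivity) (by positivity) h1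
    refine le_trans h2 ?_
    have h3 : (2 : ℝ) ≤ 2 ^ #A := by
      calc (2 : ℝ) = 2 ^ 1 := by norm_num
        _ ≤ 2 ^ #A := pow_le_pow_right₀ (by norm_num) hr
    have h4 : (T : ℝ) / (2 / x) ^ #A = (T : ℝ) / 2 * x ^ #A * (2 / 2 ^ #A) := by
      rw [div_pow]
      field_simp
    rw [h4]
    have h5 : (2 : ℝ) / 2 ^ #A ≤ 1 := by
      rw [div_le_one (by positivity)]
      exact h3
    exact mul_le_of_le_one_right (by positivity) h5
  -- error term
  have herr : (R : ℝ) ^ 4 + (R : ℝ) ≤ (T : ℝ) / 2 * x ^ #A := by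
    have h1 := exp_neg_le_pow x (l / (C₂ * ly)) #A hxpos hx1 (by positivity) (by
      rw [hx, ← hrr]
      apply le_of_eq
      field_simp)
    have h2 : l / (C₂ * ly) ≤ l / 4 := by
      refine div_le_div_of_nonneg_left hlpos.le (by norm_num) ?_
      nlinarith
    have h3 : Real.exp (-(l / 4)) ≤ x ^ #A :=
      le_trans (Real.exp_le_exp.2 (neg_le_neg h2)) h1
    have h4 := N2_num2 l hl1000
    rw [hTl] at h4
    have h5 : (R : ℝ) ^ 4 ≤ Real.exp (l / 4) := by
      calc (R : ℝ) ^ 4 ≤ (Real.exp (l / 16)) ^ 4 := pow_le_pow_left₀ hRpos.le hRle 4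
        _ = Real.exp (l / 4) := by
          rw [← Real.exp_nat_mul]
          congr 1
          push_cast
          ring
    have h7 : (T : ℝ) / 2 * Real.exp (-(l / 4)) ≤ (T : ℝ) / 2 * x ^ #A :=
      mul_le_mul_of_nonneg_left h3 (by positivity)
    linarith
  calc _ ≤ _ := hmain
    _ ≤ (T : ℝ) * x ^ #A := by linarith

end Pool.Agent.Lib.MP_bae66e_nt.TL
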