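import Pool.Agent.Lib.MP_bae66e_nt.TL.S5
import Pool.Agent.Lib.MP_bae66e_nt.TL.N1a

/-!
# N2a: sieve bound for `t` with `a + Q t + n` prime for all `n ∈ A`, raw form
-/

set_option autoImplicit false

open Finset Nat

namespace Pool.Agent.Lib.MP_bae66e_nt.TL

/-- the residues `c` mod `p` with `p ∣ a + Q c + n` for some `n ∈ A` -/
def resA (a Q : ℕ) (A : Finset ℕ) (p : ℕ) : Finset ℕ :=
  {c ∈ Finset.range p | ∃ n ∈ A, p ∣ a + Q * c + n}

private lemma N2a_exists (a Q p n : ℕ) (hp : p.Prime) (hQ : ¬ p ∣ Q) :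
    ∃ c, c < p ∧ p ∣ a + Q * c + n := by
  haveI : Fact p.Prime := ⟨hp⟩
  have hQ' : (Q : ZMod p) ≠ 0 := by
    intro h
    exact hQ ((ZMod.natCast_eq_zero_iff Q p).mp h)
  refine ⟨(-((a : ZMod p) + n) / (Q : ZMod p)).val, ZMod.val_lt _, ?_⟩
  rw [← ZMod.natCast_eq_zero_iff]
  push_cast
  rw [ZMod.natCast_zmod_val, mul_div_cancel₀ _ hQ']
  ring

/-- N2a. `p > 2y`, `p ∤ Q`: for each `n ∈ A` there is exactly one `c < p` with `p ∣ a + Q c + n`,
and distinct `n, n' ∈ A ⊆ (0, 2y]` have distinct `c` because `p ∤ n - n'`. -/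
lemma card_resA (y a Q p : ℕ) (A : Finset ℕ) (hp : p.Prime) (hpy : 2 * y < p) (hQ : ¬ p ∣ Q)
    (hA : A ⊆ Finset.Ioc 0 (2 * y)) : #(resA a Q A p) = #A := by
  classical
  haveI : Fact p.Prime := ⟨hp⟩
  have hQ' : (Q : ZMod p) ≠ 0 := by
    intro h
    exact hQ ((ZMod.natCast_eq_zero_iff Q p).mp h)
  choose f hf1 hf2 using fun n => N2a_exists a Q p n hp hQ
  have himg : resA a Q A p = A.image f := by
    ext c
    unfold resA
    rw [Finset.mem_filter, Finset.mem_range, Finset.mem_image]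
    constructor
    · rintro ⟨hc, n, hn, hdvd⟩
      refine ⟨n, hn, ?_⟩
      have h1 := (ZMod.natCast_eq_zero_iff _ p).mpr hdvd
      have h2 := (ZMod.natCast_eq_zero_iff _ p).mpr (hf2 n)
      push_cast at h1 h2
      have h3 : (Q : ZMod p) * (f n : ZMod p) = (Q : ZMod p) * (c : ZMod p) := by
        linear_combination h2 - h1
      have h4 := mul_left_cancel₀ hQ' h3
      have h5 := (ZMod.natCast_eq_natCast_iff' _ _ _).mp h4
      rwa [Nat.mod_eq_of_lt (hf1 n), Nat.mod_eq_of_lt hc] at h5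
    · rintro ⟨n, hn, rfl⟩
      exact ⟨hf1 n, n, hn, hf2 n⟩
  rw [himg]
  apply Finset.card_image_of_injOn
  intro n hn n' hn' hff
  have h1 := (ZMod.natCast_eq_zero_iff _ p).mpr (hf2 n)
  have h2 := (ZMod.natCast_eq_zero_iff _ p).mpr (hf2 n')
  have hff' : f n = f n' := hff
  rw [← hff'] at h2
  push_cast at h1 h2
  have h3 : (n : ZMod p) = (n' : ZMod p) := by linear_combination h1 - h2
  have h4 := (ZMod.natCast_eq_natCast_iff' _ _ _).mp h3
  have h5 := Finset.mem_Ioc.mp (hA hn)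
  have h6 := Finset.mem_Ioc.mp (hA hn')
  rwa [Nat.mod_eq_of_lt (by omega), Nat.mod_eq_of_lt (by omega)] at h4

/-- N2b. `gen_sieve` with `m = primProd (2y)`, `Rs = resA a Q A`, `r = #A ≤ 2y < p`. If all
`a + Q t + n` are primes and `t > R` then they are `> R`, so no prime `p ≤ R` divides one of
them (`p ∣ a + Q t + n` iff `p ∣ a + Q (t % p) + n`). -/
lemma large_sieve_aux (y a Q T R D : ℕ) (A : Finset ℕ) (hQ1 : 1 ≤ Q)
    (hQ : ∀ p : ℕ, p.Prime → p ∣ Q → p ≤ 2 * y) (hA : A ⊆ Finset.Ioc 0 (2 * y))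
    (hr : 1 ≤ #A) (hD : 1 ≤ D) (hDR : D ^ #A ≤ R) :
    ((#{t ∈ Finset.Ioc 0 T | ∀ n ∈ A, (a + Q * t + n).Prime} : ℕ) : ℝ)
      ≤ T / (rho (primProd (2 * y)) * Real.log (D + 1)) ^ #A + (R : ℝ) ^ 4 + R := by
  classical
  have hprm : ∀ p : ℕ, p.Prime → ¬ p ∣ primProd (2 * y) → 2 * y < p := by
    intro p hp hpm
    by_contra hcon
    apply hpm
    unfold primProd
    exact Finset.dvd_prod_of_mem _ (mem_prms.mpr ⟨by omega, hp⟩)
  have hcA : #A ≤ 2 * y := by
    have := Finset.card_le_card hA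
    rwa [Nat.card_Ioc, Nat.sub_zero] at this
  have hsieve := gen_sieve (primProd (2 * y)) (#A) R D T (resA a Q A) (primProd_pos _).ne' hr
    (fun p hp hpm => lt_of_le_of_lt hcA (hprm p hp hpm))
    (by
      intro p hp _ hpm
      refine ⟨Finset.filter_subset _ _, ?_⟩
      have h1 := hprm p hp hpm
      exact card_resA y a Q p A hp h1 (fun h => by have := hQ p hp h; omega) hA)
    hD hDR
  have hsub : {t ∈ Finset.Ioc 0 T | ∀ n ∈ A, (a + Q * t + n).Prime} ⊆
      {t ∈ Finset.Ioc 0 T | ∀ p ∈ sPrimes (primProd (2 * y)) R, t % p ∉ resA a Q A p} ∪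
        Finset.Ioc 0 R := by
    intro t ht
    rw [Finset.mem_filter] at ht
    by_cases htR : t ≤ R
    · exact Finset.mem_union_right _ (Finset.mem_Ioc.mpr ⟨(Finset.mem_Ioc.mp ht.1).1, htR⟩)
    · apply Finset.mem_union_left
      rw [Finset.mem_filter]
      refine ⟨ht.1, ?_⟩
      intro p hp hcon
      have hp' := hp
      unfold sPrimes at hp'
      rw [Finset.mem_filter, Finset.mem_Icc] at hp'
      unfold resA at hcon
      rw [Finset.mem_filter] at hcon
      obtain ⟨_, n, hn, hdvd⟩ := hcon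
      have h1 : p ∣ a + Q * t + n := by
        have e : (a + Q * t + n) = (a + Q * (t % p) + n) + p * (Q * (t / p)) := by
          conv_lhs => rw [← Nat.mod_add_div t p]
          ring
        rw [e]
        exact dvd_add hdvd (dvd_mul_right _ _)
      have h2 := (Nat.prime_dvd_prime_iff_eq hp'.2.1 (ht.2 n hn)).mp h1
      have h3 : t ≤ Q * t := Nat.le_mul_of_pos_left t hQ1
      omega
  have hcard : #{t ∈ Finset.Ioc 0 T | ∀ n ∈ A, (a + Q * t + n).Prime} ≤
      #{t ∈ Finset.Ioc 0 T | ∀ p ∈ sPrimes (primProd (2 * y)) R, t % p ∉ resA a Q A p} + R := by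
    refine (Finset.card_le_card hsub).trans ((Finset.card_union_le _ _).trans ?_)
    rw [Nat.card_Ioc, Nat.sub_zero]
  have hcard' : ((#{t ∈ Finset.Ioc 0 T | ∀ n ∈ A, (a + Q * t + n).Prime} : ℕ) : ℝ) ≤
      ((#{t ∈ Finset.Ioc 0 T | ∀ p ∈ sPrimes (primProd (2 * y)) R, t % p ∉ resA a Q A p} : ℕ) : ℝ)
        + R := by
    exact_mod_cast hcard
  linarith

end Pool.Agent.Lib.MP_bae66e_nt.TL
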