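import Pool.Agent.Lib.MP_bae66e_nt.TL.Defs

/-!
# S1: powers of a harmonic sum
-/

set_option autoImplicit false

open Finset Nat ArithmeticFunction
open scoped ArithmeticFunction.Omega

namespace Pool.Agent.Lib.MP_bae66e_nt.TL

/-- S1a. Induction on `n` by `Nat.recOnMul` / `induction_on_primes` (`n = 1`: both sides `1`;
step `n ↦ p * n`: `(p * n).divisors ⊆ n.divisors ∪ n.divisors.image (p * ·)`, so the sum grows at
most by the factor `1 + j` because `Ω (p * d) = Ω d + 1`). -/
lemma sum_divisors_pow_le (j n : ℕ) (hn : n ≠ 0) :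
    ∑ d ∈ n.divisors, (j : ℝ) ^ (Ω d) ≤ ((j : ℝ) + 1) ^ (Ω n) := by
  induction n using induction_on_primes with
  | zero => exact absurd rfl hn
  | one => simp
  | prime_mul p a hp ih =>
    have ha0 : a ≠ 0 := by
      rintro rfl
      exact hn (mul_zero p)
    have hp0 : p ≠ 0 := hp.ne_zero
    have hsub : (p * a).divisors ⊆ a.divisors ∪ a.divisors.image (fun d => p * d) := by
      intro d hd
      rw [Nat.mem_divisors] at hd
      rw [Finset.mem_union, Nat.mem_divisors, Finset.mem_image]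
      by_cases h : p ∣ d
      · right
        obtain ⟨e, rfl⟩ := h
        refine ⟨e, ?_, rfl⟩
        rw [Nat.mem_divisors]
        exact ⟨Nat.dvd_of_mul_dvd_mul_left hp.pos hd.1, ha0⟩
      · left
        refine ⟨?_, ha0⟩
        exact (Nat.Coprime.symm ((Nat.Prime.coprime_iff_not_dvd hp).mpr h)).dvd_of_dvd_mul_left hd.1
    have h1 : ∑ d ∈ (p * a).divisors, (j : ℝ) ^ (Ω d)
        ≤ ∑ d ∈ a.divisors ∪ a.divisors.image (fun d => p * d), (j : ℝ) ^ (Ω d) :=
      Finset.sum_le_sum_of_subset_of_nonneg hsub (fun i _ _ => by positivity)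
    have h2 : ∑ d ∈ a.divisors ∪ a.divisors.image (fun d => p * d), (j : ℝ) ^ (Ω d)
        ≤ ∑ d ∈ a.divisors, (j : ℝ) ^ (Ω d)
          + ∑ d ∈ a.divisors.image (fun d => p * d), (j : ℝ) ^ (Ω d) := by
      rw [← Finset.sum_union_inter]
      have : 0 ≤ ∑ d ∈ a.divisors ∩ a.divisors.image (fun d => p * d), (j : ℝ) ^ (Ω d) :=
        Finset.sum_nonneg (fun i _ => by positivity)
      linarith
    have h3 : ∑ d ∈ a.divisors.image (fun d => p * d), (j : ℝ) ^ (Ω d)
        = j * ∑ d ∈ a.divisors, (j : ℝ) ^ (Ω d) := by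
      rw [Finset.sum_image (fun x _ y _ hxy => Nat.eq_of_mul_eq_mul_left hp.pos hxy),
        Finset.mul_sum]
      apply Finset.sum_congr rfl
      intro d hd
      have hd0 : d ≠ 0 := (Nat.pos_of_mem_divisors hd).ne'
      rw [ArithmeticFunction.cardFactors_mul hp0 hd0,
        ArithmeticFunction.cardFactors_apply_prime hp, pow_add, pow_one]
    rw [ArithmeticFunction.cardFactors_mul hp0 ha0,
      ArithmeticFunction.cardFactors_apply_prime hp, pow_add, pow_one]
    have h4 := ih ha0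
    have hj : (0 : ℝ) ≤ j := Nat.cast_nonneg j
    calc ∑ d ∈ (p * a).divisors, (j : ℝ) ^ (Ω d)
        ≤ ∑ d ∈ a.divisors, (j : ℝ) ^ (Ω d) + j * ∑ d ∈ a.divisors, (j : ℝ) ^ (Ω d) := by
          rw [← h3]; exact h1.trans h2
      _ = ((j : ℝ) + 1) * ∑ d ∈ a.divisors, (j : ℝ) ^ (Ω d) := by ring
      _ ≤ ((j : ℝ) + 1) * ((j : ℝ) + 1) ^ (Ω a) := mul_le_mul_of_nonneg_left h4 (by linarith)

/-- S1b. Induction on `r`. `r = 0`: the sum over `Icc 1 (D ^ 0) = {1}` is `0 ^ Ω 1 / 1 = 1`.
Step: `(∑_d 1/d) ^ (r+1) ≤ (∑_{a ≤ D^r} r^Ω(a) / a) (∑_{d ≤ D} 1/d)`; group the pairs `(a, d)` by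
`n = a d ≤ D^(r+1)` (coprime to `m`): for a fixed `n` the first components are distinct divisors of
`n`, so the sum is at most `∑_n (1/n) ∑_{a ∣ n} r^Ω(a)`, then `sum_divisors_pow_le`.
(Compare `sq_sum_le_sum_cFun` in `SelLower.lean`.) -/
lemma pow_sum_le (m D r : ℕ) :
    (∑ d ∈ Finset.Icc 1 D with Nat.Coprime d m, (1 : ℝ) / d) ^ r
      ≤ ∑ n ∈ Finset.Icc 1 (D ^ r) with Nat.Coprime n m, (r : ℝ) ^ (Ω n) / n := by
  induction r with
  | zero =>
    have h1 : ({n ∈ Finset.Icc 1 (D ^ 0) | Nat.Coprime n m} : Finset ℕ) = {1} := by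
      ext n
      rw [Finset.mem_filter, Finset.mem_Icc, Finset.mem_singleton, pow_zero]
      constructor
      · rintro ⟨h, _⟩; omega
      · rintro rfl; simp
    rw [h1, Finset.sum_singleton]
    simp
  | succ r ih =>
    set A : Finset ℕ := {a ∈ Finset.Icc 1 (D ^ r) | Nat.Coprime a m} with hA
    set B : Finset ℕ := {d ∈ Finset.Icc 1 D | Nat.Coprime d m} with hB
    have hS0 : 0 ≤ ∑ d ∈ B, (1 : ℝ) / d := Finset.sum_nonneg (fun i _ => by positivity)
    rw [pow_succ]
    refine (mul_le_mul_of_nonneg_right ih hS0).trans ?_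
    rw [Finset.sum_mul_sum, ← Finset.sum_product']
    have hmaps : ∀ x ∈ A ×ˢ B,
        x.1 * x.2 ∈ ({n ∈ Finset.Icc 1 (D ^ (r + 1)) | Nat.Coprime n m} : Finset ℕ) := by
      intro x hx
      simp only [hA, hB, Finset.mem_product, Finset.mem_filter, Finset.mem_Icc] at hx ⊢
      refine ⟨⟨?_, ?_⟩, ?_⟩
      · exact Nat.mul_pos (by omega) (by omega)
      · rw [pow_succ]; exact Nat.mul_le_mul hx.1.1.2 hx.2.1.2
      · exact Nat.Coprime.mul_left hx.1.2 hx.2.2
    rw [← Finset.sum_fiberwise_of_maps_to hmaps]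
    apply Finset.sum_le_sum
    intro n hn
    simp only [Finset.mem_filter, Finset.mem_Icc] at hn
    have hn0 : n ≠ 0 := by omega
    calc ∑ x ∈ A ×ˢ B with x.1 * x.2 = n, (r : ℝ) ^ (Ω x.1) / x.1 * (1 / x.2)
        = ∑ x ∈ A ×ˢ B with x.1 * x.2 = n, (r : ℝ) ^ (Ω x.1) * (1 / n) := by
          apply Finset.sum_congr rfl
          intro x hx
          simp only [Finset.mem_filter] at hx
          rw [← hx.2]
          push_cast
          rw [← one_div_mul_one_div]
          ring
      _ = (∑ x ∈ A ×ˢ B with x.1 * x.2 = n, (r : ℝ) ^ (Ω x.1)) * (1 / n) := by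
          rw [Finset.sum_mul]
      _ ≤ (∑ a ∈ n.divisors, (r : ℝ) ^ (Ω a)) * (1 / n) := by
          apply mul_le_mul_of_nonneg_right _ (by positivity)
          have hinj : Set.InjOn (fun x : ℕ × ℕ => x.1)
              (({x ∈ A ×ˢ B | x.1 * x.2 = n} : Finset (ℕ × ℕ)) : Set (ℕ × ℕ)) := by
            intro x hx y hy hxy
            rw [Finset.mem_coe, Finset.mem_filter] at hx hy
            simp only at hxy
            have hx1 : 0 < x.1 := by
              rcases Nat.eq_zero_or_pos x.1 with h | h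
              · rw [h, zero_mul] at hx; exact absurd hx.2.symm hn0
              · exact h
            have : x.1 * x.2 = x.1 * y.2 := by rw [hx.2, hxy, hy.2]
            exact Prod.ext hxy (Nat.eq_of_mul_eq_mul_left hx1 this)
          rw [← Finset.sum_image (f := fun a : ℕ => (r : ℝ) ^ (Ω a)) hinj]
          apply Finset.sum_le_sum_of_subset_of_nonneg
          · intro a ha
            rw [Finset.mem_image] at ha
            obtain ⟨x, hx, rfl⟩ := ha
            rw [Finset.mem_filter] at hx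
            rw [Nat.mem_divisors]
            exact ⟨Dvd.intro _ hx.2, hn0⟩
          · intro i _ _
            positivity
      _ ≤ ((r : ℝ) + 1) ^ (Ω n) * (1 / n) :=
          mul_le_mul_of_nonneg_right (sum_divisors_pow_le r n hn0) (by positivity)
      _ = ((r + 1 : ℕ) : ℝ) ^ (Ω n) / n := by
          push_cast
          ring

end Pool.Agent.Lib.MP_bae66e_nt.TL
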