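import Pool.Agent.Lib.MP_bae66e_nt.TL.Defs

/-!
# S2: counting integers in prescribed residue classes modulo several primes
-/

set_option autoImplicit false

open Finset Nat

namespace Pool.Agent.Lib.MP_bae66e_nt.TL

/-- S2. Chinese remainder theorem, counting form, for two moduli. Bijection
`a ↦ (a % p, a % q)` of `range (p * q)` with `range p ×ˢ range q`. -/
lemma card_crt_two (p q : ℕ) (hp : 0 < p) (hq : 0 < q) (hpq : Nat.Coprime p q)
    (P Q : ℕ → Prop) [DecidablePred P] [DecidablePred Q] :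
    #{a ∈ Finset.range (p * q) | P (a % p) ∧ Q (a % q)}
      = #{a ∈ Finset.range p | P a} * #{a ∈ Finset.range q | Q a} := by
  rw [← Finset.card_product]
  apply Finset.card_bij (fun a _ => (a % p, a % q))
  · intro a ha
    rw [Finset.mem_filter] at ha
    rw [Finset.mem_product, Finset.mem_filter, Finset.mem_filter, Finset.mem_range,
      Finset.mem_range]
    exact ⟨⟨Nat.mod_lt _ hp, ha.2.1⟩, ⟨Nat.mod_lt _ hq, ha.2.2⟩⟩
  · intro a ha b hb hab
    rw [Finset.mem_filter, Finset.mem_range] at ha hb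
    rw [Prod.mk.injEq] at hab
    have h1 : a ≡ b [MOD p * q] :=
      (Nat.modEq_and_modEq_iff_modEq_mul hpq).mp ⟨hab.1, hab.2⟩
    unfold Nat.ModEq at h1
    rwa [Nat.mod_eq_of_lt ha.1, Nat.mod_eq_of_lt hb.1] at h1
  · rintro ⟨a, b⟩ hab
    rw [Finset.mem_product, Finset.mem_filter, Finset.mem_filter, Finset.mem_range,
      Finset.mem_range] at hab
    obtain ⟨⟨ha, hPa⟩, ⟨hb, hQb⟩⟩ := hab
    simp only at ha hPa hb hQb
    obtain ⟨e, hc1, hc2, hlt⟩ : ∃ e : ℕ, e % p = a ∧ e % q = b ∧ e < p * q := by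
      refine ⟨(Nat.chineseRemainder hpq a b : ℕ), ?_, ?_,
        Nat.chineseRemainder_lt_mul hpq a b hp.ne' hq.ne'⟩
      · exact Eq.trans (Nat.chineseRemainder hpq a b).2.1 (Nat.mod_eq_of_lt ha)
      · exact Eq.trans (Nat.chineseRemainder hpq a b).2.2 (Nat.mod_eq_of_lt hb)
    refine ⟨e, ?_, ?_⟩
    · rw [Finset.mem_filter, Finset.mem_range, hc1, hc2]
      exact ⟨hlt, hPa, hQb⟩
    · rw [Prod.mk.injEq]
      exact ⟨hc1, hc2⟩

/-- S2. By induction on `S` with `card_crt_two` (for `q ∈ S`, `a % (∏ p ∈ S, p) % q = a % q`). -/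
lemma card_crt (S : Finset ℕ) (hS : ∀ p ∈ S, p.Prime) (Rs : ℕ → Finset ℕ)
    (hRs : ∀ p ∈ S, Rs p ⊆ Finset.range p) :
    #{a ∈ Finset.range (∏ p ∈ S, p) | ∀ p ∈ S, a % p ∈ Rs p} = ∏ p ∈ S, #(Rs p) := by
  induction S using Finset.induction_on with
  | empty => simp
  | insert q S hq ih =>
    have hq' : q.Prime := hS q (Finset.mem_insert_self q S)
    have hS' : ∀ p ∈ S, p.Prime := fun p hp => hS p (Finset.mem_insert_of_mem hp)
    have hRs' : ∀ p ∈ S, Rs p ⊆ Finset.range p := fun p hp => hRs p (Finset.mem_insert_of_mem hp)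
    rw [Finset.prod_insert hq, Finset.prod_insert hq, ← ih hS' hRs']
    have hpos : 0 < ∏ p ∈ S, p := Finset.prod_pos (fun p hp => (hS' p hp).pos)
    have hcop : Nat.Coprime q (∏ p ∈ S, p) := by
      apply Nat.Coprime.prod_right
      intro p hp
      apply (Nat.coprime_primes hq' (hS' p hp)).mpr
      rintro rfl
      exact hq hp
    have h1 := card_crt_two q (∏ p ∈ S, p) hq'.pos hpos hcop (fun a => a ∈ Rs q)
      (fun a => ∀ p ∈ S, a % p ∈ Rs p)
    have h2 : #{a ∈ Finset.range q | a ∈ Rs q} = #(Rs q) := by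
      congr 1
      ext a
      rw [Finset.mem_filter]
      exact ⟨fun h => h.2, fun h => ⟨hRs q (Finset.mem_insert_self q S) h, h⟩⟩
    rw [h2] at h1
    rw [← h1]
    congr 1
    ext a
    rw [Finset.mem_filter, Finset.mem_filter]
    apply and_congr_right
    intro _
    rw [Finset.forall_mem_insert]
    apply and_congr_right
    intro _
    apply forall₂_congr
    intro p hp
    rw [Nat.mod_mod_of_dvd a (Finset.dvd_prod_of_mem _ hp)]

/-- S3. The set of `t ∈ (0, X]` is the disjoint union over the `a` counted in `card_crt` of the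
sets `{t ∈ (0, X] | t ≡ a [MOD d]}`, `d = ∏ p ∈ S, p`, and each of these has a number of elements
that differs from `X / d` by at most `1` (`abs_card_modEq_sub_le` of `PairCount.lean`). -/
lemma abs_card_res_sub_le (S : Finset ℕ) (hS : ∀ p ∈ S, p.Prime) (Rs : ℕ → Finset ℕ)
    (hRs : ∀ p ∈ S, Rs p ⊆ Finset.range p) (X : ℕ) :
    |((#{t ∈ Finset.Ioc 0 X | ∀ p ∈ S, t % p ∈ Rs p} : ℕ) : ℝ)
        - (∏ p ∈ S, (#(Rs p) : ℝ)) / (∏ p ∈ S, (p : ℝ)) * X| ≤ ∏ p ∈ S, (#(Rs p) : ℝ) := by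
  set d : ℕ := ∏ p ∈ S, p with hd
  have hdpos : 0 < d := Finset.prod_pos (fun p hp => (hS p hp).pos)
  set A : Finset ℕ := {a ∈ Finset.range d | ∀ p ∈ S, a % p ∈ Rs p} with hA
  have hcardA : (#A : ℝ) = ∏ p ∈ S, (#(Rs p) : ℝ) := by
    have := card_crt S hS Rs hRs
    rw [hA, hd, this]
    push_cast
    rfl
  have hdr : (∏ p ∈ S, (p : ℝ)) = (d : ℝ) := by
    rw [hd]
    push_cast
    rfl
  rw [← hcardA, hdr]
  have h1 : #{t ∈ Finset.Ioc 0 X | ∀ p ∈ S, t % p ∈ Rs p}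
      = ∑ a ∈ A, #{t ∈ Finset.Ioc 0 X | t ≡ a [MOD d]} := by
    have hmaps : ∀ t ∈ {t ∈ Finset.Ioc 0 X | ∀ p ∈ S, t % p ∈ Rs p}, t % d ∈ A := by
      intro t ht
      rw [Finset.mem_filter] at ht
      rw [hA, Finset.mem_filter, Finset.mem_range]
      refine ⟨Nat.mod_lt _ hdpos, fun p hp => ?_⟩
      rw [Nat.mod_mod_of_dvd t (Finset.dvd_prod_of_mem _ hp)]
      exact ht.2 p hp
    rw [Finset.card_eq_sum_card_fiberwise hmaps]
    apply Finset.sum_congr rfl
    intro a ha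
    rw [hA, Finset.mem_filter, Finset.mem_range] at ha
    congr 1
    ext t
    rw [Finset.mem_filter, Finset.mem_filter, Finset.mem_filter]
    constructor
    · rintro ⟨⟨h2, _⟩, h3⟩
      refine ⟨h2, ?_⟩
      unfold Nat.ModEq
      rw [h3, Nat.mod_eq_of_lt ha.1]
    · rintro ⟨h2, h3⟩
      unfold Nat.ModEq at h3
      rw [Nat.mod_eq_of_lt ha.1] at h3
      refine ⟨⟨h2, fun p hp => ?_⟩, h3⟩
      have h4 : t % p = a % p := by
        rw [← h3, Nat.mod_mod_of_dvd t (Finset.dvd_prod_of_mem _ hp)]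
      rw [h4]
      exact ha.2 p hp
  rw [h1]
  push_cast
  have h2 : ∑ a ∈ A, ((#{t ∈ Finset.Ioc 0 X | t ≡ a [MOD d]} : ℕ) : ℝ) - (#A : ℝ) / d * X
      = ∑ a ∈ A, (((#{t ∈ Finset.Ioc 0 X | t ≡ a [MOD d]} : ℕ) : ℝ) - (X : ℝ) / d) := by
    rw [Finset.sum_sub_distrib, Finset.sum_const, nsmul_eq_mul]
    ring
  rw [h2]
  refine (Finset.abs_sum_le_sum_abs _ _).trans ?_
  calc ∑ a ∈ A, |((#{t ∈ Finset.Ioc 0 X | t ≡ a [MOD d]} : ℕ) : ℝ) - (X : ℝ) / d|
      ≤ ∑ a ∈ A, (1 : ℝ) := Finset.sum_le_sum (fun a _ => abs_card_modEq_sub_le X d a hdpos)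
    _ = #A := by rw [Finset.sum_const, nsmul_eq_mul, mul_one]

end Pool.Agent.Lib.MP_bae66e_nt.TL
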