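import Pool.Agent.Lib.MP_bae66e_nt.TL.S2

/-!
# S4: the sieve problem with `r` residue classes
-/

set_option autoImplicit false

open Finset Nat ArithmeticFunction
open scoped ArithmeticFunction.Omega

namespace Pool.Agent.Lib.MP_bae66e_nt.TL

/-- the product of the primes `p ≤ R`, `p ∤ m`, for which `t` lies in one of the classes `Rs p` -/
def badProd (m R : ℕ) (Rs : ℕ → Finset ℕ) (t : ℕ) : ℕ :=
  ∏ p ∈ (sPrimes m R).filter (fun p => t % p ∈ Rs p), p

/-- `r ^ ω(d) / d` -/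
noncomputable def rNu (r : ℕ) : ArithmeticFunction ℝ :=
  ⟨fun d => (r : ℝ) ^ (#d.primeFactors) / d, by simp⟩

lemma rNu_apply (r d : ℕ) : rNu r d = (r : ℝ) ^ (#d.primeFactors) / d := rfl

/-- S4a. `ω` is additive on coprime arguments (`Nat.Coprime.primeFactors_mul`,
`Nat.Coprime.disjoint_primeFactors`). -/
lemma rNu_isMultiplicative (r : ℕ) : (rNu r).IsMultiplicative := by
  rw [ArithmeticFunction.IsMultiplicative.iff_ne_zero]
  refine ⟨by simp [rNu_apply], ?_⟩
  intro m n _ _ hmn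
  rw [rNu_apply, rNu_apply, rNu_apply, hmn.primeFactors_mul,
    Finset.card_union_of_disjoint hmn.disjoint_primeFactors, pow_add]
  push_cast
  rw [mul_div_mul_comm]

lemma rNu_prime (r : ℕ) {p : ℕ} (hp : p.Prime) : rNu r p = r / p := by
  rw [rNu_apply, Nat.Prime.primeFactors hp, Finset.card_singleton, pow_one]

/-- The sieve problem: `t ∈ (0, X]` is represented by the number `badProd m R Rs t`. -/
noncomputable def genS (m r R X : ℕ) (Rs : ℕ → Finset ℕ) (hr : 1 ≤ r)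
    (hrp : ∀ p : ℕ, p.Prime → ¬ p ∣ m → r < p) : BoundingSieve where
  support := (Finset.Ioc 0 X).image (badProd m R Rs)
  prodPrimes := sProd m R
  prodPrimes_squarefree := squarefree_sProd m R
  weights := fun n => ((#{t ∈ Finset.Ioc 0 X | badProd m R Rs t = n} : ℕ) : ℝ)
  weights_nonneg := fun _ => Nat.cast_nonneg _
  totalMass := X
  nu := rNu r
  nu_mult := rNu_isMultiplicative r
  nu_pos_of_prime := by
    intro p hp _
    rw [rNu_prime r hp]
    have : (0 : ℝ) < p := by exact_mod_cast hp.pos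
    have hr' : (0 : ℝ) < r := by exact_mod_cast hr
    positivity
  nu_lt_one_of_prime := by
    intro p hp hpd
    rw [rNu_prime r hp]
    have h1 := hrp p hp ((prime_dvd_sProd_iff hp).mp hpd).2
    have h2 : (0 : ℝ) < p := by exact_mod_cast hp.pos
    rw [div_lt_one h2]
    exact_mod_cast h1

lemma badProd_ne_zero (m R : ℕ) (Rs : ℕ → Finset ℕ) (t : ℕ) : badProd m R Rs t ≠ 0 := by
  unfold badProd
  rw [Finset.prod_ne_zero_iff]
  intro p hp
  rw [Finset.mem_filter] at hp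
  exact (prime_of_mem_sPrimes hp.1).ne_zero

lemma prime_dvd_badProd_iff {m R : ℕ} {Rs : ℕ → Finset ℕ} {t p : ℕ} (hp : p.Prime) :
    p ∣ badProd m R Rs t ↔ (p ≤ R ∧ ¬ p ∣ m) ∧ t % p ∈ Rs p := by
  unfold badProd
  rw [Prime.dvd_finsetProd_iff hp.prime]
  constructor
  · rintro ⟨q, hq, hpq⟩
    rw [Finset.mem_filter] at hq
    have hq' := prime_of_mem_sPrimes hq.1
    have := (Nat.prime_dvd_prime_iff_eq hp hq').mp hpq
    subst this
    unfold sPrimes at hq
    rw [Finset.mem_filter, Finset.mem_Icc] at hq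
    exact ⟨⟨hq.1.1.2, hq.1.2.2⟩, hq.2⟩
  · rintro ⟨⟨h1, h2⟩, h3⟩
    refine ⟨p, ?_, dvd_refl p⟩
    rw [Finset.mem_filter]
    unfold sPrimes
    rw [Finset.mem_filter, Finset.mem_Icc]
    exact ⟨⟨⟨hp.one_lt.le, h1⟩, hp, h2⟩, h3⟩

/-- summation over the fibres of `badProd` -/
lemma sum_fibres (m R X : ℕ) (Rs : ℕ → Finset ℕ) (P : ℕ → Prop) [DecidablePred P] :
    ∑ n ∈ (Finset.Ioc 0 X).image (badProd m R Rs),
        (if P n then ((#{t ∈ Finset.Ioc 0 X | badProd m R Rs t = n} : ℕ) : ℝ) else 0)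
      = ((#{t ∈ Finset.Ioc 0 X | P (badProd m R Rs t)} : ℕ) : ℝ) := by
  have h1 : #{t ∈ Finset.Ioc 0 X | P (badProd m R Rs t)}
      = ∑ n ∈ (Finset.Ioc 0 X).image (badProd m R Rs),
        #{t ∈ {t ∈ Finset.Ioc 0 X | P (badProd m R Rs t)} | badProd m R Rs t = n} := by
    apply Finset.card_eq_sum_card_fiberwise
    intro t ht
    rw [Finset.mem_coe, Finset.mem_filter] at ht
    rw [Finset.mem_coe]
    exact Finset.mem_image_of_mem _ ht.1
  rw [h1]
  push_cast
  apply Finset.sum_congr rfl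
  intro n _
  split_ifs with h
  · congr 2
    ext t
    simp only [Finset.mem_filter]
    constructor
    · rintro ⟨h2, h3⟩
      exact ⟨⟨h2, by rw [h3]; exact h⟩, h3⟩
    · rintro ⟨⟨h2, _⟩, h3⟩
      exact ⟨h2, h3⟩
  · symm
    rw [Nat.cast_eq_zero, Finset.card_eq_zero, Finset.filter_eq_empty_iff]
    intro t ht h3
    rw [Finset.mem_filter, h3] at ht
    exact h ht.2

/-- S4b. For squarefree `d ∣ sProd m R`: `d ∣ badProd t` iff all prime factors `p` of `d` satisfy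
`t % p ∈ Rs p`. The sum over the fibres of `badProd` is the number of `t`. -/
lemma genS_multSum (m r R X : ℕ) (Rs : ℕ → Finset ℕ) (hr : 1 ≤ r)
    (hrp : ∀ p : ℕ, p.Prime → ¬ p ∣ m → r < p) {d : ℕ} (hd : d ∣ sProd m R) :
    (genS m r R X Rs hr hrp).multSum d
      = ((#{t ∈ Finset.Ioc 0 X | ∀ p ∈ d.primeFactors, t % p ∈ Rs p} : ℕ) : ℝ) := by
  unfold BoundingSieve.multSum
  change ∑ n ∈ (Finset.Ioc 0 X).image (badProd m R Rs),
    (if d ∣ n then ((#{t ∈ Finset.Ioc 0 X | badProd m R Rs t = n} : ℕ) : ℝ) else 0) = _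
  rw [sum_fibres m R X Rs (fun n => d ∣ n)]
  congr 2
  ext t
  simp only [Finset.mem_filter, and_congr_right_iff]
  intro _
  have hsq : Squarefree d := (squarefree_sProd m R).squarefree_of_dvd hd
  constructor
  · intro h p hp
    have hp' := Nat.prime_of_mem_primeFactors hp
    exact ((prime_dvd_badProd_iff hp').mp ((Nat.dvd_of_mem_primeFactors hp).trans h)).2
  · intro h
    rw [← Nat.prod_primeFactors_of_squarefree hsq,
      Nat.prod_primeFactors_dvd_iff (badProd_ne_zero m R Rs t)]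
    intro p hp
    have hp' := Nat.prime_of_mem_primeFactors hp
    rw [Nat.mem_primeFactors]
    refine ⟨hp', ?_, badProd_ne_zero m R Rs t⟩
    rw [prime_dvd_badProd_iff hp']
    refine ⟨?_, h p hp⟩
    rw [← prime_dvd_sProd_iff hp']
    exact (Nat.dvd_of_mem_primeFactors hp).trans hd

/-- S4c. `sProd m R` is coprime to `badProd m R Rs t` iff `badProd m R Rs t = 1`, iff no prime
`p ≤ R`, `p ∤ m`, has `t % p ∈ Rs p`. -/
lemma genS_siftedSum (m r R X : ℕ) (Rs : ℕ → Finset ℕ) (hr : 1 ≤ r)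
    (hrp : ∀ p : ℕ, p.Prime → ¬ p ∣ m → r < p) :
    (genS m r R X Rs hr hrp).siftedSum
      = ((#{t ∈ Finset.Ioc 0 X | ∀ p ∈ sPrimes m R, t % p ∉ Rs p} : ℕ) : ℝ) := by
  unfold BoundingSieve.siftedSum
  change ∑ n ∈ (Finset.Ioc 0 X).image (badProd m R Rs),
    (if Nat.Coprime (sProd m R) n then
      ((#{t ∈ Finset.Ioc 0 X | badProd m R Rs t = n} : ℕ) : ℝ) else 0) = _
  rw [sum_fibres m R X Rs (fun n => Nat.Coprime (sProd m R) n)]
  congr 2
  ext t
  simp only [Finset.mem_filter, and_congr_right_iff]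
  intro _
  constructor
  · intro h p hp hmem
    have hp' := prime_of_mem_sPrimes hp
    have h1 : p ≤ R ∧ ¬ p ∣ m := by
      unfold sPrimes at hp
      rw [Finset.mem_filter, Finset.mem_Icc] at hp
      exact ⟨hp.1.2, hp.2.2⟩
    have h2 : p ∣ sProd m R := (prime_dvd_sProd_iff hp').mpr h1
    have h3 : p ∣ badProd m R Rs t := (prime_dvd_badProd_iff hp').mpr ⟨h1, hmem⟩
    exact hp'.not_dvd_one (h ▸ Nat.dvd_gcd h2 h3)
  · intro h
    rw [Nat.coprime_iff_gcd_eq_one]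
    by_contra hne
    obtain ⟨p, hp, hpd⟩ := Nat.exists_prime_and_dvd hne
    have h3 := (prime_dvd_badProd_iff hp).mp (hpd.trans (Nat.gcd_dvd_right _ _))
    refine h p ?_ h3.2
    unfold sPrimes
    rw [Finset.mem_filter, Finset.mem_Icc]
    exact ⟨⟨hp.one_lt.le, h3.1.1⟩, hp, h3.1.2⟩

/-- S4d. By `genS_multSum` and `abs_card_res_sub_le` with `S = d.primeFactors`
(`∏ p ∈ d.primeFactors, p = d` for squarefree `d`); then `r ^ ω(d) ≤ d` because `r < p`. -/
lemma genS_rem_le (m r R X : ℕ) (Rs : ℕ → Finset ℕ) (hr : 1 ≤ r)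
    (hrp : ∀ p : ℕ, p.Prime → ¬ p ∣ m → r < p)
    (hRs : ∀ p : ℕ, p.Prime → p ≤ R → ¬ p ∣ m → Rs p ⊆ Finset.range p ∧ #(Rs p) = r)
    {d : ℕ} (hd : d ∣ sProd m R) :
    |(genS m r R X Rs hr hrp).rem d| ≤ d := by
  unfold BoundingSieve.rem
  rw [genS_multSum m r R X Rs hr hrp hd]
  have hsq : Squarefree d := (squarefree_sProd m R).squarefree_of_dvd hd
  have hpr : ∀ p ∈ d.primeFactors, p.Prime := fun p hp => Nat.prime_of_mem_primeFactors hp
  have hcond : ∀ p ∈ d.primeFactors, p ≤ R ∧ ¬ p ∣ m := by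
    intro p hp
    exact (prime_dvd_sProd_iff (hpr p hp)).mp ((Nat.dvd_of_mem_primeFactors hp).trans hd)
  have hRs' : ∀ p ∈ d.primeFactors, Rs p ⊆ Finset.range p ∧ #(Rs p) = r := by
    intro p hp
    exact hRs p (hpr p hp) (hcond p hp).1 (hcond p hp).2
  have h := abs_card_res_sub_le d.primeFactors hpr Rs (fun p hp => (hRs' p hp).1) X
  have h1 : ∏ p ∈ d.primeFactors, (#(Rs p) : ℝ) = (r : ℝ) ^ #d.primeFactors := by
    rw [Finset.prod_congr rfl (fun p hp => by rw [(hRs' p hp).2]), Finset.prod_const]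
  have h2 : ∏ p ∈ d.primeFactors, (p : ℝ) = (d : ℝ) := by
    rw [← Nat.cast_prod, Nat.prod_primeFactors_of_squarefree hsq]
  rw [h1, h2] at h
  have h3 : (genS m r R X Rs hr hrp).nu d * (genS m r R X Rs hr hrp).totalMass
      = (r : ℝ) ^ #d.primeFactors / d * X := rfl
  rw [h3]
  refine h.trans ?_
  rw [← h2, ← Finset.prod_const]
  apply Finset.prod_le_prod
  · intro p _
    positivity
  · intro p hp
    exact_mod_cast (hrp p (hpr p hp) (hcond p hp).2).le

end Pool.Agent.Lib.MP_bae66e_nt.TL
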