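import Pool.Agent.Lib.MP_bae66e_nt.TL.S1
import Pool.Agent.Lib.MP_bae66e_nt.TL.S4

/-!
# S5: the Selberg sieve with `r` residue classes, uniform in `r`
-/

set_option autoImplicit false

open Finset Nat ArithmeticFunction
open scoped ArithmeticFunction.Omega

namespace Pool.Agent.Lib.MP_bae66e_nt.TL

/-- the completely multiplicative function `r ^ Ω(n) / n` on `n` coprime to `m` -/
noncomputable def rC (m r : ℕ) : ℕ →* ℝ where
  toFun n := if Nat.Coprime n m then (r : ℝ) ^ (Ω n) / n else 0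
  map_one' := by simp
  map_mul' a b := by
    by_cases ha : Nat.Coprime a m
    · by_cases hb : Nat.Coprime b m
      · rw [if_pos ha, if_pos hb, if_pos (Nat.Coprime.mul_left ha hb)]
        rcases Nat.eq_zero_or_pos a with rfl | ha0
        · simp
        rcases Nat.eq_zero_or_pos b with rfl | hb0
        · simp
        rw [ArithmeticFunction.cardFactors_mul ha0.ne' hb0.ne', pow_add]
        push_cast
        rw [mul_div_mul_comm]
      · rw [if_neg hb, mul_zero, if_neg]
        intro h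
        exact hb (Nat.Coprime.coprime_mul_left h)
    · rw [if_neg ha, zero_mul, if_neg]
      intro h
      exact ha (Nat.Coprime.coprime_mul_right h)

/-- S5. **Selberg's sieve with `r` residue classes.** `selberg_bound` for `genS` (with `R`);
`selS ≥ ∑_{n ≤ R, (n,m)=1} rC n` by `sum_c_le_selS` (for a prime `p`: `rC p = r / p < 1` if
`p ∤ m`, else `0`), `≥ ∑_{n ≤ D^r} ≥ (∑_{d ≤ D, (d,m)=1} 1/d)^r` (`pow_sum_le`)
`≥ (rho m * log (D + 1)) ^ r` (`rho_mul_log_le`); error: `|rem (lcm d₁ d₂)| ≤ lcm d₁ d₂ ≤ d₁ d₂ ≤ R²`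
with at most `R²` pairs. -/
theorem gen_sieve (m r R D X : ℕ) (Rs : ℕ → Finset ℕ) (hm : m ≠ 0) (hr : 1 ≤ r)
    (hrp : ∀ p : ℕ, p.Prime → ¬ p ∣ m → r < p)
    (hRs : ∀ p : ℕ, p.Prime → p ≤ R → ¬ p ∣ m → Rs p ⊆ Finset.range p ∧ #(Rs p) = r)
    (hD : 1 ≤ D) (hDR : D ^ r ≤ R) :
    ((#{t ∈ Finset.Ioc 0 X | ∀ p ∈ sPrimes m R, t % p ∉ Rs p} : ℕ) : ℝ)
      ≤ X / (rho m * Real.log (D + 1)) ^ r + (R : ℝ) ^ 4 := by
  set s := genS m r R X Rs hr hrp with hs
  have hR : 1 ≤ R := (Nat.one_le_pow _ _ hD).trans hDR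
  have h1 := selberg_bound (s := s) hR
  rw [hs, genS_siftedSum m r R X Rs hr hrp, ← hs] at h1
  have hD1 : (1 : ℝ) ≤ D := by exact_mod_cast hD
  have hlog : 0 < Real.log (D + 1) := Real.log_pos (by linarith)
  have hpos : 0 < rho m * Real.log (D + 1) := mul_pos (rho_pos m) hlog
  have h2 : (rho m * Real.log (D + 1)) ^ r ≤ selS s R := by
    have h3 := sum_c_le_selS (s := s) (m := m) (rC m r)
      (fun n => by
        change 0 ≤ (if Nat.Coprime n m then (r : ℝ) ^ (Ω n) / n else 0)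
        split_ifs <;> positivity)
      (fun p hp => by
        change (if Nat.Coprime p m then (r : ℝ) ^ (Ω p) / p else 0) < 1
        split_ifs with h
        · have hpm : ¬ p ∣ m := (Nat.Prime.coprime_iff_not_dvd hp).mp h
          have h4 := hrp p hp hpm
          rw [ArithmeticFunction.cardFactors_apply_prime hp, pow_one]
          have h5 : (0 : ℝ) < p := by exact_mod_cast hp.pos
          rw [div_lt_one h5]
          exact_mod_cast h4
        · exact one_pos)
      (fun p hp hpd => by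
        change rNu r p = (if Nat.Coprime p m then (r : ℝ) ^ (Ω p) / p else 0)
        have hpm : ¬ p ∣ m := ((prime_dvd_sProd_iff hp).mp hpd).2
        rw [if_pos ((Nat.Prime.coprime_iff_not_dvd hp).mpr hpm), rNu_prime r hp,
          ArithmeticFunction.cardFactors_apply_prime hp, pow_one]) (R := R) rfl
    refine le_trans ?_ h3
    have h4 := pow_sum_le m D r
    have h5 : (rho m * Real.log (D + 1)) ^ r
        ≤ (∑ d ∈ Finset.Icc 1 D with Nat.Coprime d m, (1 : ℝ) / d) ^ r :=
      pow_le_pow_left₀ hpos.le (rho_mul_log_le hm D) r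
    refine (h5.trans h4).trans ?_
    have h6 : ∑ n ∈ Finset.Icc 1 (D ^ r) with Nat.Coprime n m, (r : ℝ) ^ (Ω n) / n
        = ∑ n ∈ Finset.Icc 1 (D ^ r) with Nat.Coprime n m, rC m r n := by
      apply Finset.sum_congr rfl
      intro n hn
      rw [Finset.mem_filter] at hn
      change _ = (if Nat.Coprime n m then (r : ℝ) ^ (Ω n) / n else 0)
      rw [if_pos hn.2]
    rw [h6]
    apply Finset.sum_le_sum_of_subset_of_nonneg
    · intro n hn
      rw [Finset.mem_filter, Finset.mem_Icc] at hn ⊢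
      exact ⟨⟨hn.1.1, hn.1.2.trans hDR⟩, hn.2⟩
    · intro n _ _
      change 0 ≤ (if Nat.Coprime n m then (r : ℝ) ^ (Ω n) / n else 0)
      split_ifs <;> positivity
  refine h1.trans (add_le_add ?_ ?_)
  · change (X : ℝ) / selS s R ≤ _
    exact div_le_div_of_nonneg_left (Nat.cast_nonneg X) (pow_pos hpos r) h2
  · have h5 : ∀ d ∈ ({d ∈ s.prodPrimes.divisors | d ≤ R} : Finset ℕ),
        d ∣ sProd m R ∧ d ≤ R := by
      intro d hd
      simp only [Finset.mem_filter, Nat.mem_divisors] at hd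
      exact ⟨hd.1.1, hd.2⟩
    have hcard : ((#({d ∈ s.prodPrimes.divisors | d ≤ R} : Finset ℕ) : ℕ) : ℝ) ≤ (R : ℝ) := by
      have : #({d ∈ s.prodPrimes.divisors | d ≤ R} : Finset ℕ) ≤ #(Finset.Icc 1 R) := by
        apply Finset.card_le_card
        intro d hd
        have h6 := h5 d hd
        rw [Finset.mem_Icc]
        exact ⟨Nat.pos_of_dvd_of_pos h6.1
          (Nat.pos_of_ne_zero (squarefree_sProd m R).ne_zero), h6.2⟩
      rw [Nat.card_Icc, Nat.add_sub_cancel] at this
      exact_mod_cast this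
    calc ∑ d1 ∈ s.prodPrimes.divisors with d1 ≤ R, ∑ d2 ∈ s.prodPrimes.divisors with d2 ≤ R,
          |s.rem (d1.lcm d2)|
        ≤ ∑ d1 ∈ s.prodPrimes.divisors with d1 ≤ R,
            ∑ d2 ∈ s.prodPrimes.divisors with d2 ≤ R, (R : ℝ) ^ 2 := by
          apply Finset.sum_le_sum
          intro d1 hd1
          apply Finset.sum_le_sum
          intro d2 hd2
          have h6 := h5 d1 hd1
          have h7 := h5 d2 hd2
          have h8 := genS_rem_le m r R X Rs hr hrp hRs (Nat.lcm_dvd h6.1 h7.1)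
          refine h8.trans ?_
          have h9 : d1.lcm d2 ≤ d1 * d2 := Nat.le_of_dvd
            (Nat.mul_pos (Nat.pos_of_dvd_of_pos h6.1
              (Nat.pos_of_ne_zero (squarefree_sProd m R).ne_zero)) (Nat.pos_of_dvd_of_pos h7.1
              (Nat.pos_of_ne_zero (squarefree_sProd m R).ne_zero))) (Nat.lcm_dvd_mul d1 d2)
          have h10 : d1 * d2 ≤ R * R := Nat.mul_le_mul h6.2 h7.2
          have h11 : ((d1.lcm d2 : ℕ) : ℝ) ≤ ((R * R : ℕ) : ℝ) := by exact_mod_cast h9.trans h10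
          rw [sq]
          exact_mod_cast h11
      _ = ((#({d ∈ s.prodPrimes.divisors | d ≤ R} : Finset ℕ) : ℕ) : ℝ) *
          (((#({d ∈ s.prodPrimes.divisors | d ≤ R} : Finset ℕ) : ℕ) : ℝ) * (R : ℝ) ^ 2) := by
          rw [Finset.sum_const, nsmul_eq_mul, Finset.sum_const, nsmul_eq_mul]
      _ ≤ (R : ℝ) * ((R : ℝ) * (R : ℝ) ^ 2) := by gcongr
      _ = (R : ℝ) ^ 4 := by ring

end Pool.Agent.Lib.MP_bae66e_nt.TL
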